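import Pool.Agent.Run7.h320.Star
import Pool.Agent.TH559.LE.Bkw

/-!
# The theorem of Borodin, Kostochka and Woodall for two types of vertices and any colours
-/

set_option autoImplicit false

namespace Pool.Agent.Run7.h320.D

open Finset

theorem bk {A B γ : Type} [Fintype A] [Fintype B] [DecidableEq A] [DecidableEq B] [DecidableEq γ]
    [Nonempty γ] (E : Finset (A × B)) (L : A × B → Finset γ)
    (h1 : ∀ e ∈ E, (E.filter (fun f => f.1 = e.1)).card ≤ (L e).card)
    (h2 : ∀ e ∈ E, (E.filter (fun f => f.2 = e.2)).card ≤ (L e).card) :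
    ∃ φ : A × B → γ, (∀ e ∈ E, φ e ∈ L e) ∧
      ∀ e ∈ E, ∀ f ∈ E, f ≠ e → (f.1 = e.1 ∨ f.2 = e.2) → φ f ≠ φ e := by
  classical
  obtain ⟨S, hS⟩ : ∃ S : Finset γ, S = E.biUnion L := ⟨_, rfl⟩
  have hLS : ∀ e ∈ E, L e ⊆ S := by
    intro e he c hc
    rw [hS, mem_biUnion]
    exact ⟨e, he, hc⟩
  obtain ⟨g, hg⟩ : ∃ g : γ → ℕ, g = fun c => if h : c ∈ S then (S.equivFin ⟨c, h⟩ : ℕ) else 0 :=
    ⟨_, rfl⟩
  have hgi : Set.InjOn g S := by
    intro a ha b hb hab
    rw [mem_coe] at ha hb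
    simp only [hg, dif_pos ha, dif_pos hb] at hab
    have := S.equivFin.injective (Fin.ext hab)
    exact congrArg Subtype.val this
  let em : A × B ↪ (A ⊕ B) × (A ⊕ B) := ⟨fun e => (Sum.inl e.1, Sum.inr e.2), by
    rintro ⟨a, b⟩ ⟨a', b'⟩ h
    simp only [Prod.mk.injEq, Sum.inl.injEq, Sum.inr.injEq] at h
    exact Prod.ext h.1 h.2⟩
  let de : (A ⊕ B) × (A ⊕ B) → Finset ℕ := fun x =>
    match x with
    | (Sum.inl a, Sum.inr b) => (L (a, b)).image g
    | _ => ∅
  have hde : ∀ e, de (em e) = (L e).image g := fun e => rfl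
  have hcard : ∀ e ∈ E, (de (em e)).card = (L e).card := by
    intro e he
    rw [hde, card_image_of_injOn]
    exact hgi.mono (by exact_mod_cast hLS e he)
  obtain ⟨φ, hφ⟩ := Pool.Agent.TH559.LE.bkw (E.map em) de (by
    intro x hx
    rw [mem_map] at hx
    obtain ⟨e, he, rfl⟩ := hx
    rw [hcard e he]
    apply max_le
    · refine le_trans (card_le_card (t := (E.filter (fun f => f.1 = e.1)).map em) ?_)
        (by rw [card_map]; exact h1 e he)
      intro x hx
      simp only [mem_filter] at hx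
      obtain ⟨hx1, hx2⟩ := hx
      obtain ⟨f, hf, rfl⟩ := mem_map.1 hx1
      exact mem_map_of_mem em (mem_filter.2 ⟨hf, Sum.inl_injective hx2⟩)
    · refine le_trans (card_le_card (t := (E.filter (fun f => f.2 = e.2)).map em) ?_)
        (by rw [card_map]; exact h2 e he)
      intro x hx
      simp only [mem_filter] at hx
      obtain ⟨hx1, hx2⟩ := hx
      obtain ⟨f, hf, rfl⟩ := mem_map.1 hx1
      exact mem_map_of_mem em (mem_filter.2 ⟨hf, Sum.inr_injective hx2⟩))
  have h3 : ∀ e : A × B, ∃ c, e ∈ E → c ∈ L e ∧ g c = φ (em e) := by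
    intro e
    by_cases he : e ∈ E
    · have h4 := (hφ (em e) (mem_map_of_mem em he)).1
      rw [hde, mem_image] at h4
      obtain ⟨c, hc, hc'⟩ := h4
      exact ⟨c, fun _ => ⟨hc, hc'⟩⟩
    · exact ⟨Classical.arbitrary γ, fun h => absurd h he⟩
  choose ψ hψ using h3
  refine ⟨ψ, fun e he => (hψ e he).1, ?_⟩
  intro e he f hf hfe hor heq
  refine (hφ (em e) (mem_map_of_mem em he)).2 (em f) (mem_map_of_mem em hf)
    (fun h => hfe (em.injective h)) ?_ ?_
  · rcases hor with h | h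
    · exact Or.inl (congrArg Sum.inl h)
    · exact Or.inr (congrArg Sum.inr h)
  · rw [← (hψ e he).2, ← (hψ f hf).2, heq]

end Pool.Agent.Run7.h320.D
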