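import Pool.Agent.Run7.h320.D.TL

/-!
# Total labelings of dense graphs: the statements
-/

set_option autoImplicit false
set_option linter.unusedSectionVars false

namespace Pool.Agent.Run7.h320.D

open Finset

/-- the number of neighbours -/
theorem nbr_ncard {V : Type} [Fintype V] [DecidableEq V] (G : SimpleGraph V) [DecidableRel G.Adj]
    (v : V) : (univ.filter (fun w => G.Adj v w)).card = (G.neighborSet v).ncard := by
  rw [← Set.ncard_coe_finset]
  congr 1
  ext w
  simp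

/-- a graph with few edges has many vertices of small degree -/
theorem low_deg {V : Type} [Fintype V] [DecidableEq V] (G : SimpleGraph V) [DecidableRel G.Adj]
    {δ : ℝ} (hδ0 : 0 < δ) (hδ1 : δ ≤ 1) (hV : 0 < Fintype.card V)
    (h : 2 * (G.edgeSet.ncard : ℝ) ≤ (1 - δ) * (Fintype.card V : ℝ) ^ 2) :
    δ / 2 * Fintype.card V ≤ ((univ.filter (fun v => ((univ.filter (fun w => G.Adj v w)).card : ℝ) ≤
      (1 - δ / 2) * Fintype.card V)).card : ℝ) := by
  classical
  by_contra hcon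
  push Not at hcon
  obtain ⟨W, hW⟩ : ∃ W : Finset V, W = univ.filter (fun v =>
    ((univ.filter (fun w => G.Adj v w)).card : ℝ) ≤ (1 - δ / 2) * Fintype.card V) := ⟨_, rfl⟩
  rw [← hW] at hcon
  have h1 : ∑ v, (univ.filter (fun w => G.Adj v w)).card = 2 * G.edgeSet.ncard := by
    have h3 := G.sum_degrees_eq_twice_card_edges
    have h4 : G.edgeSet.ncard = G.edgeFinset.card := by
      rw [Set.ncard_eq_toFinset_card', ← SimpleGraph.edgeFinset]
    rw [h4, ← h3]
    apply sum_congr rfl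
    intro v _
    rw [← SimpleGraph.card_neighborFinset_eq_degree]
    congr 1
    ext w
    simp
  obtain ⟨n, hn⟩ : ∃ n : ℝ, n = (Fintype.card V : ℝ) := ⟨_, rfl⟩
  have hn0 : 0 < n := by
    rw [hn]
    exact_mod_cast hV
  have h2 : ((univ \ W).card : ℝ) + W.card = n := by
    have := card_sdiff_add_card_eq_card (subset_univ W)
    rw [card_univ] at this
    rw [hn]
    exact_mod_cast this
  rw [← hn] at hcon h
  have h3 : ((univ \ W).card : ℝ) * ((1 - δ / 2) * n) ≤
      ∑ v, ((univ.filter (fun w => G.Adj v w)).card : ℝ) := by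
    calc ((univ \ W).card : ℝ) * ((1 - δ / 2) * n) = ∑ _v ∈ univ \ W, (1 - δ / 2) * n := by
          rw [sum_const, nsmul_eq_mul]
      _ ≤ ∑ v ∈ univ \ W, ((univ.filter (fun w => G.Adj v w)).card : ℝ) := by
          apply sum_le_sum
          intro v hv
          by_contra hc
          push Not at hc
          apply (mem_sdiff.1 hv).2
          rw [hW, mem_filter, ← hn]
          exact ⟨mem_univ _, hc.le⟩
      _ ≤ _ := by
          apply sum_le_sum_of_subset_of_nonneg (subset_univ _)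
          intro v _ _
          exact Nat.cast_nonneg _
  have h4 : ∑ v, ((univ.filter (fun w => G.Adj v w)).card : ℝ) = 2 * (G.edgeSet.ncard : ℝ) := by
    exact_mod_cast h1
  rw [h4] at h3
  have h5 : (1 - δ / 2) * n < ((univ \ W).card : ℝ) := by linarith
  have h6 : 0 < (1 - δ / 2) * n := mul_pos (by linarith) hn0
  have h7 : (1 - δ / 2) * n * ((1 - δ / 2) * n) < ((univ \ W).card : ℝ) * ((1 - δ / 2) * n) :=
    mul_lt_mul_of_pos_right h5 h6
  have h8 : 0 ≤ (δ / 2) ^ 2 * n ^ 2 := by positivity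
  nlinarith

/-- the labeling, in terms of natural numbers -/
theorem tlN (δ : ℝ) (hδ0 : 0 < δ) : ∃ ε : ℝ, 0 < ε ∧ ∃ n₀ : ℕ,
    ∀ (V : Type) [Fintype V] (G : SimpleGraph V) (D p : ℕ), n₀ ≤ Fintype.card V → 1 ≤ p →
      (p : ℝ) ≤ ε * Fintype.card V → (∀ v, (G.neighborSet v).ncard ≤ D) →
      (1 - ε) * Fintype.card V ≤ D →
      2 * (G.edgeSet.ncard : ℝ) ≤ (1 - δ) * (Fintype.card V : ℝ) ^ 2 →
      ∃ (fV : V → ℕ) (fE : Sym2 V → ℕ),
        (∀ v, fV v ≤ D + 2 * p - 2) ∧ (∀ e ∈ G.edgeSet, fE e ≤ D + 2 * p - 2) ∧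
        (∀ u v, G.Adj u v → fV u ≠ fV v) ∧
        (∀ u v w, G.Adj u v → G.Adj u w → v ≠ w → fE s(u, v) ≠ fE s(u, w)) ∧
        (∀ u v, G.Adj u v → (p : ℤ) ≤ |(fV u : ℤ) - (fE s(u, v) : ℤ)|) := by
  classical
  obtain ⟨δ', hδ'⟩ : ∃ δ' : ℝ, δ' = min δ 1 := ⟨_, rfl⟩
  have hd0 : 0 < δ' := by
    rw [hδ']
    exact lt_min hδ0 one_pos
  have hd1 : δ' ≤ 1 := by
    rw [hδ']
    exact min_le_right _ _
  have hdd : δ' ≤ δ := by
    rw [hδ']
    exact min_le_left _ _
  obtain ⟨ε, hε, n₀, h⟩ := tl (δ' / 2) (by linarith) (by linarith)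
  refine ⟨ε, hε, max n₀ 1, ?_⟩
  intro V _ G D p hn hp hpn hdeg hDn hedge
  have hV : 0 < Fintype.card V := lt_of_lt_of_le one_pos ((le_max_right _ _).trans hn)
  have hlow := low_deg G hd0 hd1 hV (hedge.trans (by
    apply mul_le_mul_of_nonneg_right _ (by positivity)
    linarith))
  obtain ⟨D', hD'⟩ : ∃ D' : ℕ, D' = min D (Fintype.card V) := ⟨_, rfl⟩
  have hDD : D' ≤ D := by
    rw [hD']
    exact min_le_left _ _
  obtain ⟨f, χ, h1, h2, h3⟩ := h V G D' p _ ((le_max_left _ _).trans hn) hp hpn (by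
    intro v
    rw [hD', le_min_iff]
    refine ⟨?_, card_le_univ _⟩
    rw [nbr_ncard]
    exact hdeg v) (by
    rw [hD', Nat.cast_min, le_min_iff]
    refine ⟨hDn, ?_⟩
    have : (0 : ℝ) ≤ Fintype.card V := Nat.cast_nonneg _
    nlinarith) (by
    rw [hD']
    exact min_le_right _ _) hlow (by
    intro w hw
    exact (mem_filter.1 hw).2)
  refine ⟨fun v => (f v).val, fun e => (χ e).val, ?_, ?_, ?_, ?_, ?_⟩
  · intro v
    have := (f v).isLt
    show (f v).val ≤ D + 2 * p - 2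
    omega
  · intro e _
    have := (χ e).isLt
    show (χ e).val ≤ D + 2 * p - 2
    omega
  · intro u v huv heq
    exact h1 u v huv (Fin.ext heq)
  · intro u v w huv huw hvw heq
    exact h2 u v w huv huw hvw (Fin.ext heq)
  · intro u v huv
    show (p : ℤ) ≤ |((f u).val : ℤ) - ((χ s(u, v)).val : ℤ)|
    rw [le_abs]
    rcases h3 u v huv with h4 | h4
    · left
      omega
    · right
      omega

/-- the bound is attained -/
theorem tl_sharp {V : Type} [Fintype V] (G : SimpleGraph V) (D p : ℕ) (hD : 1 ≤ D) (hp : 1 ≤ p)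
    (K : Finset V) (hK : K.card = 2 * p - 1) (hcl : ∀ u ∈ K, ∀ v ∈ K, u ≠ v → G.Adj u v)
    (hdeg : ∀ u ∈ K, D ≤ (G.neighborSet u).ncard) (fV : V → ℕ) (fE : Sym2 V → ℕ)
    (h1 : ∀ v, fV v ≤ D + 2 * p - 3) (h2 : ∀ e ∈ G.edgeSet, fE e ≤ D + 2 * p - 3)
    (h3 : ∀ u v, G.Adj u v → fV u ≠ fV v)
    (h4 : ∀ u v w, G.Adj u v → G.Adj u w → v ≠ w → fE s(u, v) ≠ fE s(u, w))
    (h5 : ∀ u v, G.Adj u v → (p : ℤ) ≤ |(fV u : ℤ) - (fE s(u, v) : ℤ)|) : False := by
  classical
  obtain ⟨u, huK, hu1, hu2⟩ : ∃ u ∈ K, p - 1 ≤ fV u ∧ fV u ≤ D + p - 2 := by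
    by_contra hcon
    push Not at hcon
    have h6 : (K.image fV) ⊆ range (p - 1) ∪ Finset.Ico (D + p - 1) (D + 2 * p - 2) := by
      intro x hx
      obtain ⟨u, hu, rfl⟩ := mem_image.1 hx
      rw [mem_union, mem_range, mem_Ico]
      have h7 := h1 u
      have h8 := hcon u hu
      by_cases h9 : fV u < p - 1
      · exact Or.inl h9
      · right
        have := h8 (not_lt.1 h9)
        omega
    have h7 := (card_le_card h6).trans (card_union_le _ _)
    rw [card_range, Nat.card_Ico, card_image_of_injOn (by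
      intro x hx y hy hxy
      by_contra hne
      exact h3 x y (hcl x hx y hy hne) hxy), hK] at h7
    omega
  have h7 : ((univ.filter (fun w => G.Adj u w)).image (fun w => fE s(u, w))) ⊆
      range (D + 2 * p - 2) \ Finset.Ico (fV u + 1 - p) (fV u + p) := by
    intro x hx
    obtain ⟨w, hw, rfl⟩ := mem_image.1 hx
    rw [mem_filter] at hw
    have h8 := h2 s(u, w) hw.2
    have h9 := h5 u w hw.2
    rw [mem_sdiff, mem_range, mem_Ico]
    rw [le_abs] at h9
    refine ⟨by omega, ?_⟩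
    rintro ⟨ha, hb⟩
    rcases h9 with h9 | h9 <;> omega
  have h8 := card_le_card h7
  have h9 : Finset.Ico (fV u + 1 - p) (fV u + p) ⊆ range (D + 2 * p - 2) := by
    intro x hx
    rw [mem_Ico] at hx
    rw [mem_range]
    omega
  have h10 := card_sdiff_add_card_eq_card h9
  rw [card_range, Nat.card_Ico] at h10
  rw [card_image_of_injOn (by
    intro x hx y hy hxy
    rw [mem_coe, mem_filter] at hx hy
    by_contra hne
    exact h4 u x y hx.2 hy.2 hne hxy)] at h8
  have h11 := hdeg u huK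
  rw [← nbr_ncard] at h11
  omega

end Pool.Agent.Run7.h320.D
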