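import Pool.Agent.Run7.h320.D.TLa

/-!
# Total colourings of dense graphs with a precoloured matching
-/

set_option autoImplicit false
set_option linter.unusedSectionVars false

namespace Pool.Agent.Run7.h320.D

open Finset

/-- the colours of the vertices -/
theorem tcv {V : Type} [Fintype V] [DecidableEq V] (G : SimpleGraph V) [DecidableRel G.Adj]
    (A₀ W₀ : Finset V) (c : V → ℕ) (N r K : ℕ)
    (h₀ : ∀ u ∈ A₀, ∀ v ∈ A₀, G.Adj u v → c u ≠ c v)
    (hA : ∀ v, (A₀.filter (fun w => G.Adj v w)).card ≤ 2)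
    (hU : (univ \ (W₀ ∪ A₀)).card + 2 < N)
    (hW : ∀ w ∈ W₀, (univ.filter (fun v => G.Adj w v)).card * K + Fintype.card V + r * K < N * K) :
    ∃ f : V → ℕ, (∀ v ∈ A₀, f v = c v) ∧ (∀ v, v ∉ A₀ → f v < N) ∧
      (∀ v ∈ W₀, v ∉ A₀ → r ≤ f v) ∧ (∀ u v, G.Adj u v → f u ≠ f v) ∧
      ∀ x, (univ.filter (fun v => v ∉ A₀ ∧ f v = x)).card ≤ K + 1 := by
  classical
  obtain ⟨U, hUd⟩ : ∃ U : Finset V, U = univ \ (W₀ ∪ A₀) := ⟨_, rfl⟩
  have memU : ∀ v, v ∈ U ↔ v ∉ W₀ ∧ v ∉ A₀ := by
    intro v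
    rw [hUd, mem_sdiff, mem_union, not_or]
    simp
  rw [← hUd] at hU
  obtain ⟨f₀, f1, f2, f3⟩ := ginj (fun v => range N \ (A₀.filter (fun w => G.Adj v w)).image c) c U
    (by
    intro w _
    have h3 := le_card_sdiff ((A₀.filter (fun x => G.Adj w x)).image c) (range N)
    have h4 : ((A₀.filter (fun x => G.Adj w x)).image c).card ≤ 2 := card_image_le.trans (hA w)
    rw [card_range] at h3
    omega)
  have hAU : ∀ v ∈ A₀, f₀ v = c v := fun v hv => f2 v (fun h => ((memU v).1 h).2 hv)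
  obtain ⟨W, hWd⟩ : ∃ W : Finset V, W = W₀ \ A₀ := ⟨_, rfl⟩
  have memW : ∀ v, v ∈ W ↔ v ∈ W₀ ∧ v ∉ A₀ := by
    intro v
    rw [hWd, mem_sdiff]
  have hdis : Disjoint (U ∪ A₀) W := by
    rw [disjoint_left]
    intro v hv hvW
    rw [mem_union, memU] at hv
    rw [memW] at hvW
    tauto
  have hun : (U ∪ A₀) ∪ W = univ := by
    ext v
    rw [mem_union, mem_union, memU, memW]
    simp only [mem_univ, iff_true]
    tauto
  have hU1 : ∀ u ∈ U, ∀ v ∈ A₀, G.Adj u v → f₀ u ≠ f₀ v := by
    intro u hu v hv huv heq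
    have h3 := f1 u hu
    rw [mem_sdiff] at h3
    apply h3.2
    rw [heq, hAU v hv]
    exact mem_image.2 ⟨v, mem_filter.2 ⟨hv, huv⟩, rfl⟩
  obtain ⟨f, g1, g2, g3, g4⟩ := gcap (fun v => univ.filter (fun w => G.Adj v w))
    (fun u v h => mem_filter.2 ⟨mem_univ _, (mem_filter.1 h).2.symm⟩)
    (fun v h => G.loopless.irrefl v (mem_filter.1 h).2) (U ∪ A₀)
    (fun _ => range N \ range r) K f₀ (by
      intro u hu v hv huv
      rw [mem_filter] at huv
      rw [mem_union] at hu hv
      rcases hu with hu | hu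
      · rcases hv with hv | hv
        · exact fun h => huv.2.ne (f3 u hu v hv h)
        · exact hU1 u hu v hv huv.2
      · rcases hv with hv | hv
        · exact fun h => hU1 v hv u hu huv.2.symm h.symm
        · rw [hAU u hu, hAU v hv]
          exact h₀ u hu v hv huv.2) W hdis (by
      intro w hw
      rw [hun, inter_univ]
      have h3 := hW w ((memW w).1 hw).1
      have h4 : W.card ≤ Fintype.card V := card_le_univ _
      have h5 := le_card_sdiff (range r) (range N)
      rw [card_range, card_range] at h5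
      have h6 : N * K ≤ (range N \ range r).card * K + r * K := by
        rw [← add_mul]
        apply Nat.mul_le_mul_right
        omega
      omega) W (Subset.refl _)
  rw [hun] at g3
  have hfA : ∀ v ∈ A₀, f v = c v := by
    intro v hv
    rw [g1 v (mem_union_right _ hv), hAU v hv]
  refine ⟨f, hfA, ?_, ?_, ?_, ?_⟩
  · intro v hv
    by_cases hvW : v ∈ W₀
    · have := g2 v ((memW v).2 ⟨hvW, hv⟩)
      rw [mem_sdiff, mem_range] at this
      exact this.1
    · have h3 : v ∈ U := (memU v).2 ⟨hvW, hv⟩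
      rw [g1 v (mem_union_left _ h3)]
      have := f1 v h3
      rw [mem_sdiff, mem_range] at this
      exact this.1
  · intro v hv hvA
    have := g2 v ((memW v).2 ⟨hv, hvA⟩)
    rw [mem_sdiff, mem_range, mem_range] at this
    exact not_lt.1 this.2
  · intro u v huv
    exact g3 u (mem_univ _) v (mem_univ _) (mem_filter.2 ⟨mem_univ _, huv⟩)
  · intro x
    have h3 : univ.filter (fun v => v ∉ A₀ ∧ f v = x) ⊆ W.filter (fun v => f v = x) ∪
        U.filter (fun v => f₀ v = x) := by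
      intro v hv
      rw [mem_filter] at hv
      rw [mem_union, mem_filter, mem_filter, memW, memU]
      by_cases hvW : v ∈ W₀
      · exact Or.inl ⟨⟨hvW, hv.2.1⟩, hv.2.2⟩
      · refine Or.inr ⟨⟨hvW, hv.2.1⟩, ?_⟩
        rw [← g1 v (mem_union_left _ ((memU v).2 ⟨hvW, hv.2.1⟩))]
        exact hv.2.2
    refine (card_le_card h3).trans ((card_union_le _ _).trans (add_le_add (g4 x) ?_))
    rw [card_le_one]
    intro a ha b hb
    rw [mem_filter] at ha hb
    exact f3 a ha.1 b hb.1 (ha.2.trans hb.2.symm)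

/-- the size of the part of the graph that is coloured beforehand -/
theorem pre_card {V : Type} [Fintype V] [DecidableEq V] (G : SimpleGraph V) [DecidableRel G.Adj]
    (A₀ : Finset V) (hA : ∀ v, (A₀.filter (fun w => G.Adj v w)).card ≤ 2) (z : V) :
    A₀.card + (univ.filter (fun w => G.Adj z w)).card ≤ Fintype.card V + 2 := by
  classical
  have h1 : A₀ ⊆ A₀.filter (fun w => G.Adj z w) ∪ (univ \ univ.filter (fun w => G.Adj z w)) := by
    intro v hv
    rw [mem_union, mem_filter, mem_sdiff, mem_filter]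
    by_cases h : G.Adj z v
    · exact Or.inl ⟨hv, h⟩
    · exact Or.inr ⟨mem_univ _, fun h' => h h'.2⟩
  have h2 := (card_le_card h1).trans (card_union_le _ _)
  have h3 := card_sdiff_add_card_eq_card (subset_univ (univ.filter (fun w => G.Adj z w)))
  rw [card_univ] at h3
  have h4 := hA z
  omega

/-- extending a total colouring of a distance-3 matching -/
theorem tcx (δ : ℝ) (hδ0 : 0 < δ) (hδ1 : δ ≤ 1) : ∃ ε : ℝ, 0 < ε ∧ ∃ n₀ : ℕ,
    ∀ (V : Type) [Fintype V] [DecidableEq V] (G H : SimpleGraph V) [DecidableRel G.Adj]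
      [DecidableRel H.Adj] (D k : ℕ) (W₀ A₀ : Finset V) (z : V) (c : V → ℕ) (d : Sym2 V → ℕ),
      n₀ ≤ Fintype.card V → (∀ v, (univ.filter (fun w => G.Adj v w)).card ≤ D) →
      D ≤ Fintype.card V → D + 1 ≤ k →
      (1 - ε) * Fintype.card V ≤ (univ.filter (fun w => G.Adj z w)).card →
      δ * Fintype.card V ≤ W₀.card →
      (∀ w ∈ W₀, ((univ.filter (fun v => G.Adj w v)).card : ℝ) ≤ (1 - δ) * Fintype.card V) →
      H ≤ G → (∀ v, v ∈ A₀ ↔ ∃ w, H.Adj v w) → (∀ u v w, H.Adj u v → H.Adj u w → v = w) →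
      (∀ u ∈ A₀, ∀ v ∈ A₀, G.Adj u v → H.Adj u v) →
      (∀ v, (A₀.filter (fun w => G.Adj v w)).card ≤ 2) →
      (∀ u v, H.Adj u v → c u ≠ c v) → (∀ u v, H.Adj u v → d s(u, v) ≠ c u) →
      (∀ v ∈ A₀, c v < k) → (∀ e ∈ H.edgeSet, d e < k) →
      ∃ (c' : V → ℕ) (d' : Sym2 V → ℕ), (∀ u v, G.Adj u v → c' u ≠ c' v) ∧
        (∀ u v w, G.Adj u v → G.Adj u w → v ≠ w → d' s(u, v) ≠ d' s(u, w)) ∧
        (∀ u v, G.Adj u v → d' s(u, v) ≠ c' u) ∧ (∀ v ∈ A₀, c' v = c v) ∧
        (∀ e ∈ H.edgeSet, d' e = d e) ∧ (∀ v, c' v < k) ∧ ∀ e ∈ G.edgeSet, d' e < k := by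
  classical
  obtain ⟨ε₀, hε₀, n₀, hcore⟩ := coreG (δ / 8) (by linarith) (by linarith)
  obtain ⟨K, hKd⟩ : ∃ K : ℕ, K = ⌈8 / δ⌉₊ := ⟨_, rfl⟩
  have hK8 : 8 ≤ K * δ := by
    have h3 : 8 / δ ≤ (K : ℝ) := by
      rw [hKd]
      exact Nat.le_ceil _
    rwa [div_le_iff₀ hδ0] at h3
  have hK0 : (0 : ℝ) ≤ K := Nat.cast_nonneg _
  refine ⟨min (ε₀ / 8) (δ / 16), lt_min (by positivity) (by positivity),
    max n₀ (max (K + 64) (max ⌈64 / δ⌉₊ ⌈4 * (K + 10) / ε₀⌉₊)), ?_⟩
  intro V _ _ G H _ _ D k W₀ A₀ z c d hn hdeg hDV hDk hz hW₀ hW₀d hHG hA₀ hmat hd1 hA2 hc1 hc2 hck hdk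
  obtain ⟨ε, hεd⟩ : ∃ ε : ℝ, ε = min (ε₀ / 8) (δ / 16) := ⟨_, rfl⟩
  obtain ⟨n, hnd⟩ : ∃ n : ℝ, n = (Fintype.card V : ℝ) := ⟨_, rfl⟩
  have hε1 : ε ≤ ε₀ / 8 := by
    rw [hεd]
    exact min_le_left _ _
  have hε2 : ε ≤ δ / 16 := by
    rw [hεd]
    exact min_le_right _ _
  rw [← hεd] at hz
  rw [← hnd] at hz hW₀ hW₀d
  have hn1 : n₀ ≤ Fintype.card V := (le_max_left _ _).trans hn
  have hn2 : K + 64 ≤ Fintype.card V := (le_max_left _ _).trans ((le_max_right _ _).trans hn)
  have hn3 : ⌈64 / δ⌉₊ ≤ Fintype.card V :=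
    (le_max_left _ _).trans ((le_max_right _ _).trans ((le_max_right _ _).trans hn))
  have hn4 : ⌈4 * (K + 10) / ε₀⌉₊ ≤ Fintype.card V :=
    (le_max_right _ _).trans ((le_max_right _ _).trans ((le_max_right _ _).trans hn))
  have hnK : (K : ℝ) + 64 ≤ n := by
    rw [hnd]
    exact_mod_cast hn2
  have hnδ : 64 ≤ δ * n := by
    have h3 : 64 / δ ≤ n := by
      rw [hnd]
      exact (Nat.le_ceil _).trans (by exact_mod_cast hn3)
    rw [div_le_iff₀ hδ0] at h3
    linarith
  have hnε : 4 * (K + 10) ≤ ε₀ * n := by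
    have h3 : 4 * ((K : ℝ) + 10) / ε₀ ≤ n := by
      rw [hnd]
      exact (Nat.le_ceil _).trans (by exact_mod_cast hn4)
    rw [div_le_iff₀ hε₀] at h3
    linarith
  have hn0 : 0 < n := by linarith
  have hεn : ε * n ≤ δ / 16 * n := mul_le_mul_of_nonneg_right hε2 hn0.le
  have hεn' : ε * n ≤ ε₀ / 8 * n := mul_le_mul_of_nonneg_right hε1 hn0.le
  have hδn : δ * n ≤ 1 * n := mul_le_mul_of_nonneg_right hδ1 hn0.le
  have hDnR : (D : ℝ) ≤ n := by
    rw [hnd]
    exact_mod_cast hDV
  have hzD : (1 - ε) * n ≤ D := by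
    refine hz.trans ?_
    exact_mod_cast hdeg z
  have hAc : (A₀.card : ℝ) ≤ ε * n + 2 := by
    have h3 := pre_card G A₀ hA2 z
    have h4 : (A₀.card : ℝ) + ((univ.filter (fun w => G.Adj z w)).card : ℝ) ≤ n + 2 := by
      rw [hnd]
      exact_mod_cast h3
    linarith
  obtain ⟨r, hrd⟩ : ∃ r : ℕ, r = ⌈δ / 8 * n⌉₊ := ⟨_, rfl⟩
  have hr1 : δ / 8 * n ≤ r := by
    rw [hrd]
    exact Nat.le_ceil _
  have hr2 : (r : ℝ) < δ / 8 * n + 1 := by
    rw [hrd]
    exact Nat.ceil_lt_add_one (by positivity)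
  obtain ⟨f, f1, f2, f3, f4, f5⟩ := tcv G A₀ W₀ c (D + 1) r K (fun u hu v hv huv =>
    hc1 u v (hd1 u hu v hv huv)) hA2 (by
      have h3 : (univ \ (W₀ ∪ A₀)).card + W₀.card ≤ Fintype.card V := by
        have h4 := card_sdiff_add_card_eq_card (subset_univ (W₀ ∪ A₀))
        have h5 : W₀.card ≤ (W₀ ∪ A₀).card := card_le_card subset_union_left
        rw [card_univ] at h4
        omega
      have h4 : ((univ \ (W₀ ∪ A₀)).card : ℝ) + W₀.card ≤ n := by
        rw [hnd]
        exact_mod_cast h3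
      have h5 : ((univ \ (W₀ ∪ A₀)).card : ℝ) + 2 < D + 1 := by linarith
      exact_mod_cast h5) (by
      intro w hw
      have h3 := hW₀d w hw
      have h5 : ((univ.filter (fun v => G.Adj w v)).card : ℝ) * K + Fintype.card V + r * K <
          (D + 1) * K := by
        rw [← hnd]
        have h6 : ((univ.filter (fun v => G.Adj w v)).card : ℝ) * K ≤ (1 - δ) * n * K :=
          mul_le_mul_of_nonneg_right h3 hK0
        have h7 : ((1 - δ / 16) * n + 1) * K ≤ ((D : ℝ) + 1) * K := by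
          apply mul_le_mul_of_nonneg_right _ hK0
          linarith
        have h8 : 8 * n ≤ (K * δ) * n := mul_le_mul_of_nonneg_right hK8 hn0.le
        have h9 : (r : ℝ) * K ≤ (δ / 8 * n + 1) * K := mul_le_mul_of_nonneg_right hr2.le hK0
        linarith
      exact_mod_cast h5)
  -- the edges outside `H`
  let G' : SimpleGraph V :=
    { Adj := fun a b => G.Adj a b ∧ ¬ H.Adj a b
      symm := ⟨fun _ _ h => ⟨h.1.symm, fun h' => h.2 h'.symm⟩⟩
      loopless := ⟨fun a h => G.loopless.irrefl a h.1⟩ }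
  obtain ⟨B, hB⟩ : ∃ B : V → Finset (Fin (D + 1)), B = fun v =>
    univ.filter (fun x => x.val = f v ∨ ∃ w, H.Adj v w ∧ x.val = d s(v, w)) := ⟨_, rfl⟩
  obtain ⟨P, hP⟩ : ∃ P : V → Finset (Fin (D + 1)), P = fun v => univ \ B v := ⟨_, rfl⟩
  have memP : ∀ v x, x ∈ P v ↔ x.val ≠ f v ∧ ∀ w, H.Adj v w → x.val ≠ d s(v, w) := by
    intro v x
    rw [hP, hB]
    simp only [mem_sdiff, mem_filter, mem_univ, true_and, not_or, not_exists, not_and]
  have hval : ∀ m : ℕ, (univ.filter (fun x : Fin (D + 1) => x.val = m)).card ≤ 1 := by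
    intro m
    rw [card_le_one]
    intro a ha b hb
    rw [mem_filter] at ha hb
    exact Fin.ext (ha.2.trans hb.2.symm)
  have hBc : ∀ v, v ∉ A₀ → (B v).card ≤ 1 := by
    intro v hv
    refine le_trans (card_le_card ?_) (hval (f v))
    intro x hx
    rw [hB, mem_filter] at hx
    rw [mem_filter]
    refine ⟨mem_univ _, ?_⟩
    rcases hx.2 with h | ⟨w, hw, -⟩
    · exact h
    · exact absurd ((hA₀ v).2 ⟨w, hw⟩) hv
  have hBc' : ∀ v, (B v).card ≤ 2 := by
    intro v
    by_cases hv : v ∈ A₀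
    · obtain ⟨w, hw⟩ := (hA₀ v).1 hv
      have h3 : B v ⊆ univ.filter (fun x : Fin (D + 1) => x.val = f v) ∪
          univ.filter (fun x : Fin (D + 1) => x.val = d s(v, w)) := by
        intro x hx
        rw [hB, mem_filter] at hx
        rw [mem_union, mem_filter, mem_filter]
        rcases hx.2 with h | ⟨w', hw', h⟩
        · exact Or.inl ⟨mem_univ _, h⟩
        · rw [hmat v w' w hw' hw] at h
          exact Or.inr ⟨mem_univ _, h⟩
      have h4 := (card_le_card h3).trans (card_union_le _ _)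
      have h5 := hval (f v)
      have h6 := hval (d s(v, w))
      omega
    · have := hBc v hv
      omega
  have hPB : ∀ v, (P v).card + (B v).card = D + 1 := by
    intro v
    have h3 := card_sdiff_add_card_eq_card (subset_univ (B v))
    rw [card_univ, Fintype.card_fin] at h3
    rw [hP]
    exact h3
  obtain ⟨e, he⟩ : ∃ e : ℕ, e = K + 3 + A₀.card + (Fintype.card V - D) := ⟨_, rfl⟩
  obtain ⟨χ, hχ1, hχ2⟩ := hcore V (Fin (D + 1)) G' P (W₀ \ A₀)
    (univ.filter (fun x => x.val < r)) e hn1 (by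
      rw [he]
      have h3 : ((Fintype.card V - D : ℕ) : ℝ) = n - D := by
        rw [Nat.cast_sub hDV, hnd]
      rw [Nat.cast_add, h3]
      push_cast
      rw [← hnd]
      linarith) (by
      intro x
      rw [he]
      have h3 : univ.filter (fun u => x ∉ P u) ⊆
          univ.filter (fun v => v ∉ A₀ ∧ f v = x.val) ∪ A₀ := by
        intro v hv
        rw [mem_filter] at hv
        rw [mem_union, mem_filter]
        by_cases hvA : v ∈ A₀
        · exact Or.inr hvA
        · refine Or.inl ⟨mem_univ _, hvA, ?_⟩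
          by_contra hne
          apply hv.2
          rw [memP]
          refine ⟨fun h => hne h.symm, fun w hw _ => hvA ((hA₀ v).2 ⟨w, hw⟩)⟩
      have h4 := (card_le_card h3).trans (card_union_le _ _)
      have h5 := f5 x.val
      omega) (by
      intro u
      have h3 := hPB u
      by_cases hu : u ∈ A₀
      · obtain ⟨w, hw⟩ := (hA₀ u).1 hu
        have h4 := hBc' u
        have h5 : (univ.filter (fun v => G'.Adj u v)).card <
            (univ.filter (fun v => G.Adj u v)).card := by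
          apply card_lt_card
          rw [ssubset_iff_of_subset (fun x hx => by
            rw [mem_filter] at hx ⊢
            exact ⟨hx.1, hx.2.1⟩)]
          refine ⟨w, mem_filter.2 ⟨mem_univ _, hHG hw⟩, ?_⟩
          rw [mem_filter]
          exact fun h => h.2.2 hw
        have h6 := hdeg u
        omega
      · have h4 := hBc u hu
        have h5 : (univ.filter (fun v => G'.Adj u v)).card ≤
            (univ.filter (fun v => G.Adj u v)).card := by
          apply card_le_card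
          intro x hx
          rw [mem_filter] at hx ⊢
          exact ⟨hx.1, hx.2.1⟩
        have h6 := hdeg u
        omega) (by
      intro u
      rw [Fintype.card_fin]
      have h3 := hPB u
      have h4 := hBc' u
      omega) (by
      rw [Fintype.card_fin]
      omega) (by
      rw [Fintype.card_fin]
      omega) (by
      rw [← hnd]
      have h3 : W₀.card ≤ (W₀ \ A₀).card + A₀.card := by
        have := le_card_sdiff A₀ W₀
        omega
      have h4 : (W₀.card : ℝ) ≤ (W₀ \ A₀).card + A₀.card := by exact_mod_cast h3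
      linarith) (by
      intro w hw
      rw [← hnd]
      have h3 := hW₀d w (mem_sdiff.1 hw).1
      have h5 : (univ.filter (fun v => G'.Adj w v)).card ≤
          (univ.filter (fun v => G.Adj w v)).card := by
        apply card_le_card
        intro x hx
        rw [mem_filter] at hx ⊢
        exact ⟨hx.1, hx.2.1⟩
      have h6 : ((univ.filter (fun v => G'.Adj w v)).card : ℝ) ≤
          ((univ.filter (fun v => G.Adj w v)).card : ℝ) := by exact_mod_cast h5
      linarith) (by
      rw [← hnd]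
      have hrN : r ≤ D := by
        have : (r : ℝ) ≤ D := by linarith
        exact_mod_cast this
      have h3 : r ≤ (univ.filter (fun x : Fin (D + 1) => x.val < r)).card := by
        refine le_trans (le_of_eq (card_range r).symm) ?_
        refine card_le_card_of_injOn (fun x => if h : x < D + 1 then (⟨x, h⟩ : Fin (D + 1)) else 0)
          ?_ ?_
        · intro x hx
          rw [mem_coe, mem_range] at hx
          simp only [dif_pos (show x < D + 1 by omega)]
          rw [mem_coe, mem_filter]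
          exact ⟨mem_univ _, hx⟩
        · intro x hx x' hx' h
          rw [mem_coe, mem_range] at hx hx'
          simp only [dif_pos (show x < D + 1 by omega), dif_pos (show x' < D + 1 by omega),
            Fin.mk.injEq] at h
          exact h
      have h4 : (r : ℝ) ≤ ((univ.filter (fun x : Fin (D + 1) => x.val < r)).card : ℝ) := by
        exact_mod_cast h3
      linarith) (by
      intro w hw x hx
      rw [mem_filter] at hx
      rw [mem_sdiff] at hw
      rw [memP]
      have h3 := f3 w hw.1 hw.2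
      refine ⟨by omega, fun w' hw' _ => hw.2 ((hA₀ w).2 ⟨w', hw'⟩)⟩)
  have hχP : ∀ u v, G.Adj u v → ¬ H.Adj u v → (χ s(u, v)).val ≠ f u ∧
      ∀ w, H.Adj u w → (χ s(u, v)).val ≠ d s(u, w) := by
    intro u v huv hH
    exact (memP u _).1 (hχ1 u v ⟨huv, hH⟩)
  obtain ⟨d', hd'⟩ : ∃ d' : Sym2 V → ℕ, d' = fun e => if e ∈ H.edgeSet then d e else (χ e).val :=
    ⟨_, rfl⟩
  have hd'1 : ∀ u v, H.Adj u v → d' s(u, v) = d s(u, v) := by
    intro u v huv
    rw [hd']
    exact if_pos huv
  have hd'2 : ∀ u v, ¬ H.Adj u v → d' s(u, v) = (χ s(u, v)).val := by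
    intro u v huv
    rw [hd']
    exact if_neg huv
  refine ⟨f, d', f4, ?_, ?_, f1, ?_, ?_, ?_⟩
  · intro u v w huv huw hvw
    by_cases h1 : H.Adj u v
    · by_cases h2 : H.Adj u w
      · exact absurd (hmat u v w h1 h2) hvw
      · rw [hd'1 u v h1, hd'2 u w h2]
        exact fun h => (hχP u w huw h2).2 v h1 h.symm
    · by_cases h2 : H.Adj u w
      · rw [hd'2 u v h1, hd'1 u w h2]
        exact (hχP u v huv h1).2 w h2
      · rw [hd'2 u v h1, hd'2 u w h2]
        exact fun h => hχ2 u v w ⟨huv, h1⟩ ⟨huw, h2⟩ hvw (Fin.ext h)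
  · intro u v huv
    by_cases h1 : H.Adj u v
    · rw [hd'1 u v h1, f1 u ((hA₀ u).2 ⟨v, h1⟩)]
      exact hc2 u v h1
    · rw [hd'2 u v h1]
      exact (hχP u v huv h1).1
  · intro e he
    rw [hd']
    exact if_pos he
  · intro v
    by_cases hv : v ∈ A₀
    · rw [f1 v hv]
      exact hck v hv
    · exact lt_of_lt_of_le (f2 v hv) hDk
  · intro e _
    rw [hd']
    by_cases he : e ∈ H.edgeSet
    · simp only [if_pos he]
      exact hdk e he
    · simp only [if_neg he]
      exact lt_of_lt_of_le (χ e).isLt hDk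

end Pool.Agent.Run7.h320.D
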