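import Pool.Agent.Run7.h320.D.Num2

/-!
# The parameters of the main phase
-/

set_option autoImplicit false

namespace Pool.Agent.Run7.h320.D

/-- simple consequences -/
theorem lkn1 {δ τ n N e ω ρ κ s z z' : ℝ} (hδ0 : 0 < δ) (hδ1 : δ ≤ 1) (hτ : 64 ≤ τ)
    (hn : 100000 ≤ n) (he0 : 0 ≤ e) (he : e ≤ n / 10000) (hN : n ≤ N + e)
    (hω : ω * (4 * τ) ≤ δ * n) (hz : z + 2 * τ * ω = n) (hρ : 16 * (τ * ρ) ≤ δ * n)
    (hκ : κ + τ * ρ = N) (hs : τ * s ≤ κ + τ) (hs1 : 1 ≤ s) (hz1 : τ * z' ≤ z)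
    (hz0 : 0 ≤ z') : n / 2 ≤ κ ∧ n / 4 ≤ κ - 2 * s ∧ n / 2 ≤ z ∧ n / 4 ≤ z - z' ∧
      τ * ρ ≤ z - z' ∧ (1 - δ / 16) * n - e ≤ κ := by
  have h1 : δ * n ≤ n := by nlinarith
  have h2 : n / 2 ≤ κ := by linarith
  have h3 : 64 * (s - 1) ≤ τ * (s - 1) := mul_le_mul_of_nonneg_right hτ (by linarith)
  have h4 : n / 2 ≤ z := by linarith
  have h5 : 64 * z' ≤ τ * z' := mul_le_mul_of_nonneg_right hτ hz0
  refine ⟨h2, by linarith, h4, by linarith, by linarith, by linarith⟩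

theorem lkn2 {δ τ κ s : ℝ} (hδ0 : 0 < δ) (hτδ : 64 ≤ τ * δ) (hs : τ * s ≤ κ + τ) (hs1 : 1 ≤ s) :
    2 * s ≤ δ / 32 * κ + 2 := by
  have h3 : δ * (τ * s) ≤ δ * (κ + τ) := mul_le_mul_of_nonneg_left hs hδ0.le
  have h4 : 64 * (s - 1) ≤ (τ * δ) * (s - 1) := mul_le_mul_of_nonneg_right hτδ (by linarith)
  linarith

/-- the load at the vertices of small degree -/
theorem lkn3 {δ γ n κ s e x : ℝ} (hδ0 : 0 < δ) (hδ1 : δ ≤ 1) (hγ : γ ^ 2 ≤ δ / 1000)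
    (hn : 100000 ≤ γ ^ 2 * n) (hx : x ≤ (1 - δ) * n)
    (he : e ≤ γ ^ 2 / 10000 * n) (h1 : (1 - δ / 16) * n - e ≤ κ) (hκN : κ ≤ 2 * n)
    (h2 : 2 * s ≤ δ / 32 * κ + 2) (h3 : 0 < κ - 2 * s) :
    x * ((1 + γ ^ 2 / 400) / (κ - 2 * s)) ≤ 1 := by
  have hn0 : 0 < n := by
    by_contra hcon
    push Not at hcon
    nlinarith [mul_nonneg (sq_nonneg γ) (by linarith : (0 : ℝ) ≤ -n)]
  rw [mul_div_assoc', div_le_one h3]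
  have h4 : x * (1 + γ ^ 2 / 400) ≤ (1 - δ) * n * (1 + γ ^ 2 / 400) :=
    mul_le_mul_of_nonneg_right hx (by positivity)
  have h5 : γ ^ 2 * n ≤ δ / 1000 * n := mul_le_mul_of_nonneg_right hγ hn0.le
  have h6 : (1 - δ) * n * (1 + γ ^ 2 / 400) ≤ (1 - δ) * n + γ ^ 2 * n / 400 := by
    have : 0 ≤ δ * (γ ^ 2 * n) := by positivity
    linarith
  have h7 : δ * κ ≤ δ * (2 * n) := mul_le_mul_of_nonneg_left hκN hδ0.le
  linarith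

/-- the final inequality for the ordinary colours -/
theorem lkn4 {δ τ γ n N e ω g ρ h κ z : ℝ} (hγ0 : 0 < γ)
    (hn : 100000 ≤ γ ^ 2 * n) (he : e ≤ γ ^ 2 / 10000 * n) (hγ1 : γ ≤ 1 / 1000)
    (hN : n ≤ N + e) (hz : z + 2 * τ * ω = n) (hρh : ρ + h = g * (2 * τ - 1))
    (hκ : κ + τ * ρ = N) (hh : γ ^ 2 / 100 * n ≤ h) (hρ0 : 0 ≤ ρ) (hh0 : 0 ≤ h) :
    (1 + γ ^ 2 / 400) * (z + τ * (ω - g) + 2 + (τ - 1) * (ω - g) + ω) - ρ * (τ - 1) + 1 ≤ κ := by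
  have h3 : z + τ * (ω - g) + 2 + (τ - 1) * (ω - g) + ω = n - ρ - h + 2 := by linarith
  rw [h3]
  have h4 : 0 ≤ γ ^ 2 * ρ := by positivity
  have h5 : 0 ≤ γ ^ 2 * h := by positivity
  have h6 : γ ^ 2 ≤ 1 := by nlinarith
  linarith

end Pool.Agent.Run7.h320.D
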