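import Pool.Agent.Run7.h320.D.Load
import Pool.Agent.Run7.h320.D.Num3

/-!
# The main phase with the chosen weights
-/

set_option autoImplicit false
set_option linter.unusedSectionVars false

namespace Pool.Agent.Run7.h320.D

open Finset

theorem at_le_card {V : Type} [Fintype V] [DecidableEq V] {F : Finset (Finset V)}
    (h2 : ∀ e ∈ F, e.card = 2) (v : V) : (at' F v).card ≤ Fintype.card V := by
  have h3 : at' F v ⊆ (univ : Finset V).image (fun x => ({v, x} : Finset V)) := by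
    intro f hf
    rw [mem_at] at hf
    obtain ⟨x, x', hxx, rfl⟩ := card_eq_two.1 (h2 f hf.1)
    have hv := hf.2
    rw [mem_insert, mem_singleton] at hv
    rcases hv with rfl | rfl
    · exact mem_image.2 ⟨x', mem_univ _, rfl⟩
    · exact mem_image.2 ⟨x, mem_univ _, pair_comm _ _⟩
  exact (card_le_card h3).trans (card_image_le.trans (le_of_eq card_univ))

theorem lkapp (γ : ℝ) (hγ0 : 0 < γ) (hγ1 : γ ≤ 1 / 1000) : ∃ D₀ : ℕ,
    ∀ (V C : Type) [Fintype V] [DecidableEq V] [Fintype C] [DecidableEq C] [Nonempty C] (τ : ℕ)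
      (F : Finset (Finset V)) (L : Finset V → Finset C) (Z : Finset V)
      (cl : V → Fin τ ⊕ Fin τ) (kc : C → Fin τ ⊕ Fin τ) (b : V → Fin τ) (ρ s κ e z' ω g : ℕ)
      (n : ℝ), D₀ ≤ Fintype.card V → n = Fintype.card V → 0 < n →
      (∀ f ∈ F, f.card = 2) → Fintype.card C ≤ 2 * Fintype.card V →
      (∀ i : Fin τ, (univ.filter (fun c => kc c = Sum.inr i)).card = ρ) →
      (∀ j : Fin τ, (univ.filter (fun c => kc c = Sum.inl j)).card ≤ s) →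
      (univ.filter (fun c => ¬ ∃ i : Fin τ, kc c = Sum.inr i)).card = κ →
      (∀ f ∈ F, Fintype.card C ≤ (L f).card + e) →
      (∀ i, z' ≤ (Z.filter (fun u => b u = i)).card) → g ≤ ω →
      (∀ u ∈ Z, ∀ i, (univ.filter (fun x => x ∉ Z ∧ cl x = i ∧ ({u, x} : Finset V) ∈ F)).card
        ≤ if i = Sum.inr (b u) then ω else ω - g) →
      (64 : ℝ) ≤ τ → n / 2 ≤ (κ : ℝ) → n / 4 ≤ (κ : ℝ) - 2 * s → n / 4 ≤ (Z.card : ℝ) - z' →
      (τ : ℝ) * ρ ≤ Z.card - z' → (e : ℝ) ≤ γ ^ 2 / 10000 * n → (Z.card : ℝ) ≤ τ * z' + τ →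
      (τ : ℝ) * s ≤ κ + τ → (τ : ℝ) * (ω - g) ≤ κ - 2 →
      (1 + γ ^ 2 / 400) * ((Z.card : ℝ) + τ * (ω - g) + 2 + (τ - 1) * (ω - g) + ω) -
        ρ * (τ - 1) + 1 ≤ κ →
      (∀ w, w ∉ Z → ((at' F w).card : ℝ) * ((1 + γ ^ 2 / 400) / (κ - 2 * s)) ≤ 1) →
      ∃ φ, Pr F (L1 Z cl kc b L) φ := by
  classical
  obtain ⟨D₀, hD₀⟩ := lkp (γ ^ 2 / 800) (by positivity) (by nlinarith) 16 (by norm_num)
  refine ⟨D₀, ?_⟩
  intro V C _ _ _ _ _ τ F L Z cl kc b ρ s κ e z' ω g n hn1 hnd hn0 h2 hCV hρ hs hκ hLN hz hg hcls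
    hτ64 hκ0 hκs hzz hτρ4 he hzτ hsR hωκ hfin hw
  have hzzpos : 0 < (Z.card : ℝ) - z' := by linarith
  have hκpos : (0 : ℝ) < κ := by linarith
  have hκ2s : 0 < (κ : ℝ) - 2 * s := by linarith
  have hs0 : (0 : ℝ) ≤ s := Nat.cast_nonneg _
  have hκ1s : 0 < (κ : ℝ) - s := by linarith
  have he1 : (0 : ℝ) ≤ γ ^ 2 / 400 := by positivity
  have hγ2 : γ ^ 2 ≤ 1 := by nlinarith
  have hρ0 : (0 : ℝ) ≤ ρ := Nat.cast_nonneg _
  obtain ⟨ap, hap⟩ : ∃ ap : ℝ, ap = 1 / ((Z.card : ℝ) - z') := ⟨_, rfl⟩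
  have hap0 : 0 ≤ ap := by rw [hap]; positivity
  have hap4 : ap ≤ 4 / n := by
    rw [hap, div_le_div_iff₀ hzzpos hn0]
    linarith
  have hap1 : (τ : ℝ) * ρ * ap ≤ 1 := by
    rw [hap, mul_one_div, div_le_one hzzpos]
    exact hτρ4
  have hρap : 0 ≤ (ρ : ℝ) * ap := by positivity
  have hκ4 : (1 + γ ^ 2 / 400) / κ ≤ 4 / n := by
    rw [div_le_div_iff₀ hκpos hn0]
    nlinarith
  have herr : (e : ℝ) * (8 / n) ≤ γ ^ 2 / 800 := by
    rw [mul_div_assoc', div_le_iff₀ hn0]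
    have : 0 ≤ γ ^ 2 * n := by positivity
    linarith
  have h48 : 4 / n ≤ 8 / n := div_le_div_of_nonneg_right (by norm_num) hn0.le
  have hKD : (8 : ℝ) / n ≤ 16 / ((2 * Fintype.card V : ℕ) : ℝ) := by
    push_cast
    rw [← hnd, div_le_div_iff₀ hn0 (by linarith)]
    linarith
  have hcm : ((Fintype.card (Fin τ) : ℕ) : ℝ) = τ := by rw [Fintype.card_fin]
  have q1 : (0 : ℝ) ≤ (1 + γ ^ 2 / 400 - ((τ : ℝ) - 1) * ρ * ap) / κ := by
    apply div_nonneg _ hκpos.le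
    linarith
  have q2 : (1 + γ ^ 2 / 400 - ((τ : ℝ) - 1) * ρ * ap) / κ ≤
      (1 + γ ^ 2 / 400 - ((τ : ℝ) - 2) * ρ * ap) / κ := by
    apply div_le_div_of_nonneg_right _ hκpos.le
    linarith
  have q3 : (1 + γ ^ 2 / 400 - ((τ : ℝ) - 2) * ρ * ap) / κ ≤ 8 / n := by
    refine le_trans ?_ (hκ4.trans h48)
    apply div_le_div_of_nonneg_right _ hκpos.le
    have : 0 ≤ ((τ : ℝ) - 2) * (ρ * ap) := mul_nonneg (by linarith) hρap
    linarith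
  have q4 : (1 + γ ^ 2 / 400) / κ ≤ (1 + γ ^ 2 / 400) / (κ - 2 * s) :=
    div_le_div_of_nonneg_left (by linarith) hκ2s (by linarith)
  have q5 : (1 + γ ^ 2 / 400) / ((κ : ℝ) - s) ≤ (1 + γ ^ 2 / 400) / (κ - 2 * s) :=
    div_le_div_of_nonneg_left (by linarith) hκ2s (by linarith)
  have q6 : (1 + γ ^ 2 / 400) / ((κ : ℝ) - 2 * s) ≤ 8 / n := by
    rw [div_le_div_iff₀ hκ2s hn0]
    have : γ ^ 2 * n ≤ 1 * n := mul_le_mul_of_nonneg_right hγ2 hn0.le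
    linarith
  have r1 : (κ : ℝ) * ((1 + γ ^ 2 / 400 - ((τ : ℝ) - 1) * ρ * ap) / κ) =
      1 + γ ^ 2 / 400 - ((τ : ℝ) - 1) * ρ * ap := mul_div_cancel₀ _ hκpos.ne'
  have r2 : (κ : ℝ) * ((1 + γ ^ 2 / 400 - ((τ : ℝ) - 2) * ρ * ap) / κ) =
      1 + γ ^ 2 / 400 - ((τ : ℝ) - 2) * ρ * ap := mul_div_cancel₀ _ hκpos.ne'
  have r3 : (κ : ℝ) * ((1 + γ ^ 2 / 400) / κ) = 1 + γ ^ 2 / 400 := mul_div_cancel₀ _ hκpos.ne'
  have r4 : ((κ : ℝ) - s) * ((1 + γ ^ 2 / 400) / (κ - s)) = 1 + γ ^ 2 / 400 :=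
    mul_div_cancel₀ _ hκ1s.ne'
  have r5 : ((κ : ℝ) - 2 * s) * ((1 + γ ^ 2 / 400) / (κ - 2 * s)) = 1 + γ ^ 2 / 400 :=
    mul_div_cancel₀ _ hκ2s.ne'
  have l1 : ((Z.card : ℝ) - z') * ap ≤ 1 := by
    rw [hap, mul_one_div, div_self hzzpos.ne']
  have l2 := num_l2 hκpos hκ1s hsR (by linarith : (2 : ℝ) ≤ τ) hzτ hzzpos hτρ4 hρ0
    (by
      have : (g : ℝ) ≤ ω := by exact_mod_cast hg
      linarith) hωκ he1 hfin
  rw [← hap] at l2
  exact hD₀ (2 * Fintype.card V) (by omega) V C (Fin τ) (Fin τ) F L Z cl kc b ap _ _ _ _ _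
    (8 / n) ρ s κ e z' ω g h2 (fun v => by
      have := at_le_card h2 v
      omega) hCV hρ hs (by convert hκ) hLN hap0 q1 (by positivity) (div_nonneg (by linarith) hκ1s.le) q2 q4 q5
    (hap4.trans h48) q3 q6 hKD (by rw [r1, hcm]; linarith) (by rw [r2, hcm]; linarith)
    (by rw [r3]; linarith) (by rw [r4]; linarith) (by rw [r5]; linarith) hz hg hcls l1
    (by rw [hcm]; exact l2) hw

end Pool.Agent.Run7.h320.D
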