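import Pool.Agent.Run7.h320.D.Core

/-!
# Classes of vertices and colours
-/

set_option autoImplicit false
set_option linter.unusedSectionVars false

namespace Pool.Agent.Run7.h320.D

open Finset

/-- the classes of the colours -/
theorem kcls {C : Type} [Fintype C] [DecidableEq C] (R₀ : Finset C) (τ ρ : ℕ) (hτ : 0 < τ)
    (h : τ * ρ ≤ R₀.card) : ∃ (kc : C → Fin τ ⊕ Fin τ) (κ : ℕ),
      (∀ c, (∃ i : Fin τ, kc c = Sum.inr i) → c ∈ R₀) ∧
      (∀ i : Fin τ, (univ.filter (fun c => kc c = Sum.inr i)).card = ρ) ∧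
      (∀ j : Fin τ, (univ.filter (fun c => kc c = Sum.inl j)).card ≤ κ / τ + 1) ∧
      (univ.filter (fun c => ¬ ∃ i : Fin τ, kc c = Sum.inr i)).card = κ ∧
      κ + τ * ρ = Fintype.card C := by
  classical
  have : NeZero τ := ⟨hτ.ne'⟩
  obtain ⟨R, hRR, cr, hRc, hcr⟩ := blk (I := Fin τ) R₀ ρ (by rw [Fintype.card_fin]; exact h)
  rw [Fintype.card_fin] at hRc
  obtain ⟨cn, hcn⟩ := bal (univ \ R) τ hτ
  obtain ⟨κ, hκ⟩ : ∃ κ : ℕ, κ = (univ \ R : Finset C).card := ⟨_, rfl⟩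
  obtain ⟨kc, hkc⟩ : ∃ kc : C → Fin τ ⊕ Fin τ, kc = fun c =>
    if c ∈ R then Sum.inr (cr c) else Sum.inl (cn c) := ⟨_, rfl⟩
  have hkR : ∀ c, (∃ i, kc c = Sum.inr i) ↔ c ∈ R := by
    intro c
    rw [hkc]
    by_cases hc : c ∈ R
    · simp only [if_pos hc]
      exact ⟨fun _ => hc, fun _ => ⟨_, rfl⟩⟩
    · simp only [if_neg hc]
      constructor
      · rintro ⟨i, hi⟩
        exact absurd hi (by simp)
      · exact fun h => absurd h hc
  refine ⟨kc, κ, fun c hc => hRR ((hkR c).1 hc), ?_, ?_, ?_, ?_⟩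
  · intro i
    rw [← hcr i]
    congr 1
    ext c
    rw [mem_filter, mem_filter, hkc]
    by_cases hc : c ∈ R
    · simp only [if_pos hc]
      constructor
      · rintro ⟨_, h3⟩
        exact ⟨hc, Sum.inr_injective h3⟩
      · rintro ⟨_, h3⟩
        exact ⟨mem_univ _, by rw [h3]⟩
    · simp only [if_neg hc]
      constructor
      · rintro ⟨_, h3⟩
        exact absurd h3 (by simp)
      · rintro ⟨h3, _⟩
        exact absurd h3 hc
  · intro j
    rw [hκ]
    refine le_trans (card_le_card ?_) (hcn j).2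
    intro c hc
    rw [mem_filter, hkc] at hc
    rw [mem_filter, mem_sdiff]
    by_cases hcR : c ∈ R
    · simp only [if_pos hcR] at hc
      exact absurd hc.2 (by simp)
    · simp only [if_neg hcR] at hc
      exact ⟨⟨mem_univ _, hcR⟩, Sum.inl_injective hc.2⟩
  · rw [hκ]
    congr 1
    ext c
    rw [mem_filter, mem_sdiff, hkR]
  · have := card_sdiff_add_card_eq_card (subset_univ R)
    rw [hκ, ← hRc, this, card_univ]

/-- the classes of the vertices -/
theorem vcls {V : Type} [Fintype V] [DecidableEq V] (W₀ : Finset V) (τ ω : ℕ) (hτ : 0 < τ)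
    (h : 2 * τ * ω ≤ W₀.card) : ∃ (Z : Finset V) (cl : V → Fin τ ⊕ Fin τ) (b : V → Fin τ),
      (∀ x, x ∉ Z → x ∈ W₀) ∧ Z.card + 2 * τ * ω = Fintype.card V ∧
      (∀ i, (univ.filter (fun x => x ∉ Z ∧ cl x = i)).card = ω) ∧
      ∀ i, Z.card / τ ≤ (Z.filter (fun x => b x = i)).card ∧
        (Z.filter (fun x => b x = i)).card ≤ Z.card / τ + 1 := by
  classical
  have : NeZero τ := ⟨hτ.ne'⟩
  have hI : Fintype.card (Fin τ ⊕ Fin τ) = 2 * τ := by
    rw [Fintype.card_sum, Fintype.card_fin]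
    ring
  obtain ⟨W, hWW, cl, hWc, hcl⟩ := blk (I := Fin τ ⊕ Fin τ) W₀ ω (by rw [hI]; exact h)
  rw [hI] at hWc
  obtain ⟨Z, hZ⟩ : ∃ Z : Finset V, Z = univ \ W := ⟨_, rfl⟩
  have hZW : ∀ x, x ∉ Z ↔ x ∈ W := by
    intro x
    rw [hZ, mem_sdiff]
    simp
  obtain ⟨b, hb⟩ := bal Z τ hτ
  refine ⟨Z, cl, b, fun x hx => hWW ((hZW x).1 hx), ?_, ?_, hb⟩
  · have := card_sdiff_add_card_eq_card (subset_univ W)
    rw [hZ, ← hWc, this, card_univ]
  · intro i
    rw [← hcl i]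
    congr 1
    ext x
    rw [mem_filter, mem_filter, hZW]
    simp

end Pool.Agent.Run7.h320.D
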