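import Pool.Agent.Run7.h320.D.LKp

/-!
# The main phase: the loads
-/

set_option autoImplicit false
set_option linter.unusedSectionVars false

namespace Pool.Agent.Run7.h320.D

open Finset

section
variable {V C T M : Type} [Fintype V] [DecidableEq V] [Fintype C] [DecidableEq C]
  [Fintype T] [DecidableEq T] [Fintype M] [DecidableEq M]

theorem mem_L1 {Z : Finset V} {cl : V → T ⊕ M} {kc : C → T ⊕ M} {b : V → M}
    {L : Finset V → Finset C} {e : Finset V} {c : C} :
    c ∈ L1 Z cl kc b L e ↔ c ∈ L e ∧ ∀ v ∈ e, ¬ fb Z cl kc b v c := by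
  classical
  unfold L1
  simp only [mem_filter]

/-- the load of a colour at a vertex of `Z` -/
theorem loadZ {F : Finset (Finset V)} {Z : Finset V} {cl : V → T ⊕ M} {kc : C → T ⊕ M} {b : V → M}
    {L : Finset V → Finset C} {ap as ac a0 a1 a2 : ℝ} {z' ω g : ℕ} (h2 : ∀ e ∈ F, e.card = 2)
    (p1 : 0 ≤ ap) (p2 : 0 ≤ as) (p4 : 0 ≤ a0) (p5 : 0 ≤ a1) (hac : as ≤ ac)
    (hz : ∀ i, z' ≤ (Z.filter (fun u => b u = i)).card) (hg : g ≤ ω)
    (hcls : ∀ u ∈ Z, ∀ i, (univ.filter (fun x => x ∉ Z ∧ cl x = i ∧ ({u, x} : Finset V) ∈ F)).card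
      ≤ if i = Sum.inr (b u) then ω else ω - g)
    (l1 : ((Z.card : ℝ) - z') * ap ≤ 1)
    (l2 : Z.card * ac - z' * (ac - as) + ((Fintype.card T : ℝ) - 1) * ((ω : ℝ) - g) * a1 +
      (((Fintype.card M : ℝ) - 1) * ((ω : ℝ) - g) + ω) * a0 ≤ 1)
    {u : V} (hu : u ∈ Z) (c : C) :
    ∑ e ∈ (at' F u).filter (fun e => c ∈ L1 Z cl kc b L e), wg Z cl kc b ap as ac a0 a1 a2 e c
      ≤ 1 := by
  classical
  rw [sum_at h2]
  obtain ⟨X, hX⟩ : ∃ X : Finset V, X = univ.filter (fun x => x ≠ u ∧ ({u, x} : Finset V) ∈ F ∧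
    c ∈ L1 Z cl kc b L {u, x}) := ⟨_, rfl⟩
  rw [← hX]
  have hfu : ∀ x ∈ X, ¬ fb Z cl kc b u c ∧ ¬ fb Z cl kc b x c := by
    intro x hx
    rw [hX, mem_filter, mem_L1] at hx
    exact ⟨hx.2.2.2.2 u (by simp), hx.2.2.2.2 x (by simp)⟩
  rcases hkc : kc c with j | k
  · -- ordinary colours
    have hR : ¬ ∃ i : M, kc c = Sum.inr i := by
      rintro ⟨i, hi⟩
      rw [hkc] at hi
      exact absurd hi (by simp)
    obtain ⟨Xs, hXs⟩ : ∃ Xs : Finset V, Xs = (X.filter (fun x => x ∈ Z)).filter
      (fun x => b x = b u) := ⟨_, rfl⟩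
    obtain ⟨Xc, hXc⟩ : ∃ Xc : Finset V, Xc = (X.filter (fun x => x ∈ Z)).filter
      (fun x => ¬ b x = b u) := ⟨_, rfl⟩
    obtain ⟨XW, hXW⟩ : ∃ XW : Finset V, XW = X.filter (fun x => ¬ x ∈ Z) := ⟨_, rfl⟩
    have e1 : ∑ x ∈ X, wg Z cl kc b ap as ac a0 a1 a2 {u, x} c =
        Xs.card * as + Xc.card * ac + ∑ x ∈ XW, wn Z cl b as ac a0 a1 a2 {u, x} := by
      rw [← sum_filter_add_sum_filter_not X (fun x => x ∈ Z),
        ← sum_filter_add_sum_filter_not (X.filter (fun x => x ∈ Z)) (fun x => b x = b u), ← hXs,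
        ← hXc, ← hXW]
      congr 1
      · congr 1
        · rw [sum_congr rfl (g := fun _ => as), sum_const, nsmul_eq_mul]
          intro x hx
          rw [hXs, mem_filter, mem_filter] at hx
          unfold wg wn
          rw [if_neg hR, if_pos, if_pos]
          · intro v hv v' hv'
            rw [mem_insert, mem_singleton] at hv hv'
            rcases hv with rfl | rfl <;> rcases hv' with rfl | rfl
            · rfl
            · exact hx.2.symm
            · exact hx.2
            · rfl
          · intro v hv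
            rw [mem_insert, mem_singleton] at hv
            rcases hv with rfl | rfl
            · exact hu
            · exact hx.1.2
        · rw [sum_congr rfl (g := fun _ => ac), sum_const, nsmul_eq_mul]
          intro x hx
          rw [hXc, mem_filter, mem_filter] at hx
          unfold wg wn
          rw [if_neg hR, if_pos, if_neg]
          · intro h
            exact hx.2 (h x (by simp) u (by simp))
          · intro v hv
            rw [mem_insert, mem_singleton] at hv
            rcases hv with rfl | rfl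
            · exact hu
            · exact hx.1.2
      · apply sum_congr rfl
        intro x _
        unfold wg
        rw [if_neg hR]
    have c1 : Xs.card ≤ (Z.filter (fun v => b v = b u)).card := by
      apply card_le_card
      intro x hx
      rw [hXs, mem_filter, mem_filter] at hx
      exact mem_filter.2 ⟨hx.1.2, hx.2⟩
    have c2 : Xc.card ≤ (Z.filter (fun v => ¬ b v = b u)).card := by
      apply card_le_card
      intro x hx
      rw [hXc, mem_filter, mem_filter] at hx
      exact mem_filter.2 ⟨hx.1.2, hx.2⟩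
    have c3 : (Z.filter (fun v => b v = b u)).card + (Z.filter (fun v => ¬ b v = b u)).card =
        Z.card := card_filter_add_card_filter_not _
    -- the edges to the other vertices
    have e2 : ∑ x ∈ XW, wn Z cl b as ac a0 a1 a2 {u, x} ≤
        ((Fintype.card T : ℝ) - 1) * ((ω : ℝ) - g) * a1 +
        (((Fintype.card M : ℝ) - 1) * ((ω : ℝ) - g) + ω) * a0 := by
      have f1 : ∑ x ∈ XW, wn Z cl b as ac a0 a1 a2 {u, x} =
          ∑ i : T ⊕ M, ∑ x ∈ XW.filter (fun x => cl x = i), wn Z cl b as ac a0 a1 a2 {u, x} :=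
        (sum_fiberwise XW cl _).symm
      rw [f1, Fintype.sum_sum_type]
      have hcard : ∀ i, ((XW.filter (fun x => cl x = i)).card : ℝ) ≤
          (if i = Sum.inr (b u) then (ω : ℝ) else ω - g) := by
        intro i
        have h3 : (XW.filter (fun x => cl x = i)).card ≤
            if i = Sum.inr (b u) then ω else ω - g := by
          refine le_trans (card_le_card ?_) (hcls u hu i)
          intro x hx
          rw [mem_filter, hXW, mem_filter, hX, mem_filter] at hx
          rw [mem_filter]
          exact ⟨mem_univ _, hx.1.2, hx.2, hx.1.1.2.2.1⟩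
        split_ifs with h
        · rw [if_pos h] at h3
          exact_mod_cast h3
        · rw [if_neg h] at h3
          have h4 : ((XW.filter (fun x => cl x = i)).card : ℝ) ≤ ((ω - g : ℕ) : ℝ) := by
            exact_mod_cast h3
          rwa [Nat.cast_sub hg] at h4
      have hT1 : ∀ j' : T, ∑ x ∈ XW.filter (fun x => cl x = Sum.inl j'),
          wn Z cl b as ac a0 a1 a2 {u, x} ≤ if j' = j then 0 else ((ω : ℝ) - g) * a1 := by
        intro j'
        have h3 : ∀ x ∈ XW.filter (fun x => cl x = Sum.inl j'),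
            wn Z cl b as ac a0 a1 a2 {u, x} = a1 := by
          intro x hx
          rw [mem_filter, hXW, mem_filter] at hx
          unfold wn
          rw [if_neg, if_neg, if_neg]
          · intro h
            obtain ⟨i, hi⟩ := h x (by simp) hx.1.2
            rw [hx.2] at hi
            exact absurd hi (by simp)
          · intro h
            exact h u (by simp) hu
          · intro h
            exact hx.1.2 (h x (by simp))
        rw [sum_congr rfl h3, sum_const, nsmul_eq_mul]
        split_ifs with hj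
        · subst hj
          have h4 : XW.filter (fun x => cl x = Sum.inl j') = ∅ := by
            rw [filter_eq_empty_iff]
            intro x hx hcl
            rw [hXW, mem_filter] at hx
            apply (hfu x hx.1).2
            unfold fb
            rw [if_neg hx.2]
            exact Or.inr (hkc.trans hcl.symm)
          rw [h4, card_empty, Nat.cast_zero, zero_mul]
        · have h4 := hcard (Sum.inl j')
          rw [if_neg (by simp)] at h4
          exact mul_le_mul_of_nonneg_right h4 p5
      have hM1 : ∀ k : M, ∑ x ∈ XW.filter (fun x => cl x = Sum.inr k),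
          wn Z cl b as ac a0 a1 a2 {u, x} ≤ (if k = b u then (ω : ℝ) else ω - g) * a0 := by
        intro k
        have h3 : ∀ x ∈ XW.filter (fun x => cl x = Sum.inr k),
            wn Z cl b as ac a0 a1 a2 {u, x} = a0 := by
          intro x hx
          rw [mem_filter, hXW, mem_filter] at hx
          unfold wn
          rw [if_neg, if_neg, if_pos]
          · intro v hv hvZ
            rw [mem_insert, mem_singleton] at hv
            rcases hv with rfl | rfl
            · exact absurd hu hvZ
            · exact ⟨k, hx.2⟩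
          · intro h
            exact h u (by simp) hu
          · intro h
            exact hx.1.2 (h x (by simp))
        rw [sum_congr rfl h3, sum_const, nsmul_eq_mul]
        have h4 := hcard (Sum.inr k)
        have h5 : (if (Sum.inr k : T ⊕ M) = Sum.inr (b u) then (ω : ℝ) else ω - g) =
            if k = b u then (ω : ℝ) else ω - g := by
          by_cases h : k = b u
          · rw [if_pos h, if_pos (by rw [h])]
          · rw [if_neg h, if_neg (fun hh => h (Sum.inr_injective hh))]
        rw [h5] at h4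
        exact mul_le_mul_of_nonneg_right h4 p4
      have g1 : ∑ j' : T, (if j' = j then 0 else ((ω : ℝ) - g) * a1) =
          ((Fintype.card T : ℝ) - 1) * ((ω : ℝ) - g) * a1 := by
        have h6 : ∀ j' : T, (if j' = j then 0 else ((ω : ℝ) - g) * a1) =
            ((ω : ℝ) - g) * a1 - if j' = j then ((ω : ℝ) - g) * a1 else 0 := by
          intro j'
          split_ifs <;> ring
        rw [sum_congr rfl fun j' _ => h6 j', sum_sub_distrib, sum_ite_eq' univ j, sum_const,
          card_univ, nsmul_eq_mul, if_pos (mem_univ _)]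
        ring
      have g2 : ∑ k : M, ((if k = b u then (ω : ℝ) else ω - g) * a0) =
          (((Fintype.card M : ℝ) - 1) * ((ω : ℝ) - g) + ω) * a0 := by
        have h6 : ∀ k : M, (if k = b u then (ω : ℝ) else ω - g) * a0 =
            ((ω : ℝ) - g) * a0 + if k = b u then (g : ℝ) * a0 else 0 := by
          intro k
          split_ifs <;> ring
        rw [sum_congr rfl fun k _ => h6 k, sum_add_distrib, sum_ite_eq' univ (b u), sum_const,
          card_univ, nsmul_eq_mul, if_pos (mem_univ _)]
        ring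
      rw [← g1, ← g2]
      exact add_le_add (sum_le_sum fun j' _ => hT1 j') (sum_le_sum fun k _ => hM1 k)
    rw [e1]
    obtain ⟨β, hβ⟩ : ∃ β : ℕ, β = (Z.filter (fun v => b v = b u)).card := ⟨_, rfl⟩
    have hzβ : (z' : ℝ) ≤ β := by
      rw [hβ]
      exact_mod_cast hz (b u)
    have d1 : (Xs.card : ℝ) ≤ β := by
      rw [hβ]
      exact_mod_cast c1
    have d2 : (Xc.card : ℝ) ≤ (Z.card : ℝ) - β := by
      rw [le_sub_iff_add_le, hβ]
      have : Xc.card + (Z.filter (fun v => b v = b u)).card ≤ Z.card := by omega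
      exact_mod_cast this
    have hac0 : 0 ≤ ac := p2.trans hac
    have d3 : (Xs.card : ℝ) * as ≤ β * as := mul_le_mul_of_nonneg_right d1 p2
    have d4 : (Xc.card : ℝ) * ac ≤ ((Z.card : ℝ) - β) * ac := mul_le_mul_of_nonneg_right d2 hac0
    have d5 : (z' : ℝ) * (ac - as) ≤ β * (ac - as) :=
      mul_le_mul_of_nonneg_right hzβ (by linarith)
    nlinarith
  · -- reserved colours
    by_cases hkb : k = b u
    · have h3 : X = ∅ := by
        rw [eq_empty_iff_forall_notMem]
        intro x hx
        apply (hfu x hx).1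
        unfold fb
        rw [if_pos hu, hkc, hkb]
      rw [h3, sum_empty]
      exact zero_le_one
    · have h3 : X ⊆ Z.filter (fun v => ¬ b v = k) := by
        intro x hx
        have h4 := (hfu x hx).2
        unfold fb at h4
        split_ifs at h4 with hxZ
        · rw [mem_filter]
          refine ⟨hxZ, ?_⟩
          rintro rfl
          exact h4 hkc
        · exact absurd (Or.inl ⟨k, hkc⟩) h4
      have h4 : ∑ x ∈ X, wg Z cl kc b ap as ac a0 a1 a2 {u, x} c = X.card * ap := by
        rw [sum_congr rfl (g := fun _ => ap), sum_const, nsmul_eq_mul]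
        intro x _
        unfold wg
        rw [if_pos ⟨k, hkc⟩]
      rw [h4]
      have h5 : (Z.filter (fun v => b v = k)).card + (Z.filter (fun v => ¬ b v = k)).card =
        Z.card := card_filter_add_card_filter_not _
      have h6 := card_le_card h3
      have h7 := hz k
      have h8 : (X.card : ℝ) ≤ (Z.card : ℝ) - z' := by
        rw [le_sub_iff_add_le]
        have : X.card + z' ≤ Z.card := by omega
        exact_mod_cast this
      exact (mul_le_mul_of_nonneg_right h8 p1).trans l1

/-- the load of a colour at the other vertices -/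
theorem loadW {F : Finset (Finset V)} {Z : Finset V} {cl : V → T ⊕ M} {kc : C → T ⊕ M} {b : V → M}
    {L : Finset V → Finset C} {ap as ac a0 a1 a2 : ℝ}
    (p6 : 0 ≤ a2) (h0 : a0 ≤ a2) (h1 : a1 ≤ a2) {w : V} (hw : w ∉ Z)
    (l3 : ((at' F w).card : ℝ) * a2 ≤ 1) (c : C) :
    ∑ e ∈ (at' F w).filter (fun e => c ∈ L1 Z cl kc b L e), wg Z cl kc b ap as ac a0 a1 a2 e c
      ≤ 1 := by
  classical
  by_cases hR : ∃ i : M, kc c = Sum.inr i
  · have h3 : (at' F w).filter (fun e => c ∈ L1 Z cl kc b L e) = ∅ := by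
      rw [filter_eq_empty_iff]
      intro e he hc
      rw [mem_L1] at hc
      apply hc.2 w (mem_at.1 he).2
      unfold fb
      rw [if_neg hw]
      exact Or.inl hR
    rw [h3, sum_empty]
    exact zero_le_one
  · have h3 : ∀ e ∈ (at' F w).filter (fun e => c ∈ L1 Z cl kc b L e),
        wg Z cl kc b ap as ac a0 a1 a2 e c ≤ a2 := by
      intro e he
      have hwe := (mem_at.1 (mem_filter.1 he).1).2
      unfold wg wn
      rw [if_neg hR, if_neg (fun h => hw (h w hwe))]
      split_ifs
      · exact le_refl _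
      · exact h0
      · exact h1
    refine (sum_le_sum h3).trans ?_
    rw [sum_const, nsmul_eq_mul]
    refine le_trans (mul_le_mul_of_nonneg_right ?_ p6) l3
    exact_mod_cast card_filter_le _ _

end

/-- two edges with two elements -/
theorem lin2 {V : Type} [DecidableEq V] {e f : Finset V} (he : e.card = 2) (hf : f.card = 2)
    (hne : e ≠ f) : (e ∩ f).card ≤ 1 := by
  by_contra hcon
  push Not at hcon
  have h1 : e ∩ f = e := eq_of_subset_of_card_le inter_subset_left (by omega)
  have h2 : e ∩ f = f := eq_of_subset_of_card_le inter_subset_right (by omega)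
  exact hne (h1.symm.trans h2)

/-- the main phase -/
theorem lkp (ε : ℝ) (hε0 : 0 < ε) (hε1 : ε ≤ 1) (K : ℝ) (hK : 0 < K) :
    ∃ D₀ : ℕ, ∀ D : ℕ, D₀ ≤ D → ∀ (V C T M : Type) [Fintype V] [DecidableEq V] [Fintype C]
      [DecidableEq C] [Fintype T] [DecidableEq T] [Fintype M] [DecidableEq M] [Nonempty C]
      (F : Finset (Finset V)) (L : Finset V → Finset C) (Z : Finset V) (cl : V → T ⊕ M)
      (kc : C → T ⊕ M) (b : V → M) (ap as ac a0 a1 a2 A : ℝ) (ρ s κ err z' ω g : ℕ),
      (∀ e ∈ F, e.card = 2) → (∀ v, (at' F v).card ≤ D) → Fintype.card C ≤ D →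
      (∀ i : M, (univ.filter (fun c => kc c = Sum.inr i)).card = ρ) →
      (∀ j : T, (univ.filter (fun c => kc c = Sum.inl j)).card ≤ s) →
      (univ.filter (fun c => ¬ ∃ i : M, kc c = Sum.inr i)).card = κ →
      (∀ e ∈ F, Fintype.card C ≤ (L e).card + err) →
      0 ≤ ap → 0 ≤ as → 0 ≤ a0 → 0 ≤ a1 → as ≤ ac → a0 ≤ a2 → a1 ≤ a2 →
      ap ≤ A → ac ≤ A → a2 ≤ A → A ≤ K / D →
      1 + ε + err * A ≤ κ * as + ((Fintype.card M : ℝ) - 1) * ρ * ap →
      1 + ε + err * A ≤ κ * ac + ((Fintype.card M : ℝ) - 2) * ρ * ap →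
      1 + ε + err * A ≤ κ * a0 → 1 + ε + err * A ≤ ((κ : ℝ) - s) * a1 →
      1 + ε + err * A ≤ ((κ : ℝ) - 2 * s) * a2 →
      (∀ i, z' ≤ (Z.filter (fun u => b u = i)).card) → g ≤ ω →
      (∀ u ∈ Z, ∀ i, (univ.filter (fun x => x ∉ Z ∧ cl x = i ∧ ({u, x} : Finset V) ∈ F)).card
        ≤ if i = Sum.inr (b u) then ω else ω - g) →
      ((Z.card : ℝ) - z') * ap ≤ 1 →
      Z.card * ac - z' * (ac - as) + ((Fintype.card T : ℝ) - 1) * ((ω : ℝ) - g) * a1 +
        (((Fintype.card M : ℝ) - 1) * ((ω : ℝ) - g) + ω) * a0 ≤ 1 →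
      (∀ w, w ∉ Z → ((at' F w).card : ℝ) * a2 ≤ 1) →
      ∃ φ, Pr F (L1 Z cl kc b L) φ := by
  classical
  obtain ⟨D₀, hD₀⟩ := wlist 2 (by norm_num) ε hε0 hε1 K hK
  refine ⟨D₀, ?_⟩
  intro D hD V C T M _ _ _ _ _ _ _ _ _ F L Z cl kc b ap as ac a0 a1 a2 A ρ s κ err z' ω g h2 hat hC
    hρ hs hκ herr p1 p2 p4 p5 hac h02 h12 qp qc q2 hA t1 t2 t3 t4 t5 hz hg hcls l1 l2 l3
  have p3 : 0 ≤ ac := p2.trans hac
  have p6 : 0 ≤ a2 := p4.trans h02
  refine hD₀ D hD V F (fun e he => card_pos.1 (by rw [h2 e he]; norm_num))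
    (fun e he => (h2 e he).le) (fun e he f hf hne => lin2 (h2 e he) (h2 f hf) hne) hat C
    (L1 Z cl kc b L) (wg Z cl kc b ap as ac a0 a1 a2) (fun e _ => (card_le_univ _).trans hC)
    (fun e _ c _ => ?_) (fun e _ c _ => ?_) (fun v c => ?_) (fun e he => ?_)
  · unfold wg wn
    split_ifs <;> assumption
  · refine le_trans ?_ hA
    unfold wg wn
    split_ifs
    · exact qp
    · exact hac.trans qc
    · exact qc
    · exact q2
    · exact h02.trans q2
    · exact h12.trans q2
  · by_cases hv : v ∈ Z
    · exact loadZ h2 p1 p2 p4 p5 hac hz hg hcls l1 l2 hv c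
    · exact loadW p6 h02 h12 hv (l3 v hv) c
  · exact tot (h2 e he) hρ hs hκ (herr e he) p1 p2 p3 p4 p5 p6 qp (hac.trans qc) qc (h02.trans q2)
      (h12.trans q2) q2 t1 t2 t3 t4 t5

end Pool.Agent.Run7.h320.D
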