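import Pool.Agent.Run7.h320.Star

/-!
# Selections with small loads, balanced maps
-/

set_option autoImplicit false

namespace Pool.Agent.Run7.h320.D

open Finset

section
variable {V : Type} [DecidableEq V]

/-- every `u` chooses `g` elements of `N u`, every element is chosen at most `l` times -/
theorem sel {U : Finset V} {N : V → Finset V} {a g l : ℕ} (hN : ∀ u ∈ U, a ≤ (N u).card)
    (hl : 0 < l) (hga : g ≤ a) (h : U.card * g ≤ (a - g) * l) :
    ∃ S : V → Finset V, (∀ u ∈ U, S u ⊆ N u ∧ (S u).card = g) ∧
      ∀ w, (U.filter (fun u => w ∈ S u)).card ≤ l := by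
  classical
  induction U using Finset.induction_on with
  | empty => exact ⟨fun _ => ∅, by simp, by simp⟩
  | insert u U hu ih =>
    rw [card_insert_of_notMem hu] at h
    obtain ⟨S, hS1, hS2⟩ := ih (fun v hv => hN v (mem_insert_of_mem hv)) (by nlinarith)
    obtain ⟨Sat, hSat⟩ : ∃ Sat : Finset V, Sat = (N u).filter (fun w =>
      (U.filter (fun v => w ∈ S v)).card = l) := ⟨_, rfl⟩
    have h1 : Sat.card * l ≤ U.card * g := by
      calc Sat.card * l = ∑ w ∈ Sat, l := by rw [sum_const, smul_eq_mul]
        _ = ∑ w ∈ Sat, (U.filter (fun v => w ∈ S v)).card := by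
            apply sum_congr rfl
            intro w hw
            rw [hSat, mem_filter] at hw
            exact hw.2.symm
        _ = ∑ v ∈ U, (Sat.filter (fun w => w ∈ S v)).card := by
            have h3 := sum_card_bipartiteAbove_eq_sum_card_bipartiteBelow (s := Sat)
              (t := U) (fun w v => w ∈ S v)
            unfold bipartiteAbove bipartiteBelow at h3
            exact h3
        _ ≤ ∑ v ∈ U, g := by
            apply sum_le_sum
            intro v hv
            rw [← (hS1 v hv).2]
            apply card_le_card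
            intro w hw
            exact (mem_filter.1 hw).2
        _ = U.card * g := by rw [sum_const, smul_eq_mul]
    have h2 : Sat.card ≤ a - g := by
      by_contra hcon
      push Not at hcon
      have h3 : (a - g + 1) * l ≤ Sat.card * l := Nat.mul_le_mul_right _ hcon
      nlinarith
    have h3 : g ≤ (N u \ Sat).card := by
      have h4 := hN u (mem_insert_self _ _)
      have h5 := le_card_sdiff Sat (N u)
      omega
    obtain ⟨S', hS'1, hS'2⟩ := exists_subset_card_eq h3
    refine ⟨Function.update S u S', ?_, ?_⟩
    · intro v hv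
      rw [mem_insert] at hv
      by_cases hvu : v = u
      · subst hvu
        rw [Function.update_self]
        exact ⟨hS'1.trans sdiff_subset, hS'2⟩
      · rw [Function.update_of_ne hvu]
        exact hS1 v (hv.resolve_left hvu)
    · intro w
      have h6 : U.filter (fun v => w ∈ Function.update S u S' v) =
          U.filter (fun v => w ∈ S v) := by
        apply filter_congr
        intro v hv
        rw [Function.update_of_ne]
        rintro rfl
        exact hu hv
      rw [filter_insert, Function.update_self]
      split_ifs with hw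
      · rw [card_insert_of_notMem (by simp [hu]), h6]
        have h7 := mem_sdiff.1 (hS'1 hw)
        have h8 := hS2 w
        have h9 : (U.filter (fun v => w ∈ S v)).card ≠ l := by
          intro h
          exact h7.2 (by rw [hSat, mem_filter]; exact ⟨h7.1, h⟩)
        omega
      · rw [h6]
        exact hS2 w

/-- balanced maps -/
theorem bal (S : Finset V) (τ : ℕ) (hτ : 0 < τ) :
    ∃ f : V → Fin τ, ∀ j, S.card / τ ≤ (S.filter (fun x => f x = j)).card ∧
      (S.filter (fun x => f x = j)).card ≤ S.card / τ + 1 := by
  classical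
  have : NeZero τ := ⟨hτ.ne'⟩
  let f : V → Fin τ := fun x => if h : x ∈ S then Fin.ofNat τ (S.equivFin ⟨x, h⟩ : ℕ) else 0
  refine ⟨f, fun j => ?_⟩
  have h1 : (S.filter (fun x => f x = j)).card =
      ((range S.card).filter (fun i => i ≡ (j : ℕ) [MOD τ])).card := by
    refine card_bij (fun x hx => (S.equivFin ⟨x, (mem_filter.1 hx).1⟩ : ℕ)) ?_ ?_ ?_
    · intro x hx
      have hx' := mem_filter.1 hx
      rw [mem_filter, mem_range]
      refine ⟨(S.equivFin ⟨x, hx'.1⟩).2, ?_⟩
      have h2 := hx'.2
      simp only [f, dif_pos hx'.1] at h2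
      have h3 := congrArg Fin.val h2
      simp only [Fin.val_ofNat] at h3
      unfold Nat.ModEq
      rw [h3, Nat.mod_eq_of_lt j.2]
    · intro x hx y hy h
      have := S.equivFin.injective (Fin.ext h)
      exact congrArg Subtype.val this
    · intro i hi
      rw [mem_filter, mem_range] at hi
      refine ⟨(S.equivFin.symm ⟨i, hi.1⟩).1, ?_, ?_⟩
      · rw [mem_filter]
        refine ⟨(S.equivFin.symm ⟨i, hi.1⟩).2, ?_⟩
        simp only [f, dif_pos (S.equivFin.symm ⟨i, hi.1⟩).2, Subtype.coe_eta, Equiv.apply_symm_apply]
        apply Fin.ext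
        simp only [Fin.val_ofNat]
        have h4 := hi.2
        unfold Nat.ModEq at h4
        rw [h4, Nat.mod_eq_of_lt j.2]
      · simp
  have h2 := Nat.count_modEq_card S.card hτ (j : ℕ)
  rw [Nat.count_eq_card_filter_range] at h2
  rw [h1, h2]
  split_ifs
  · exact ⟨by omega, le_refl _⟩
  · exact ⟨by omega, by omega⟩

/-- classes of the same size -/
theorem blk (W₀ : Finset V) {I : Type} [Fintype I] [DecidableEq I] [Nonempty I] (ω : ℕ)
    (h : Fintype.card I * ω ≤ W₀.card) : ∃ W ⊆ W₀, ∃ cl : V → I,
      W.card = Fintype.card I * ω ∧ ∀ i, (W.filter (fun w => cl w = i)).card = ω := by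
  classical
  obtain ⟨W, hW1, hW2⟩ := exists_subset_card_eq h
  have h1 : Fintype.card {x // x ∈ W} = Fintype.card (I × Fin ω) := by
    rw [Fintype.card_coe, hW2, Fintype.card_prod, Fintype.card_fin]
  obtain ⟨E⟩ : Nonempty ({x // x ∈ W} ≃ I × Fin ω) := ⟨Fintype.equivOfCardEq h1⟩
  let cl : V → I := fun x => if h : x ∈ W then (E ⟨x, h⟩).1 else Classical.arbitrary I
  refine ⟨W, hW1, cl, hW2, fun i => ?_⟩
  have h2 : (W.filter (fun w => cl w = i)).card = (univ : Finset (Fin ω)).card := by
    refine card_bij (fun x hx => (E ⟨x, (mem_filter.1 hx).1⟩).2) (fun _ _ => mem_univ _) ?_ ?_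
    · intro x hx y hy hxy
      have hx' := mem_filter.1 hx
      have hy' := mem_filter.1 hy
      have h3 : (E ⟨x, hx'.1⟩).1 = i := by
        have := hx'.2
        simp only [cl, dif_pos hx'.1] at this
        exact this
      have h4 : (E ⟨y, hy'.1⟩).1 = i := by
        have := hy'.2
        simp only [cl, dif_pos hy'.1] at this
        exact this
      have h5 : E ⟨x, hx'.1⟩ = E ⟨y, hy'.1⟩ := Prod.ext (h3.trans h4.symm) hxy
      exact congrArg Subtype.val (E.injective h5)
    · intro j _
      refine ⟨(E.symm (i, j)).1, ?_, ?_⟩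
      · rw [mem_filter]
        refine ⟨(E.symm (i, j)).2, ?_⟩
        simp only [cl, dif_pos (E.symm (i, j)).2, Subtype.coe_eta, Equiv.apply_symm_apply]
      · simp
  rw [h2, card_univ, Fintype.card_fin]

end

end Pool.Agent.Run7.h320.D
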