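import Pool.Agent.Run7.h320.D.Fin
import Pool.Agent.Run7.h320.D.Sel
import Pool.Agent.Run7.h320.D.Load

/-!
# The core theorem with numerical hypotheses
-/

set_option autoImplicit false
set_option linter.unusedSectionVars false

namespace Pool.Agent.Run7.h320.D

open Finset

section
variable {V C T M : Type} [Fintype V] [DecidableEq V] [Fintype C] [DecidableEq C]
  [Fintype T] [DecidableEq T] [Fintype M] [DecidableEq M]

/-- the candidates -/
def cand (H : Finset (Finset V)) (Z : Finset V) (cl : V → T ⊕ M) (i : T ⊕ M) (u : V) : Finset V :=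
  univ.filter (fun w => w ∉ Z ∧ cl w = i ∧ ({u, w} : Finset V) ∈ H)

/-- the reserved edges -/
theorem res {H : Finset (Finset V)} {Z : Finset V} {cl : V → T ⊕ M} {b : V → M}
    {g a l z : ℕ} (hz : ∀ i, (Z.filter (fun u => b u = i)).card ≤ z) (hl : 0 < l) (hga : g ≤ a)
    (hsel : z * g ≤ (a - g) * l) :
    ∃ D : Finset (V × V), (∀ p ∈ D, p.1 ∈ Z ∧ p.2 ∉ Z ∧ ({p.1, p.2} : Finset V) ∈ H ∧
        cl p.2 ≠ Sum.inr (b p.1)) ∧
      (∀ u ∈ Z, ∀ i, i ≠ Sum.inr (b u) → a ≤ (cand H Z cl i u).card →
        (univ.filter (fun w => (u, w) ∈ D ∧ cl w = i)).card = g) ∧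
      (∀ u ∈ Z, ∀ i, (cand H Z cl i u).card < a →
        (univ.filter (fun w => (u, w) ∈ D ∧ cl w = i)).card = 0) ∧
      (∀ i w, (D.filter (fun p => p.2 = w ∧ b p.1 = i)).card ≤ l) := by
  classical
  have h1 : ∀ (k : M) (i : T ⊕ M), ∃ S : V → Finset V,
      (∀ u ∈ Z.filter (fun u => b u = k ∧ a ≤ (cand H Z cl i u).card),
        S u ⊆ cand H Z cl i u ∧ (S u).card = g) ∧
      ∀ w, ((Z.filter (fun u => b u = k ∧ a ≤ (cand H Z cl i u).card)).filter
        (fun u => w ∈ S u)).card ≤ l := by
    intro k i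
    refine sel (N := cand H Z cl i) (fun u hu => (mem_filter.1 hu).2.2) hl hga ?_
    refine le_trans (Nat.mul_le_mul_right _ (le_trans (card_le_card ?_) (hz k))) hsel
    intro u hu
    rw [mem_filter] at hu ⊢
    exact ⟨hu.1, hu.2.1⟩
  choose S hS1 hS2 using h1
  obtain ⟨D, hD⟩ : ∃ D : Finset (V × V), D = univ.filter (fun p => p.1 ∈ Z ∧
      cl p.2 ≠ Sum.inr (b p.1) ∧ a ≤ (cand H Z cl (cl p.2) p.1).card ∧
      p.2 ∈ S (b p.1) (cl p.2) p.1) := ⟨_, rfl⟩
  have hmem : ∀ u w, (u, w) ∈ D ↔ u ∈ Z ∧ cl w ≠ Sum.inr (b u) ∧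
      a ≤ (cand H Z cl (cl w) u).card ∧ w ∈ S (b u) (cl w) u := by
    intro u w
    rw [hD, mem_filter]
    exact ⟨fun h => h.2, fun h => ⟨mem_univ _, h⟩⟩
  have hcd : ∀ u w, (u, w) ∈ D → w ∈ cand H Z cl (cl w) u := by
    intro u w h
    rw [hmem] at h
    exact (hS1 (b u) (cl w) u (mem_filter.2 ⟨h.1, rfl, h.2.2.1⟩)).1 h.2.2.2
  refine ⟨D, ?_, ?_, ?_, ?_⟩
  · rintro ⟨u, w⟩ hp
    have h1 := hcd u w hp
    rw [hmem] at hp
    unfold cand at h1
    rw [mem_filter] at h1
    exact ⟨hp.1, h1.2.1, h1.2.2.2, hp.2.1⟩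
  · intro u hu i hi ha
    have h1 := hS1 (b u) i u (mem_filter.2 ⟨hu, rfl, ha⟩)
    rw [← h1.2]
    congr 1
    ext w
    rw [mem_filter, hmem]
    constructor
    · rintro ⟨_, h2, rfl⟩
      exact h2.2.2.2
    · intro hw
      have h2 := h1.1 hw
      unfold cand at h2
      rw [mem_filter] at h2
      obtain ⟨_, _, hcl, _⟩ := h2
      rw [hcl]
      exact ⟨mem_univ _, ⟨hu, hi, ha, hw⟩, rfl⟩
  · intro u hu i ha
    rw [card_eq_zero, filter_eq_empty_iff]
    rintro w _ ⟨hw, rfl⟩
    rw [hmem] at hw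
    omega
  · intro i w
    refine le_trans ?_ (hS2 i (cl w) w)
    refine card_le_card_of_injOn (fun p => p.1) ?_ ?_
    · rintro ⟨u, w'⟩ hp
      rw [mem_coe, mem_filter] at hp
      obtain ⟨hp, h1, h2⟩ := hp
      simp only at h1 h2
      subst h1
      rw [hmem] at hp
      rw [mem_coe, mem_filter, mem_filter]
      subst h2
      exact ⟨⟨hp.1, rfl, hp.2.2.1⟩, hp.2.2.2⟩
    · rintro ⟨u, w'⟩ hp ⟨u', w''⟩ hp' heq
      rw [mem_coe, mem_filter] at hp hp'
      exact Prod.ext heq (hp.2.1.trans hp'.2.1.symm)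

/-- the core theorem -/
theorem core1 {H : Finset (Finset V)} {L : Finset V → Finset C} {P : V → Finset C}
    {Z : Finset V} {cl : V → T ⊕ M} {kc : C → T ⊕ M} {b : V → M} [Nonempty V] [Nonempty C]
    {e ω g a l k q ρ h z : ℕ}
    (h2 : ∀ f ∈ H, f.card = 2) (hLP : ∀ f ∈ H, ∀ u ∈ f, L f ⊆ P u)
    (hmis : ∀ u, ∀ c ∈ P u, ((at' H u).filter (fun f => c ∉ L f)).card ≤ e)
    (hdeg : ∀ u, (at' H u).card ≤ (P u).card)
    (hP : ∀ u, Fintype.card C ≤ (P u).card + e)
    (hfull : ∀ f ∈ H, ∀ w ∈ f, w ∉ Z → ∀ u ∈ f, u ≠ w → ∀ c ∈ P u,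
      (∃ i : M, kc c = Sum.inr i) → c ∈ L f)
    (hω : ∀ i, (univ.filter (fun x => x ∉ Z ∧ cl x = i)).card = ω)
    (hρ : ∀ i : M, (univ.filter (fun c => kc c = Sum.inr i)).card = ρ)
    (hz : ∀ i, (Z.filter (fun u => b u = i)).card ≤ z)
    (hn : Fintype.card V ≤ Fintype.card C + e)
    (n1 : g * (Fintype.card T + Fintype.card M - 1) = ρ + h)
    (n1' : 2 ≤ Fintype.card T + Fintype.card M)
    (n2 : h + e ≤ g) (n3 : h + e ≤ k) (n3' : k + e ≤ g) (n4 : Z.card * (h + e) ≤ q * (k - 1))
    (n5 : 2 * q + 3 * e + 2 ≤ k) (n6 : z * g ≤ (a - g) * l) (n6' : 0 < l) (n6'' : g ≤ a)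
    (n6''' : l + e ≤ ρ) (n7 : a + g ≤ ω + 1) (n7' : g ≤ ω)
    (hlk : ∀ F ⊆ H, (∀ u ∈ Z, ∀ i, (univ.filter (fun x => x ∉ Z ∧ cl x = i ∧
      ({u, x} : Finset V) ∈ F)).card ≤ if i = Sum.inr (b u) then ω else ω - g) →
      ∃ φ, Pr F (L1 Z cl kc b L) φ) :
    ∃ χ, Pr H L χ := by
  classical
  obtain ⟨D, hD, hDg, hD0, hDl⟩ := res (H := H) (cl := cl) hz n6' n6'' n6
  obtain ⟨B, hB⟩ : ∃ B : Finset (Finset V), B = D.image (fun p => ({p.1, p.2} : Finset V)) :=
    ⟨_, rfl⟩
  obtain ⟨F, hF⟩ : ∃ F : Finset (Finset V), F = H \ B := ⟨_, rfl⟩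
  have hFH : F ⊆ H := by
    rw [hF]
    exact sdiff_subset
  have hBm : ∀ u w, u ∈ Z → w ∉ Z → (({u, w} : Finset V) ∈ B ↔ (u, w) ∈ D) := by
    intro u w hu hw
    rw [hB, mem_image]
    constructor
    · rintro ⟨p, hp, heq⟩
      obtain ⟨d1, d2, -, -⟩ := hD p hp
      obtain ⟨e1, e2⟩ := pair_inj d1 d2 hu hw heq
      rw [← e1, ← e2]
      exact hp
    · intro h
      exact ⟨(u, w), h, rfl⟩
  have hBZ : ∀ u v, u ∈ Z → v ∈ Z → ({u, v} : Finset V) ∉ B := by
    intro u v hu hv h
    rw [hB, mem_image] at h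
    obtain ⟨p, hp, heq⟩ := h
    obtain ⟨d1, d2, -, -⟩ := hD p hp
    have h3 : p.2 ∈ ({u, v} : Finset V) := by rw [← heq]; simp
    rw [mem_insert, mem_singleton] at h3
    rcases h3 with h3 | h3
    · exact d2 (h3 ▸ hu)
    · exact d2 (h3 ▸ hv)
  -- the main phase
  have hcls : ∀ u ∈ Z, ∀ i, (univ.filter (fun x => x ∉ Z ∧ cl x = i ∧
      ({u, x} : Finset V) ∈ F)).card ≤ if i = Sum.inr (b u) then ω else ω - g := by
    intro u hu i
    split_ifs with hi
    · rw [← hω i]
      apply card_le_card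
      intro x hx
      rw [mem_filter] at hx ⊢
      exact ⟨hx.1, hx.2.1, hx.2.2.1⟩
    · have hsub : univ.filter (fun x => x ∉ Z ∧ cl x = i ∧ ({u, x} : Finset V) ∈ F) ⊆
          cand H Z cl i u := by
        intro x hx
        unfold cand
        rw [mem_filter] at hx ⊢
        exact ⟨hx.1, hx.2.1, hx.2.2.1, hFH hx.2.2.2⟩
      rcases lt_or_ge (cand H Z cl i u).card a with ha | ha
      · have h3 := card_le_card hsub
        omega
      · have h3 := hDg u hu i hi ha
        have h4 : Disjoint (univ.filter (fun x => x ∉ Z ∧ cl x = i ∧ ({u, x} : Finset V) ∈ F))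
            (univ.filter (fun w => (u, w) ∈ D ∧ cl w = i)) := by
          rw [disjoint_left]
          intro x hx hx'
          rw [mem_filter] at hx hx'
          have h5 := hx.2.2.2
          rw [hF, mem_sdiff] at h5
          exact h5.2 ((hBm u x hu hx.2.1).2 hx'.2.1)
        have h5 : (univ.filter (fun x => x ∉ Z ∧ cl x = i ∧ ({u, x} : Finset V) ∈ F)) ∪
            (univ.filter (fun w => (u, w) ∈ D ∧ cl w = i)) ⊆
            univ.filter (fun x => x ∉ Z ∧ cl x = i) := by
          intro x hx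
          rw [mem_union, mem_filter, mem_filter] at hx
          rw [mem_filter]
          rcases hx with hx | hx
          · exact ⟨hx.1, hx.2.1, hx.2.2.1⟩
          · exact ⟨hx.1, (hD _ hx.2.1).2.1, hx.2.2⟩
        have h6 := card_le_card h5
        rw [card_union_of_disjoint h4, h3, hω i] at h6
        omega
  obtain ⟨φ₀, hφ₀⟩ := hlk F hFH hcls
  -- the numbers
  obtain ⟨Q, hQ⟩ : ∃ Q : V → Finset C, Q = fun u => (P u).filter (fun c => kc c ≠ Sum.inr (b u)) :=
    ⟨_, rfl⟩
  obtain ⟨R, hR⟩ : ∃ R : V → Finset C, R = fun u => (P u).filter (fun c => kc c = Sum.inr (b u)) :=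
    ⟨_, rfl⟩
  have hQR : ∀ u, (R u).card + (Q u).card = (P u).card := by
    intro u
    rw [hQ, hR]
    exact card_filter_add_card_filter_not _
  obtain ⟨dD, hdD⟩ : ∃ dD : V → ℕ, dD = fun u => (D.filter (fun p => p.1 = u)).card := ⟨_, rfl⟩
  have hRu : ∀ u, ρ ≤ (R u).card + e := by
    intro u
    have h3 : univ.filter (fun c => kc c = Sum.inr (b u)) ⊆ R u ∪ (univ \ P u) := by
      intro c hc
      rw [mem_filter] at hc
      by_cases h : c ∈ P u
      · refine mem_union_left _ ?_
        rw [hR]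
        exact mem_filter.2 ⟨h, hc.2⟩
      · exact mem_union_right _ (mem_sdiff.2 ⟨mem_univ _, h⟩)
    have h4 := (card_le_card h3).trans (card_union_le _ _)
    rw [hρ] at h4
    have h5 := card_sdiff_add_card_eq_card (subset_univ (P u))
    rw [card_univ] at h5
    have h6 := hP u
    omega
  have hsplit : ∀ u ∈ Z, (at' F u).card + dD u = (at' H u).card := by
    intro u hu
    have h3 : (at' B u).card = dD u := by
      rw [hdD]
      symm
      refine card_bij (fun p _ => ({p.1, p.2} : Finset V)) ?_ ?_ ?_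
      · intro p hp
        rw [mem_filter] at hp
        rw [mem_at, hB]
        exact ⟨mem_image.2 ⟨p, hp.1, rfl⟩, by rw [← hp.2]; simp⟩
      · intro p hp p' hp' heq
        rw [mem_filter] at hp hp'
        obtain ⟨d1, d2, -, -⟩ := hD p hp.1
        obtain ⟨d1', d2', -, -⟩ := hD p' hp'.1
        obtain ⟨e1, e2⟩ := pair_inj d1 d2 d1' d2' heq
        exact Prod.ext e1 e2
      · intro f hf
        rw [mem_at, hB, mem_image] at hf
        obtain ⟨⟨p, hp, rfl⟩, huf⟩ := hf
        refine ⟨p, mem_filter.2 ⟨hp, ?_⟩, rfl⟩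
        rw [mem_insert, mem_singleton] at huf
        rcases huf with h | h
        · exact h.symm
        · exact absurd (h ▸ hu) (hD p hp).2.1
    rw [← h3, ← card_union_of_disjoint]
    · congr 1
      ext f
      rw [mem_union, mem_at, mem_at, mem_at, hF, mem_sdiff]
      constructor
      · rintro (⟨⟨h4, _⟩, h5⟩ | ⟨h4, h5⟩)
        · exact ⟨h4, h5⟩
        · rw [hB, mem_image] at h4
          obtain ⟨p, hp, rfl⟩ := h4
          exact ⟨(hD p hp).2.2.1, h5⟩
      · rintro ⟨h4, h5⟩
        by_cases hfB : f ∈ B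
        · exact Or.inr ⟨hfB, h5⟩
        · exact Or.inl ⟨⟨h4, hfB⟩, h5⟩
    · rw [disjoint_left]
      intro f hf hf'
      rw [mem_at, hF, mem_sdiff] at hf
      exact hf.1.2 (mem_at.1 hf').1
  -- the number of reserved edges at a vertex
  have hdDsum : ∀ u, dD u = ∑ i, (univ.filter (fun w => (u, w) ∈ D ∧ cl w = i)).card := by
    intro u
    have h3 : dD u = (univ.filter (fun w => (u, w) ∈ D)).card := by
      rw [hdD]
      refine card_bij (fun p _ => p.2) ?_ ?_ ?_
      · rintro ⟨u', w⟩ hp
        rw [mem_filter] at hp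
        obtain ⟨hp, rfl⟩ := hp
        exact mem_filter.2 ⟨mem_univ _, hp⟩
      · rintro ⟨u', w⟩ hp ⟨u'', w'⟩ hp' heq
        rw [mem_filter] at hp hp'
        exact Prod.ext (hp.2.trans hp'.2.symm) heq
      · intro w hw
        rw [mem_filter] at hw
        exact ⟨(u, w), mem_filter.2 ⟨hw.2, rfl⟩, rfl⟩
    rw [h3, card_eq_sum_card_fiberwise (f := cl) (t := univ) (fun _ _ => mem_univ _)]
    apply sum_congr rfl
    intro i _
    rw [filter_filter]
  have hcl0 : ∀ u ∈ Z, (univ.filter (fun w => (u, w) ∈ D ∧ cl w = Sum.inr (b u))).card = 0 := by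
    intro u _
    rw [card_eq_zero, filter_eq_empty_iff]
    rintro w _ ⟨hw, hcw⟩
    exact (hD _ hw).2.2.2 hcw
  have hclg : ∀ u ∈ Z, ∀ i, (univ.filter (fun w => (u, w) ∈ D ∧ cl w = i)).card ≤ g := by
    intro u hu i
    by_cases hi : i = Sum.inr (b u)
    · rw [hi, hcl0 u hu]
      exact Nat.zero_le _
    · rcases lt_or_ge (cand H Z cl i u).card a with ha | ha
      · rw [hD0 u hu i ha]
        exact Nat.zero_le _
      · exact (hDg u hu i hi ha).le
  have hcardI : (univ : Finset (T ⊕ M)).card = Fintype.card T + Fintype.card M := by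
    rw [card_univ, Fintype.card_sum]
  have hdDle : ∀ u ∈ Z, dD u ≤ ρ + h := by
    intro u hu
    rw [hdDsum u, ← add_sum_erase univ _ (mem_univ (Sum.inr (b u))), hcl0 u hu, zero_add]
    refine (sum_le_sum fun i _ => hclg u hu i).trans ?_
    rw [sum_const, smul_eq_mul, card_erase_of_mem (mem_univ _), hcardI, mul_comm]
    exact n1.le
  have hgood : ∀ u ∈ Z, (R u).card < dD u → ∀ i, i ≠ Sum.inr (b u) →
      (univ.filter (fun w => (u, w) ∈ D ∧ cl w = i)).card = g := by
    intro u hu hlt i hi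
    by_contra hne
    have ha : (cand H Z cl i u).card < a := by
      by_contra hcon
      push Not at hcon
      exact hne (hDg u hu i hi hcon)
    have h3 := hD0 u hu i ha
    have h4 : dD u ≤ g * (Fintype.card T + Fintype.card M - 2) := by
      rw [hdDsum u, ← add_sum_erase univ _ (mem_univ (Sum.inr (b u))), hcl0 u hu, zero_add,
        ← add_sum_erase _ _ (mem_erase.2 ⟨hi, mem_univ i⟩), h3, zero_add]
      refine (sum_le_sum fun i _ => hclg u hu i).trans ?_
      rw [sum_const, smul_eq_mul, card_erase_of_mem (mem_erase.2 ⟨hi, mem_univ i⟩),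
        card_erase_of_mem (mem_univ _), hcardI, mul_comm]
      apply Nat.mul_le_mul_left
      omega
    have h5 : g * (Fintype.card T + Fintype.card M - 1) =
        g * (Fintype.card T + Fintype.card M - 2) + g := by
      obtain ⟨t, ht⟩ : ∃ t, Fintype.card T + Fintype.card M = t + 2 := ⟨_, (Nat.sub_add_cancel n1').symm⟩
      rw [ht]
      have e1 : t + 2 - 1 = t + 1 := by omega
      have e2 : t + 2 - 2 = t := by omega
      rw [e1, e2]
      ring
    have h6 := hRu u
    omega
  obtain ⟨y, hy⟩ : ∃ y : V → ℕ, y = fun u => dD u - (R u).card := ⟨_, rfl⟩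
  have hyle : ∀ u ∈ Z, y u ≤ h + e := by
    intro u hu
    rw [hy]
    have h3 := hdDle u hu
    have h4 := hRu u
    simp only
    omega
  have hLQ : ∀ f ∈ F, ∀ u ∈ f, u ∈ Z → L1 Z cl kc b L f ⊆ Q u := by
    intro f hf u huf hu c hc
    rw [mem_L1] at hc
    rw [hQ]
    refine mem_filter.2 ⟨hLP f (hFH hf) u huf hc.1, ?_⟩
    have h3 := hc.2 u huf
    unfold fb at h3
    rwa [if_pos hu] at h3
  obtain ⟨φ, X, hφ, hX, hcnt⟩ := exch (Z := Z) (Q := Q) (y := y) (q := q) (k := k) hφ₀ hLQ
    (by
      intro u hu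
      have h3 : (at' F u).card ≤ (Q u).card := by
        rw [← card_us hφ₀]
        apply card_le_card
        intro c hc
        obtain ⟨f, hf, huf, rfl⟩ := mem_us.1 hc
        exact hLQ f hf u huf hu (hφ₀.1 f hf)
      have h4 := hsplit u hu
      have h5 := hdeg u
      have h6 := hQR u
      rw [hy]
      simp only
      omega)
    (by
      refine (sum_le_sum fun u hu => hyle u hu).trans ?_
      rw [sum_const, smul_eq_mul]
      exact n4)
    (by omega)
    (by
      intro A hAZ hA c hc
      have hne : A.Nonempty := card_pos.1 (by omega)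
      obtain ⟨u, hu⟩ := hne
      refine ⟨u, hu, ?_⟩
      obtain ⟨hy1, hcQ, hQle⟩ := hc u hu
      have huZ := hAZ hu
      have h4 := hsplit u huZ
      have h6 := hQR u
      have h7 := hP u
      have hdH : Fintype.card C ≤ (at' H u).card + e + q := by
        rw [hy] at hy1 hQle
        simp only at hy1 hQle
        omega
      obtain ⟨S, hS⟩ : ∃ S : Finset V, S = A.filter (fun v => v ≠ u ∧ ({u, v} : Finset V) ∈ F ∧
        c ∈ L1 Z cl kc b L {u, v}) := ⟨_, rfl⟩
      rw [← hS]
      obtain ⟨NN, hNN⟩ : ∃ NN : Finset V, NN = univ.filter (fun v => v ≠ u ∧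
        ({u, v} : Finset V) ∉ H) := ⟨_, rfl⟩
      obtain ⟨Bd, hBd⟩ : ∃ Bd : Finset V, Bd = univ.filter (fun v => v ≠ u ∧
        ({u, v} : Finset V) ∈ H ∧ c ∉ L {u, v}) := ⟨_, rfl⟩
      have hcP : c ∈ P u := by
        rw [hQ] at hcQ
        exact (mem_filter.1 hcQ).1
      have hBdc : Bd.card ≤ e := by
        refine le_trans (card_le_card_of_injOn (fun v => ({u, v} : Finset V)) ?_ ?_) (hmis u c hcP)
        · intro v hv
          rw [mem_coe, hBd, mem_filter] at hv
          rw [mem_coe, mem_filter, mem_at]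
          exact ⟨⟨hv.2.2.1, by simp⟩, hv.2.2.2⟩
        · intro v hv v' hv' heq
          rw [mem_coe, hBd, mem_filter] at hv hv'
          have h8 : v ∈ ({u, v'} : Finset V) := by
            have h9 : ({u, v} : Finset V) = {u, v'} := heq
            rw [← h9]
            simp
          rw [mem_insert, mem_singleton] at h8
          exact h8.resolve_left hv.2.1
      have hnb : (univ.filter (fun v => v ≠ u ∧ ({u, v} : Finset V) ∈ H)).card =
          (at' H u).card := by
        refine card_bij (fun v _ => ({u, v} : Finset V)) ?_ ?_ ?_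
        · intro v hv
          rw [mem_filter] at hv
          exact mem_at.2 ⟨hv.2.2, by simp⟩
        · intro v hv v' hv' heq
          rw [mem_filter] at hv hv'
          have h8 : v ∈ ({u, v'} : Finset V) := by rw [← heq]; simp
          rw [mem_insert, mem_singleton] at h8
          exact h8.resolve_left hv.2.1
        · intro f hf
          rw [mem_at] at hf
          obtain ⟨x, x', hxx, rfl⟩ := card_eq_two.1 (h2 f hf.1)
          have hv := hf.2
          rw [mem_insert, mem_singleton] at hv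
          rcases hv with rfl | rfl
          · exact ⟨x', mem_filter.2 ⟨mem_univ _, hxx.symm, hf.1⟩, rfl⟩
          · refine ⟨x, mem_filter.2 ⟨mem_univ _, hxx, ?_⟩, pair_comm _ _⟩
            rw [pair_comm]
            exact hf.1
      have hNNc : NN.card + (at' H u).card + 1 = Fintype.card V := by
        have h8 : (univ.filter (fun v => v ≠ u ∧ ({u, v} : Finset V) ∈ H)).card + NN.card =
            (univ.erase u).card := by
          rw [hNN, ← card_filter_add_card_filter_not (s := univ.erase u)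
            (fun v => ({u, v} : Finset V) ∈ H)]
          congr 1
          · congr 1
            ext v
            rw [mem_filter, mem_filter, mem_erase]
            tauto
          · congr 1
            ext v
            rw [mem_filter, mem_filter, mem_erase]
            tauto
        have h9 : (univ.erase u).card + 1 = Fintype.card V := by
          rw [card_erase_of_mem (mem_univ u), card_univ]
          have : 0 < Fintype.card V := Fintype.card_pos
          omega
        omega
      have hcov : A ⊆ insert u (S ∪ NN ∪ Bd) := by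
        intro v hv
        by_cases hvu : v = u
        · rw [hvu]
          exact mem_insert_self _ _
        · refine mem_insert_of_mem ?_
          by_cases hvH : ({u, v} : Finset V) ∈ H
          · by_cases hcv : c ∈ L {u, v}
            · refine mem_union_left _ (mem_union_left _ ?_)
              rw [hS, mem_filter]
              refine ⟨hv, hvu, ?_, ?_⟩
              · rw [hF, mem_sdiff]
                exact ⟨hvH, hBZ u v huZ (hAZ hv)⟩
              · rw [mem_L1]
                refine ⟨hcv, ?_⟩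
                intro x hx
                rw [mem_insert, mem_singleton] at hx
                have hxA : x ∈ A := by
                  rcases hx with rfl | rfl
                  · exact hu
                  · exact hv
                have h8 := (hc x hxA).2.1
                rw [hQ] at h8
                unfold fb
                rw [if_pos (hAZ hxA)]
                exact (mem_filter.1 h8).2
            · refine mem_union_right _ ?_
              rw [hBd, mem_filter]
              exact ⟨mem_univ _, hvu, hvH, hcv⟩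
          · refine mem_union_left _ (mem_union_right _ ?_)
            rw [hNN, mem_filter]
            exact ⟨mem_univ _, hvu, hvH⟩
      have h8 := card_le_card hcov
      have h9 := card_insert_le u (S ∪ NN ∪ Bd)
      have h10 := card_union_le (S ∪ NN) Bd
      have h11 := card_union_le S NN
      omega)
  -- the last steps
  refine fin (Z := Z) (D := D) (L := L) (L₁ := L1 Z cl kc b L) (P := P) (X := X) (φ := φ) (cl := cl)
    (kc := kc) (b := b) (k := k) (B := B) hB hD (by rw [← hF]; exact hφ) ?_ ?_ ?_ ?_ ?_ hcnt ?_ ?_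
    ?_ ?_
  · intro f _ c hc
    exact (mem_L1.1 hc).1
  · intro f _ u huf hu c hc
    have h3 := (mem_L1.1 hc).2 u huf
    unfold fb at h3
    rwa [if_pos hu] at h3
  · intro f _ w hwf hw c hc
    have h3 := (mem_L1.1 hc).2 w hwf
    unfold fb at h3
    rw [if_neg hw, not_or, not_exists] at h3
    exact ⟨h3.2, h3.1⟩
  · intro u hu
    have h3 := (hX u hu).1
    rw [hQ, hF] at h3
    exact h3
  · intro u hu
    rw [(hX u hu).2]
    exact (hyle u hu).trans n3
  · intro u hu c hc
    have h3 := (hX u hu).1 hc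
    rw [mem_sdiff] at h3
    have h4 : 0 < (X u).card := card_pos.2 ⟨c, hc⟩
    rw [(hX u hu).2, hy] at h4
    simp only at h4
    have h5 := h3.1
    rw [hQ] at h5
    obtain ⟨hcP, hcb⟩ := mem_filter.1 h5
    have h6 := hgood u hu (by omega) (kc c) hcb
    have h7 := hmis u c hcP
    have h8 : univ.filter (fun w => (u, w) ∈ D ∧ cl w = kc c) ⊆
        univ.filter (fun w => (u, w) ∈ D ∧ cl w = kc c ∧ c ∈ L {u, w}) ∪
        (univ.filter (fun w => w ≠ u ∧ ({u, w} : Finset V) ∈ H ∧ c ∉ L {u, w})) := by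
      intro w hw
      rw [mem_filter] at hw
      obtain ⟨d1, d2, d3, d4⟩ := hD _ hw.2.1
      by_cases hcw : c ∈ L {u, w}
      · exact mem_union_left _ (mem_filter.2 ⟨mem_univ _, hw.2.1, hw.2.2, hcw⟩)
      · refine mem_union_right _ (mem_filter.2 ⟨mem_univ _, ?_, d3, hcw⟩)
        rintro rfl
        exact d2 hu
    have h9 : (univ.filter (fun w => w ≠ u ∧ ({u, w} : Finset V) ∈ H ∧ c ∉ L {u, w})).card ≤ e := by
      refine le_trans (card_le_card_of_injOn (fun v => ({u, v} : Finset V)) ?_ ?_) h7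
      · intro v hv
        rw [mem_coe, mem_filter] at hv
        rw [mem_coe, mem_filter, mem_at]
        exact ⟨⟨hv.2.2.1, by simp⟩, hv.2.2.2⟩
      · intro v hv v' hv' heq
        rw [mem_coe, mem_filter] at hv hv'
        have h8 : v ∈ ({u, v'} : Finset V) := by
          have h9 : ({u, v} : Finset V) = {u, v'} := heq
          rw [← h9]
          simp
        rw [mem_insert, mem_singleton] at h8
        exact h8.resolve_left hv.2.1
    have h10 := (card_le_card h8).trans (card_union_le _ _)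
    omega
  · rintro ⟨u, w⟩ hp c hc hkc
    obtain ⟨d1, d2, d3, d4⟩ := hD _ hp
    exact hfull _ d3 w (by simp) d2 u (by simp) (by
      rintro rfl
      exact d2 d1) c hc ⟨_, hkc⟩
  · intro u hu
    rw [(hX u hu).2, hy, hdD, hR]
    simp only
    omega
  · intro u hu w
    refine (hDl (b u) w).trans ?_
    have h3 := hRu u
    rw [hR] at h3
    simp only at h3
    omega

end

end Pool.Agent.Run7.h320.D
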