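import Pool.Agent.Run7.h320.Star

/-!
# Exchange: spreading the unused colours
-/

set_option autoImplicit false

namespace Pool.Agent.Run7.h320.D

open Finset

section
variable {V C : Type} [DecidableEq V] [DecidableEq C]

/-- two values of a function are moved towards each other -/
theorem sq_lt [Fintype C] (f f' : C → ℕ) (a b : C) (hab : a ≠ b) (k : ℕ) (hk : 1 ≤ k)
    (ha : f' a + k = f a) (hb : f' b = f b + k) (ho : ∀ x, x ≠ a → x ≠ b → f' x = f x)
    (hlt : f b + k < f a) : ∑ x, f' x ^ 2 < ∑ x, f x ^ 2 := by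
  have h1 : ∀ g : C → ℕ, ∑ x, g x ^ 2 =
      g a ^ 2 + g b ^ 2 + ∑ x ∈ (univ.erase a).erase b, g x ^ 2 := by
    intro g
    rw [← add_sum_erase univ (fun x => g x ^ 2) (mem_univ a),
      ← add_sum_erase (univ.erase a) (fun x => g x ^ 2) (mem_erase.2 ⟨hab.symm, mem_univ b⟩)]
    ring
  rw [h1 f, h1 f']
  have h2 : ∑ x ∈ (univ.erase a).erase b, f' x ^ 2 = ∑ x ∈ (univ.erase a).erase b, f x ^ 2 := by
    apply sum_congr rfl
    intro x hx
    rw [mem_erase, mem_erase] at hx
    rw [ho x hx.2.1 hx.1]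
  rw [h2, hb, ← ha]
  have h3 : f b < f' a := by omega
  obtain ⟨s, hs⟩ : ∃ s, f' a = f b + 1 + s := ⟨f' a - f b - 1, by omega⟩
  rw [hs]
  nlinarith [Nat.zero_le s, Nat.zero_le (f b), Nat.zero_le (s * k)]

/-- the number of vertices of `Z` the set of which contains `c` -/
def cnt (Z : Finset V) (X : V → Finset C) (c : C) : ℕ := (Z.filter (fun u => c ∈ X u)).card

/-- replace `c` by `c'` in the set of `u` -/
def swp (X : V → Finset C) (u : V) (c c' : C) : V → Finset C :=
  Function.update X u (insert c' ((X u).erase c))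

theorem cnt_swp {Z : Finset V} {X : V → Finset C} {u : V} {c c' : C} (hu : u ∈ Z) (hc : c ∈ X u)
    (hc' : c' ∉ X u) : cnt Z (swp X u c c') c + 1 = cnt Z X c ∧
      cnt Z (swp X u c c') c' = cnt Z X c' + 1 ∧
      ∀ x, x ≠ c → x ≠ c' → cnt Z (swp X u c c') x = cnt Z X x := by
  have hcc : c ≠ c' := by
    rintro rfl
    exact hc' hc
  refine ⟨?_, ?_, ?_⟩
  · have h1 : Z.filter (fun v => c ∈ swp X u c c' v) = (Z.filter (fun v => c ∈ X v)).erase u := by
      ext v
      rw [mem_filter, mem_erase, mem_filter]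
      unfold swp
      by_cases hv : v = u
      · subst hv
        rw [Function.update_self, mem_insert, mem_erase]
        constructor
        · rintro ⟨_, h | h⟩
          · exact absurd h hcc
          · exact absurd rfl h.1
        · rintro ⟨h, _⟩
          exact absurd rfl h
      · rw [Function.update_of_ne hv]
        tauto
    unfold cnt
    rw [h1, card_erase_of_mem (mem_filter.2 ⟨hu, hc⟩)]
    have : 0 < (Z.filter (fun v => c ∈ X v)).card := card_pos.2 ⟨u, mem_filter.2 ⟨hu, hc⟩⟩
    omega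
  · have h1 : Z.filter (fun v => c' ∈ swp X u c c' v) = insert u (Z.filter (fun v => c' ∈ X v)) := by
      ext v
      rw [mem_filter, mem_insert, mem_filter]
      unfold swp
      by_cases hv : v = u
      · subst hv
        rw [Function.update_self, mem_insert]
        tauto
      · rw [Function.update_of_ne hv]
        tauto
    unfold cnt
    rw [h1, card_insert_of_notMem]
    intro h
    exact hc' (mem_filter.1 h).2
  · intro x hx hx'
    have h1 : Z.filter (fun v => x ∈ swp X u c c' v) = Z.filter (fun v => x ∈ X v) := by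
      apply filter_congr
      intro v _
      unfold swp
      by_cases hv : v = u
      · subst hv
        rw [Function.update_self, mem_insert, mem_erase]
        tauto
      · rw [Function.update_of_ne hv]
    unfold cnt
    rw [h1]

theorem card_swp {X : V → Finset C} {u : V} {c c' : C} (hc : c ∈ X u) (hc' : c' ∉ X u) (v : V) :
    (swp X u c c' v).card = (X v).card := by
  unfold swp
  by_cases hv : v = u
  · subst hv
    rw [Function.update_self, card_insert_of_notMem (fun h => hc' (mem_erase.1 h).2),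
      card_erase_of_mem hc]
    have : 0 < (X v).card := card_pos.2 ⟨c, hc⟩
    omega
  · rw [Function.update_of_ne hv]

theorem mem_us {F : Finset (Finset V)} {φ : Finset V → C} {v : V} {c : C} :
    c ∈ us F φ v ↔ ∃ e ∈ F, v ∈ e ∧ φ e = c := by
  unfold us
  rw [mem_image]
  constructor
  · rintro ⟨e, he, h⟩
    rw [mem_at] at he
    exact ⟨e, he.1, he.2, h⟩
  · rintro ⟨e, he, hv, h⟩
    exact ⟨e, mem_at.2 ⟨he, hv⟩, h⟩

/-- the exchange argument: `Q u` is the set of the colours that may be used at `u`, `y u` of the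
unused ones are chosen -/
theorem exch [Fintype C] {F : Finset (Finset V)} {L₁ : Finset V → Finset C} {Z : Finset V}
    {Q : V → Finset C} {y : V → ℕ} {q k : ℕ} {φ₀ : Finset V → C} (hφ₀ : Pr F L₁ φ₀)
    (hLQ : ∀ e ∈ F, ∀ u ∈ e, u ∈ Z → L₁ e ⊆ Q u)
    (hy : ∀ u ∈ Z, y u + (at' F u).card ≤ (Q u).card)
    (hsum : ∑ u ∈ Z, y u ≤ q * (k - 1)) (hk : 2 ≤ k)
    (hT : ∀ A ⊆ Z, k < A.card → ∀ c,
      (∀ u ∈ A, 1 ≤ y u ∧ c ∈ Q u ∧ (Q u).card ≤ (at' F u).card + y u + q) →
      ∃ u ∈ A, q < (A.filter (fun v => v ≠ u ∧ ({u, v} : Finset V) ∈ F ∧ c ∈ L₁ {u, v})).card) :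
    ∃ φ X, Pr F L₁ φ ∧ (∀ u ∈ Z, X u ⊆ Q u \ us F φ u ∧ (X u).card = y u) ∧
      ∀ c, cnt Z X c ≤ k := by
  classical
  let val : (V → Finset C) → ℕ := fun X => ∑ c, cnt Z X c ^ 2
  let ok : (Finset V → C) → (V → Finset C) → Prop := fun φ X =>
    Pr F L₁ φ ∧ ∀ u ∈ Z, X u ⊆ Q u \ us F φ u ∧ (X u).card = y u
  have husQ : ∀ φ, Pr F L₁ φ → ∀ u ∈ Z, us F φ u ⊆ Q u := by
    intro φ hφ u hu c hc
    obtain ⟨e, he, hue, rfl⟩ := mem_us.1 hc
    exact hLQ e he u hue hu (hφ.1 e he)
  have hhol : ∀ φ, Pr F L₁ φ → ∀ u ∈ Z, (Q u \ us F φ u).card + (at' F u).card = (Q u).card := by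
    intro φ hφ u hu
    have h1 := card_sdiff_add_card_eq_card (husQ φ hφ u hu)
    rw [card_us hφ] at h1
    exact h1
  have hex : ∃ n, ∃ φ X, ok φ X ∧ val X = n := by
    have h1 : ∀ u, ∃ S, u ∈ Z → S ⊆ Q u \ us F φ₀ u ∧ S.card = y u := by
      intro u
      by_cases hu : u ∈ Z
      · have h2 := hhol φ₀ hφ₀ u hu
        have h3 := hy u hu
        obtain ⟨S, hS1, hS2⟩ := exists_subset_card_eq (show y u ≤ (Q u \ us F φ₀ u).card by omega)
        exact ⟨S, fun _ => ⟨hS1, hS2⟩⟩
      · exact ⟨∅, fun h => absurd h hu⟩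
    choose X hX using h1
    exact ⟨_, φ₀, X, ⟨hφ₀, hX⟩, rfl⟩
  obtain ⟨φ, X, ⟨hφ, hX⟩, hval⟩ := Nat.find_spec hex
  have hmin : ∀ φ' X', ok φ' X' → ¬ val X' < val X := by
    intro φ' X' h hlt
    rw [hval] at hlt
    exact Nat.find_min hex hlt ⟨φ', X', h, rfl⟩
  refine ⟨φ, X, hφ, hX, ?_⟩
  intro c
  by_contra hcon
  push Not at hcon
  obtain ⟨A, hA⟩ : ∃ A, A = Z.filter (fun u => c ∈ X u) := ⟨_, rfl⟩
  have hAc : A.card = cnt Z X c := by rw [hA]; rfl
  obtain ⟨Bg, hBg⟩ : ∃ Bg : Finset C, Bg = univ.filter (fun c' => cnt Z X c ≤ cnt Z X c' + 2) :=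
    ⟨_, rfl⟩
  have hBgc : Bg.card ≤ q := by
    have h1 : Bg.card * (k - 1) ≤ ∑ c', cnt Z X c' := by
      calc Bg.card * (k - 1) = ∑ _c' ∈ Bg, (k - 1) := by rw [sum_const, smul_eq_mul]
        _ ≤ ∑ c' ∈ Bg, cnt Z X c' := by
            apply sum_le_sum
            intro c' hc'
            rw [hBg, mem_filter] at hc'
            omega
        _ ≤ ∑ c', cnt Z X c' := sum_le_sum_of_subset (subset_univ _)
    have h2 : ∑ c', cnt Z X c' = ∑ u ∈ Z, (X u).card := by
      unfold cnt
      have h3 := sum_card_bipartiteAbove_eq_sum_card_bipartiteBelow (s := (univ : Finset C))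
        (t := Z) (fun c' u => c' ∈ X u)
      unfold bipartiteAbove bipartiteBelow at h3
      rw [h3]
      apply sum_congr rfl
      intro u _
      congr 1
      ext x
      simp
    have h4 : ∑ u ∈ Z, (X u).card = ∑ u ∈ Z, y u := sum_congr rfl fun u hu => (hX u hu).2
    rw [h2, h4] at h1
    exact Nat.le_of_mul_le_mul_right (h1.trans hsum) (by omega)
  by_cases hcase : ∃ u ∈ A, y u + q < (Q u \ us F φ u).card
  · -- replace `c` by another unused colour
    obtain ⟨u, hu, hlt⟩ := hcase
    rw [hA, mem_filter] at hu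
    have h1 : ∃ c' ∈ Q u \ us F φ u, c' ∉ X u ∪ Bg := by
      by_contra hno
      push Not at hno
      have h2 : (Q u \ us F φ u).card ≤ (X u ∪ Bg).card := card_le_card hno
      have h3 := card_union_le (X u) Bg
      have h4 := (hX u hu.1).2
      omega
    obtain ⟨c', hc'1, hc'2⟩ := h1
    rw [mem_union, not_or] at hc'2
    have hc'B : cnt Z X c' + 2 < cnt Z X c := by
      by_contra hno
      exact hc'2.2 (by rw [hBg, mem_filter]; exact ⟨mem_univ _, by omega⟩)
    have hcc : c ≠ c' := by
      rintro rfl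
      exact hc'2.1 hu.2
    obtain ⟨e1, e2, e3⟩ := cnt_swp hu.1 hu.2 hc'2.1
    refine hmin φ (swp X u c c') ⟨hφ, ?_⟩ ?_
    · intro v hv
      refine ⟨?_, by rw [card_swp hu.2 hc'2.1]; exact (hX v hv).2⟩
      unfold swp
      by_cases hvu : v = u
      · subst hvu
        rw [Function.update_self]
        intro x hx
        rw [mem_insert] at hx
        rcases hx with rfl | hx
        · exact hc'1
        · exact (hX v hv).1 (mem_of_mem_erase hx)
      · rw [Function.update_of_ne hvu]
        exact (hX v hv).1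
    · exact sq_lt _ _ c c' hcc 1 le_rfl e1 e2 e3 (by omega)
  · push Not at hcase
    obtain ⟨u, hu, hcard⟩ := hT A (by rw [hA]; exact filter_subset _ _) (by omega) c (by
      intro u hu
      have h1 := hcase u hu
      rw [hA, mem_filter] at hu
      have h2 := hhol φ hφ u hu.1
      have h3 : 0 < (X u).card := card_pos.2 ⟨c, hu.2⟩
      rw [(hX u hu.1).2] at h3
      refine ⟨h3, (mem_sdiff.1 ((hX u hu.1).1 hu.2)).1, by omega⟩)
    set S := A.filter (fun v => v ≠ u ∧ ({u, v} : Finset V) ∈ F ∧ c ∈ L₁ {u, v}) with hS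
    have h1 : ∃ v ∈ S, φ {u, v} ∉ Bg := by
      by_contra hno
      push Not at hno
      have h2 : S.card ≤ Bg.card := by
        refine card_le_card_of_injOn (fun v => φ {u, v}) hno ?_
        intro v hv v' hv' heq
        rw [mem_coe, hS, mem_filter] at hv hv'
        by_contra hne
        have h3 : ({u, v} : Finset V) ≠ {u, v'} := by
          intro h
          have : v ∈ ({u, v'} : Finset V) := by rw [← h]; simp
          rw [mem_insert, mem_singleton] at this
          rcases this with h | h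
          · exact hv.2.1 h
          · exact hne h
        exact hφ.2 _ hv.2.2.1 _ hv'.2.2.1 h3 ⟨u, by simp⟩ heq
      omega
    obtain ⟨v, hv, hvB⟩ := h1
    rw [hS, mem_filter] at hv
    obtain ⟨hvA, hvu, hF, hcL⟩ := hv
    rw [hA, mem_filter] at hu hvA
    obtain ⟨e, he⟩ : ∃ e : Finset V, e = {u, v} := ⟨_, rfl⟩
    rw [← he] at hF hcL hvB
    obtain ⟨c', hc'⟩ : ∃ c', c' = φ e := ⟨_, rfl⟩
    rw [← hc'] at hvB
    have hue : u ∈ e := by rw [he]; simp
    have hve : v ∈ e := by rw [he]; simp
    have hc'B : cnt Z X c' + 2 < cnt Z X c := by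
      by_contra hno
      exact hvB (by rw [hBg, mem_filter]; exact ⟨mem_univ _, by omega⟩)
    have hc'u : c' ∉ X u := by
      intro h
      exact (mem_sdiff.1 ((hX u hu.1).1 h)).2 (mem_us.2 ⟨e, hF, hue, hc'.symm⟩)
    have hc'v : c' ∉ X v := by
      intro h
      exact (mem_sdiff.1 ((hX v hvA.1).1 h)).2 (mem_us.2 ⟨e, hF, hve, hc'.symm⟩)
    have hcc : c ≠ c' := by
      rintro rfl
      exact hc'u hu.2
    have hcu : ∀ f ∈ F, u ∈ f → φ f ≠ c := by
      intro f hf huf h
      exact (mem_sdiff.1 ((hX u hu.1).1 hu.2)).2 (mem_us.2 ⟨f, hf, huf, h⟩)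
    have hcv : ∀ f ∈ F, v ∈ f → φ f ≠ c := by
      intro f hf hvf h
      exact (mem_sdiff.1 ((hX v hvA.1).1 hvA.2)).2 (mem_us.2 ⟨f, hf, hvf, h⟩)
    have hmeet : ∀ f : Finset V, (f ∩ e).Nonempty → u ∈ f ∨ v ∈ f := by
      rintro f ⟨x, hx⟩
      rw [mem_inter, he, mem_insert, mem_singleton] at hx
      rcases hx.2 with rfl | rfl
      · exact Or.inl hx.1
      · exact Or.inr hx.1
    obtain ⟨φ', hφ'⟩ : ∃ φ', φ' = Function.update φ e c := ⟨_, rfl⟩
    have hφ'e : φ' e = c := by rw [hφ', Function.update_self]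
    have hφ'o : ∀ f, f ≠ e → φ' f = φ f := by
      intro f hf
      rw [hφ', Function.update_of_ne hf]
    have hPr : Pr F L₁ φ' := by
      refine ⟨fun f hf => ?_, fun f hf f' hf' hne hmt => ?_⟩
      · by_cases hfe : f = e
        · rw [hfe, hφ'e]
          exact hcL
        · rw [hφ'o f hfe]
          exact hφ.1 f hf
      · by_cases hfe : f = e
        · have hf'e : f' ≠ e := fun h => hne (hfe.trans h.symm)
          rw [hfe, hφ'e, hφ'o f' hf'e]
          rw [hfe, inter_comm] at hmt
          intro h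
          rcases hmeet f' hmt with h' | h'
          · exact hcu f' hf' h' h.symm
          · exact hcv f' hf' h' h.symm
        · by_cases hf'e : f' = e
          · rw [hf'e, hφ'e, hφ'o f hfe]
            rw [hf'e] at hmt
            intro h
            rcases hmeet f hmt with h' | h'
            · exact hcu f hf h' h
            · exact hcv f hf h' h
          · rw [hφ'o f hfe, hφ'o f' hf'e]
            exact hφ.2 f hf f' hf' hne hmt
    -- the used colours
    have hus : ∀ x, ∀ z, z ∈ us F φ' x → z = c ∨ z ∈ us F φ x := by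
      intro x z hz
      obtain ⟨f, hf, hxf, hfz⟩ := mem_us.1 hz
      by_cases hfe : f = e
      · left
        rw [← hfz, hfe, hφ'e]
      · right
        rw [hφ'o f hfe] at hfz
        exact mem_us.2 ⟨f, hf, hxf, hfz⟩
    have hus2 : ∀ x, x ∉ e → c ∈ us F φ' x → c ∈ us F φ x := by
      intro x hx hz
      obtain ⟨f, hf, hxf, hfz⟩ := mem_us.1 hz
      by_cases hfe : f = e
      · exact absurd (hfe ▸ hxf) hx
      · rw [hφ'o f hfe] at hfz
        exact mem_us.2 ⟨f, hf, hxf, hfz⟩
    have hus3 : ∀ x, x ∈ e → c' ∉ us F φ' x := by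
      intro x hx hz
      obtain ⟨f, hf, hxf, hfz⟩ := mem_us.1 hz
      by_cases hfe : f = e
      · rw [hfe, hφ'e] at hfz
        exact hcc hfz
      · rw [hφ'o f hfe, hc'] at hfz
        exact hφ.2 f hf e hF hfe ⟨x, mem_inter.2 ⟨hxf, hx⟩⟩ hfz
    have hvZ := hvA.1
    have hX1v : v ≠ u := hvu
    have hcX1 : c ∈ swp X u c c' v := by
      unfold swp
      rw [Function.update_of_ne hvu]
      exact hvA.2
    have hc'X1 : c' ∉ swp X u c c' v := by
      unfold swp
      rw [Function.update_of_ne hvu]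
      exact hc'v
    obtain ⟨a1, a2, a3⟩ := cnt_swp hu.1 hu.2 hc'u
    obtain ⟨b1, b2, b3⟩ := cnt_swp hvZ hcX1 hc'X1
    refine hmin φ' (swp (swp X u c c') v c c') ⟨hPr, ?_⟩ ?_
    · intro x hx
      refine ⟨?_, by rw [card_swp hcX1 hc'X1, card_swp hu.2 hc'u]; exact (hX x hx).2⟩
      have hgen : ∀ x ∈ Z, x ∈ e → insert c' ((X x).erase c) ⊆ Q x \ us F φ' x := by
        intro x hx hxe z hz
        rw [mem_insert] at hz
        rcases hz with rfl | hz
        · rw [mem_sdiff]
          refine ⟨?_, hus3 x hxe⟩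
          rw [hc']
          exact hLQ e hF x hxe hx (hφ.1 e hF)
        · rw [mem_erase] at hz
          have h1 := mem_sdiff.1 ((hX x hx).1 hz.2)
          rw [mem_sdiff]
          refine ⟨h1.1, fun h => ?_⟩
          rcases hus x z h with h | h
          · exact hz.1 h
          · exact h1.2 h
      by_cases hxv : x = v
      · subst hxv
        unfold swp
        rw [Function.update_self, Function.update_of_ne hvu]
        exact hgen x hx hve
      · unfold swp
        rw [Function.update_of_ne hxv]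
        by_cases hxu : x = u
        · subst hxu
          rw [Function.update_self]
          exact hgen x hx hue
        · rw [Function.update_of_ne hxu]
          have hxe : x ∉ e := by
            rw [he, mem_insert, mem_singleton]
            tauto
          intro z hz
          have h1 := mem_sdiff.1 ((hX x hx).1 hz)
          rw [mem_sdiff]
          refine ⟨h1.1, fun h => ?_⟩
          rcases hus x z h with h' | h'
          · rw [h'] at h
            rw [h'] at h1
            exact h1.2 (hus2 x hxe h)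
          · exact h1.2 h'
    · refine sq_lt _ _ c c' hcc 2 (by norm_num) (by omega) (by omega) ?_ (by omega)
      intro x hx hx'
      rw [b3 x hx hx', a3 x hx hx']

end

end Pool.Agent.Run7.h320.D
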