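import Pool.Agent.Run7.h320.D.Bk
import Pool.Agent.Run7.h320.D.Exch

/-!
# The last two steps: hosting the unused colours, and the reserved colours
-/

set_option autoImplicit false

namespace Pool.Agent.Run7.h320.D

open Finset

section
variable {V C T M : Type} [Fintype V] [DecidableEq V] [Fintype C] [DecidableEq C]
  [Fintype M] [DecidableEq T] [DecidableEq M]

omit [Fintype V] in
theorem pair_inj {Z : Finset V} {u w u' w' : V} (hu : u ∈ Z) (hw : w ∉ Z) (hu' : u' ∈ Z)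
    (hw' : w' ∉ Z) (h : ({u, w} : Finset V) = {u', w'}) : u = u' ∧ w = w' := by
  have h1 : u ∈ ({u', w'} : Finset V) := by rw [← h]; simp
  have h2 : w ∈ ({u', w'} : Finset V) := by rw [← h]; simp
  rw [mem_insert, mem_singleton] at h1 h2
  refine ⟨?_, ?_⟩
  · rcases h1 with h1 | h1
    · exact h1
    · exact absurd (h1 ▸ hu) hw'
  · rcases h2 with h2 | h2
    · exact absurd (h2 ▸ hu') hw
    · exact h2

omit [Fintype M] in
/-- hosting: the colours of `X u` are given to edges of `D` at `u` -/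
theorem host {Z : Finset V} {D : Finset (V × V)} {L : Finset V → Finset C} {X : V → Finset C}
    {cl : V → T ⊕ M} {kc : C → T ⊕ M} {k : ℕ} [Nonempty V]
    (hXk : ∀ u ∈ Z, (X u).card ≤ k) (hcnt : ∀ c, cnt Z X c ≤ k)
    (hW : ∀ u ∈ Z, ∀ c ∈ X u,
      k ≤ (univ.filter (fun w => (u, w) ∈ D ∧ cl w = kc c ∧ c ∈ L {u, w})).card) :
    ∃ ω : V → C → V, (∀ u ∈ Z, ∀ c ∈ X u, (u, ω u c) ∈ D ∧ cl (ω u c) = kc c ∧ c ∈ L {u, ω u c}) ∧
      (∀ u ∈ Z, ∀ c ∈ X u, ∀ c' ∈ X u, ω u c = ω u c' → c = c') ∧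
      ∀ u ∈ Z, ∀ u' ∈ Z, ∀ c ∈ X u, c ∈ X u' → ω u c = ω u' c → u = u' := by
  classical
  obtain ⟨E, hE⟩ : ∃ E : Finset (V × C), E = (Z ×ˢ univ).filter (fun p => p.2 ∈ X p.1) := ⟨_, rfl⟩
  have hmem : ∀ u c, (u, c) ∈ E ↔ u ∈ Z ∧ c ∈ X u := by
    intro u c
    rw [hE, mem_filter, mem_product]
    simp
  obtain ⟨φ, h1, h2⟩ := bk (γ := V) E
    (fun p => univ.filter (fun w => (p.1, w) ∈ D ∧ cl w = kc p.2 ∧ p.2 ∈ L {p.1, w})) (by
      rintro ⟨u, c⟩ he
      rw [hmem] at he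
      refine le_trans ?_ ((hXk u he.1).trans (hW u he.1 c he.2))
      refine card_le_card_of_injOn (fun p => p.2) ?_ ?_
      · rintro ⟨u', c'⟩ hp
        rw [mem_coe, mem_filter, hmem] at hp
        obtain ⟨⟨_, h⟩, rfl⟩ := hp
        exact h
      · rintro ⟨u', c'⟩ hp ⟨u'', c''⟩ hp' heq
        rw [mem_coe, mem_filter] at hp hp'
        exact Prod.ext (hp.2.trans hp'.2.symm) heq) (by
      rintro ⟨u, c⟩ he
      rw [hmem] at he
      refine le_trans ?_ ((hcnt c).trans (hW u he.1 c he.2))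
      refine card_le_card_of_injOn (fun p => p.1) ?_ ?_
      · rintro ⟨u', c'⟩ hp
        rw [mem_coe, mem_filter, hmem] at hp
        obtain ⟨⟨h, h'⟩, rfl⟩ := hp
        exact mem_filter.2 ⟨h, h'⟩
      · rintro ⟨u', c'⟩ hp ⟨u'', c''⟩ hp' heq
        rw [mem_coe, mem_filter] at hp hp'
        exact Prod.ext heq (hp.2.trans hp'.2.symm))
  refine ⟨fun u c => φ (u, c), ?_, ?_, ?_⟩
  · intro u hu c hc
    have h3 := h1 (u, c) ((hmem u c).2 ⟨hu, hc⟩)
    rw [mem_filter] at h3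
    exact h3.2
  · intro u hu c hc c' hc' heq
    by_contra hne
    exact h2 (u, c) ((hmem u c).2 ⟨hu, hc⟩) (u, c') ((hmem u c').2 ⟨hu, hc'⟩)
      (fun h => hne (congrArg Prod.snd h).symm) (Or.inl rfl) heq.symm
  · intro u hu u' hu' c hc hc' heq
    by_contra hne
    exact h2 (u, c) ((hmem u c).2 ⟨hu, hc⟩) (u', c) ((hmem u' c).2 ⟨hu', hc'⟩)
      (fun h => hne (congrArg Prod.fst h).symm) (Or.inr rfl) heq.symm

/-- the last two steps -/
theorem fin {H : Finset (Finset V)} {Z : Finset V} {D : Finset (V × V)}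
    {L L₁ : Finset V → Finset C} {P X : V → Finset C} {φ : Finset V → C}
    {cl : V → T ⊕ M} {kc : C → T ⊕ M} {b : V → M} {k : ℕ} [Nonempty V] [Nonempty C]
    {B : Finset (Finset V)} (hB : B = D.image (fun p => ({p.1, p.2} : Finset V)))
    (hD : ∀ p ∈ D, p.1 ∈ Z ∧ p.2 ∉ Z ∧ ({p.1, p.2} : Finset V) ∈ H ∧ cl p.2 ≠ Sum.inr (b p.1))
    (hφ : Pr (H \ B) L₁ φ) (hLL : ∀ e ∈ H \ B, L₁ e ⊆ L e)
    (hLZ : ∀ e ∈ H \ B, ∀ u ∈ e, u ∈ Z → ∀ c ∈ L₁ e, kc c ≠ Sum.inr (b u))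
    (hLW : ∀ e ∈ H \ B, ∀ w ∈ e, w ∉ Z → ∀ c ∈ L₁ e, kc c ≠ cl w ∧ ∀ i : M, kc c ≠ Sum.inr i)
    (hX : ∀ u ∈ Z, X u ⊆ (P u).filter (fun c => kc c ≠ Sum.inr (b u)) \ us (H \ B) φ u)
    (hXk : ∀ u ∈ Z, (X u).card ≤ k) (hcnt : ∀ c, cnt Z X c ≤ k)
    (hW : ∀ u ∈ Z, ∀ c ∈ X u,
      k ≤ (univ.filter (fun w => (u, w) ∈ D ∧ cl w = kc c ∧ c ∈ L {u, w})).card)
    (hfull : ∀ p ∈ D, ∀ c ∈ P p.1, kc c = Sum.inr (b p.1) → c ∈ L {p.1, p.2})
    (hdeg : ∀ u ∈ Z, (D.filter (fun p => p.1 = u)).card ≤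
      (X u).card + ((P u).filter (fun c => kc c = Sum.inr (b u))).card)
    (hlam : ∀ u ∈ Z, ∀ w, (D.filter (fun p => p.2 = w ∧ b p.1 = b u)).card ≤
      ((P u).filter (fun c => kc c = Sum.inr (b u))).card) :
    ∃ χ, Pr H L χ := by
  classical
  obtain ⟨ω, o1, o2, o3⟩ := host (cl := cl) (kc := kc) (L := L) (D := D) hXk hcnt hW
  have hBH : B ⊆ H := by
    intro e he
    rw [hB, mem_image] at he
    obtain ⟨p, hp, rfl⟩ := he
    exact (hD p hp).2.2.1
  -- the hosted edges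
  obtain ⟨Dh, hDh⟩ : ∃ Dh : Finset (V × V), Dh = D.filter (fun p => ∃ c ∈ X p.1, ω p.1 c = p.2) :=
    ⟨_, rfl⟩
  obtain ⟨Bh, hBh⟩ : ∃ Bh : Finset (Finset V), Bh = Dh.image (fun p => ({p.1, p.2} : Finset V)) :=
    ⟨_, rfl⟩
  have hcol : ∀ e : Finset V, ∃ c, e ∈ Bh → ∃ u ∈ Z, c ∈ X u ∧ e = {u, ω u c} := by
    intro e
    by_cases he : e ∈ Bh
    · rw [hBh, mem_image] at he
      obtain ⟨p, hp, rfl⟩ := he
      rw [hDh, mem_filter] at hp
      obtain ⟨hpD, c, hc, hcp⟩ := hp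
      exact ⟨c, fun _ => ⟨p.1, (hD p hpD).1, hc, by rw [hcp]⟩⟩
    · exact ⟨Classical.arbitrary C, fun h => absurd h he⟩
  choose ψ₁ hψ₁ using hcol
  have hPr1 : Pr (H \ B) L φ := ⟨fun e he => hLL e he (hφ.1 e he), hφ.2⟩
  have hψPr : Pr Bh (red (H \ B) L φ) ψ₁ := by
    refine ⟨fun e he => ?_, fun e he f hf hef hmt => ?_⟩
    · obtain ⟨u, hu, hc, heq⟩ := hψ₁ e he
      obtain ⟨a1, a2, a3⟩ := o1 u hu _ hc
      rw [← heq] at a3
      rw [mem_red]
      refine ⟨a3, ?_⟩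
      rintro f hf ⟨x, hx⟩ hcf
      rw [mem_inter, heq, mem_insert, mem_singleton] at hx
      rcases hx.2 with h | h
      · subst h
        exact (mem_sdiff.1 (hX x hu hc)).2 (mem_us.2 ⟨f, hf, hx.1, hcf⟩)
      · have h1 := hD _ a1
        have h2 := hLW f hf x hx.1 (h ▸ h1.2.1) _ (hφ.1 f hf)
        rw [h, a2, hcf] at h2
        exact h2.1 rfl
    · obtain ⟨u, hu, hc, heq⟩ := hψ₁ e he
      obtain ⟨u', hu', hc', heq'⟩ := hψ₁ f hf
      intro hcc
      obtain ⟨c, hcd⟩ : ∃ c, ψ₁ f = c := ⟨_, rfl⟩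
      rw [hcd] at hc' heq' hcc
      rw [hcc] at hc heq
      obtain ⟨x, hx⟩ := hmt
      rw [mem_inter, heq, heq', mem_insert, mem_singleton, mem_insert, mem_singleton] at hx
      have g1 := (hD _ (o1 u hu _ hc).1).2.1
      have g2 := (hD _ (o1 u' hu' _ hc').1).2.1
      simp only at g1 g2
      have huu : u = u' := by
        rcases hx.1 with h | h <;> rcases hx.2 with h' | h'
        · rw [← h, ← h']
        · exact absurd (h' ▸ h ▸ hu) g2
        · exact absurd (h ▸ h' ▸ hu') g1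
        · exact o3 u hu u' hu' _ hc hc' (h.symm.trans h')
      apply hef
      rw [heq, heq', huu]
  obtain ⟨χ₁, hχ1, hχ2, hχ3⟩ := glue hPr1 hψPr
  -- the remaining edges
  obtain ⟨Dr, hDr⟩ : ∃ Dr : Finset (V × V), Dr = D \ Dh := ⟨_, rfl⟩
  obtain ⟨Er, hEr⟩ : ∃ Er : Finset (V × (V × M)), Er = Dr.image (fun p => (p.1, (p.2, b p.1))) :=
    ⟨_, rfl⟩
  have hcardh : ∀ u ∈ Z, (X u).card ≤ (Dh.filter (fun p => p.1 = u)).card := by
    intro u hu
    refine card_le_card_of_injOn (fun c => (u, ω u c)) ?_ ?_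
    · intro c hc
      rw [mem_coe, mem_filter, hDh, mem_filter]
      exact ⟨⟨(o1 u hu c hc).1, c, hc, rfl⟩, rfl⟩
    · intro c hc c' hc' heq
      exact o2 u hu c hc c' hc' (congrArg Prod.snd heq)
  have hDhD : Dh ⊆ D := by
    rw [hDh]
    exact filter_subset _ _
  obtain ⟨ψ₂, p1, p2⟩ := bk Er
    (fun p => (P p.1).filter (fun c => kc c = Sum.inr (b p.1))) (by
      rintro ⟨u, w, i⟩ he
      rw [hEr, mem_image] at he
      obtain ⟨p, hp, hpe⟩ := he
      rw [hDr, mem_sdiff] at hp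
      have hpu : p.1 = u := congrArg Prod.fst hpe
      have hu : u ∈ Z := hpu ▸ (hD p hp.1).1
      have h1 : (Er.filter (fun f => f.1 = u)).card ≤ (Dr.filter (fun p => p.1 = u)).card := by
        refine le_trans (card_le_card (t := (Dr.filter (fun p => p.1 = u)).image
          (fun p => (p.1, (p.2, b p.1)))) ?_) card_image_le
        intro f hf
        rw [mem_filter, hEr, mem_image] at hf
        obtain ⟨⟨p', hp', rfl⟩, hf2⟩ := hf
        exact mem_image.2 ⟨p', mem_filter.2 ⟨hp', hf2⟩, rfl⟩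
      have h2 : (Dr.filter (fun p => p.1 = u)).card + (Dh.filter (fun p => p.1 = u)).card =
          (D.filter (fun p => p.1 = u)).card := by
        rw [hDr, ← card_union_of_disjoint]
        · congr 1
          ext x
          rw [mem_union, mem_filter, mem_filter, mem_filter, mem_sdiff]
          constructor
          · rintro (⟨⟨h, _⟩, h'⟩ | ⟨h, h'⟩)
            · exact ⟨h, h'⟩
            · exact ⟨hDhD h, h'⟩
          · rintro ⟨h, h'⟩
            by_cases hx : x ∈ Dh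
            · exact Or.inr ⟨hx, h'⟩
            · exact Or.inl ⟨⟨h, hx⟩, h'⟩
        · rw [disjoint_left]
          intro x hx hx'
          rw [mem_filter, mem_sdiff] at hx
          exact hx.1.2 (mem_filter.1 hx').1
      have h3 := hdeg u hu
      have h4 := hcardh u hu
      show (Er.filter (fun f => f.1 = u)).card ≤ _
      simp only
      omega) (by
      rintro ⟨u, w, i⟩ he
      rw [hEr, mem_image] at he
      obtain ⟨p, hp, hpe⟩ := he
      rw [hDr, mem_sdiff] at hp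
      have hpu : p.1 = u := congrArg Prod.fst hpe
      have hpi : b p.1 = i := congrArg (fun x => x.2.2) hpe
      have hu : u ∈ Z := hpu ▸ (hD p hp.1).1
      refine le_trans ?_ (hlam u hu w)
      refine le_trans (card_le_card (t := (D.filter (fun p => p.2 = w ∧ b p.1 = b u)).image
          (fun p => (p.1, (p.2, b p.1)))) ?_) card_image_le
      intro f hf
      rw [mem_filter, hEr, mem_image] at hf
      obtain ⟨⟨p', hp', rfl⟩, hf2⟩ := hf
      simp only [Prod.mk.injEq] at hf2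
      rw [hDr, mem_sdiff] at hp'
      refine mem_image.2 ⟨p', mem_filter.2 ⟨hp'.1, hf2.1, ?_⟩, rfl⟩
      rw [hf2.2, ← hpi, hpu])
  -- the colouring of the remaining edges
  obtain ⟨Br, hBr⟩ : ∃ Br : Finset (Finset V), Br = Dr.image (fun p => ({p.1, p.2} : Finset V)) :=
    ⟨_, rfl⟩
  have hcol2 : ∀ e : Finset V, ∃ c, e ∈ Br → ∃ p ∈ Dr, e = {p.1, p.2} ∧
      c = ψ₂ (p.1, (p.2, b p.1)) := by
    intro e
    by_cases he : e ∈ Br
    · rw [hBr, mem_image] at he
      obtain ⟨p, hp, rfl⟩ := he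
      exact ⟨ψ₂ (p.1, (p.2, b p.1)), fun _ => ⟨p, hp, rfl, rfl⟩⟩
    · exact ⟨Classical.arbitrary C, fun h => absurd h he⟩
  choose ψ₃ hψ₃ using hcol2
  have hDrD : ∀ p ∈ Dr, p ∈ D := fun p hp => by
    rw [hDr, mem_sdiff] at hp
    exact hp.1
  have hErm : ∀ p ∈ Dr, (p.1, (p.2, b p.1)) ∈ Er := by
    intro p hp
    rw [hEr]
    exact mem_image.2 ⟨p, hp, rfl⟩
  have hψ3Pr : Pr Br (red (H \ B ∪ Bh) L χ₁) ψ₃ := by
    refine ⟨fun e he => ?_, fun e he f hf hef hmt => ?_⟩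
    · obtain ⟨p, hp, heq, hc⟩ := hψ₃ e he
      have h1 := p1 _ (hErm p hp)
      rw [← hc, mem_filter] at h1
      simp only at h1
      have hpD := hDrD p hp
      obtain ⟨d1, d2, d3, d4⟩ := hD p hpD
      rw [mem_red]
      refine ⟨by
        have h5 := hfull p hpD _ h1.1 h1.2
        rw [← heq] at h5
        exact h5, ?_⟩
      rintro f hf ⟨x, hx⟩ hcf
      rw [mem_inter, heq, mem_insert, mem_singleton] at hx
      by_cases hfF : f ∈ H \ B
      · rw [hχ2 f hfF] at hcf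
        rcases hx.2 with h | h
        · have h2 := hLZ f hfF x hx.1 (h ▸ d1) _ (hφ.1 f hfF)
          rw [hcf, h] at h2
          exact h2 h1.2
        · have h2 := (hLW f hfF x hx.1 (h ▸ d2) _ (hφ.1 f hfF)).2 (b p.1)
          rw [hcf] at h2
          exact h2 h1.2
      · have hfBh : f ∈ Bh := (mem_union.1 hf).resolve_left hfF
        rw [hχ3 f hfBh hfF] at hcf
        obtain ⟨u, hu, hcu, hfeq⟩ := hψ₁ f hfBh
        obtain ⟨a1, a2, a3⟩ := o1 u hu _ hcu
        obtain ⟨e1, e2, e3, e4⟩ := hD _ a1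
        simp only at e1 e2 e3 e4
        have hx1 := hx.1
        rw [hfeq, mem_insert, mem_singleton] at hx1
        rcases hx.2 with h | h
        · rcases hx1 with h' | h'
          · have h2 := (mem_filter.1 (mem_sdiff.1 (hX u hu hcu)).1).2
            rw [hcf, ← h', h] at h2
            exact h2 h1.2
          · exact e2 (h' ▸ h ▸ d1)
        · rcases hx1 with h' | h'
          · exact d2 (h ▸ h' ▸ hu)
          · rw [← h', h, hcf, h1.2] at a2
            exact d4 a2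
    · obtain ⟨p, hp, heq, hc⟩ := hψ₃ e he
      obtain ⟨p', hp', heq', hc'⟩ := hψ₃ f hf
      have hne : (p'.1, (p'.2, b p'.1)) ≠ (p.1, (p.2, b p.1)) := by
        intro h
        apply hef
        have h1 := congrArg Prod.fst h
        have h2 := congrArg (fun x => x.2.1) h
        simp only at h1 h2
        rw [heq, heq', h1, h2]
      obtain ⟨d1, d2, d3, d4⟩ := hD p (hDrD p hp)
      obtain ⟨e1, e2, e3, e4⟩ := hD p' (hDrD p' hp')
      obtain ⟨x, hx⟩ := hmt
      rw [mem_inter, heq, heq', mem_insert, mem_singleton, mem_insert, mem_singleton] at hx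
      rw [hc, hc']
      rcases hx.1 with h | h <;> rcases hx.2 with h' | h'
      · exact (p2 _ (hErm p hp) _ (hErm p' hp') hne (Or.inl (h'.symm.trans h))).symm
      · exact absurd (h' ▸ h ▸ d1) e2
      · exact absurd (h ▸ h' ▸ e1) d2
      · by_cases hb : b p.1 = b p'.1
        · exact (p2 _ (hErm p hp) _ (hErm p' hp') hne
            (Or.inr (Prod.ext (h'.symm.trans h) hb.symm))).symm
        · intro hh
          have h3 := (mem_filter.1 (p1 _ (hErm p hp))).2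
          have h4 := (mem_filter.1 (p1 _ (hErm p' hp'))).2
          rw [hh] at h3
          rw [h3] at h4
          exact hb (Sum.inr_injective h4)
  obtain ⟨χ, hχ, -, -⟩ := glue hχ1 hψ3Pr
  refine ⟨χ, ?_⟩
  have hall : H ⊆ H \ B ∪ Bh ∪ Br := by
    intro e he
    by_cases heB : e ∈ B
    · rw [hB, mem_image] at heB
      obtain ⟨p, hp, rfl⟩ := heB
      by_cases hph : p ∈ Dh
      · refine mem_union_left _ (mem_union_right _ ?_)
        rw [hBh]
        exact mem_image.2 ⟨p, hph, rfl⟩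
      · refine mem_union_right _ ?_
        rw [hBr]
        exact mem_image.2 ⟨p, by rw [hDr, mem_sdiff]; exact ⟨hp, hph⟩, rfl⟩
    · exact mem_union_left _ (mem_union_left _ (mem_sdiff.2 ⟨he, heB⟩))
  exact ⟨fun e he => hχ.1 e (hall he), fun e he f hf => hχ.2 e (hall he) f (hall hf)⟩

end

end Pool.Agent.Run7.h320.D
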