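import Pool.Agent.Run7.h320.D.Main

/-!
# The core theorem for simple graphs
-/

set_option autoImplicit false
set_option linter.unusedSectionVars false

namespace Pool.Agent.Run7.h320.D

open Finset

theorem pair_eq_left {V : Type} [DecidableEq V] {u x y : V} (h : ({u, x} : Finset V) = {u, y}) :
    x = y := by
  have h1 : x ∈ ({u, y} : Finset V) := by
    rw [← h]
    simp
  have h2 : y ∈ ({u, x} : Finset V) := by
    rw [h]
    simp
  rw [mem_insert, mem_singleton] at h1 h2
  rcases h1 with h1 | h1
  · rcases h2 with h2 | h2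
    · rw [h1, h2]
    · exact h2.symm
  · exact h1

theorem coreG (δ : ℝ) (hδ0 : 0 < δ) (hδ1 : δ ≤ 1) : ∃ ε : ℝ, 0 < ε ∧ ∃ n₀ : ℕ,
    ∀ (V C : Type) [Fintype V] [DecidableEq V] [Fintype C] [DecidableEq C]
      (G : SimpleGraph V) [DecidableRel G.Adj] (P : V → Finset C) (W₀ : Finset V)
      (R₀ : Finset C) (e : ℕ), n₀ ≤ Fintype.card V → (e : ℝ) ≤ ε * Fintype.card V →
      (∀ c, (univ.filter (fun u => c ∉ P u)).card ≤ e) →
      (∀ u, (univ.filter (fun v => G.Adj u v)).card ≤ (P u).card) →
      (∀ u, Fintype.card C ≤ (P u).card + e) →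
      Fintype.card V ≤ Fintype.card C + e → Fintype.card C ≤ 2 * Fintype.card V →
      δ * Fintype.card V ≤ W₀.card →
      (∀ w ∈ W₀, ((univ.filter (fun v => G.Adj w v)).card : ℝ) ≤ (1 - δ) * Fintype.card V) →
      δ * Fintype.card V ≤ R₀.card →
      (∀ w ∈ W₀, R₀ ⊆ P w) →
      ∃ χ : Sym2 V → C, (∀ u v, G.Adj u v → χ s(u, v) ∈ P u) ∧
        ∀ u v w, G.Adj u v → G.Adj u w → v ≠ w → χ s(u, v) ≠ χ s(u, w) := by
  classical
  obtain ⟨ε, hε, n₀, h⟩ := core δ hδ0 hδ1
  refine ⟨ε / 2, by positivity, n₀, ?_⟩
  intro V C _ _ _ _ G _ P W₀ R₀ e hn he hmis hdeg hP hVC hCV hW₀ hW₀d hR₀ hfull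
  obtain ⟨H, hH⟩ : ∃ H : Finset (Finset V), H = univ.filter (fun f => ∃ u v, G.Adj u v ∧
    f = {u, v}) := ⟨_, rfl⟩
  obtain ⟨L, hL⟩ : ∃ L : Finset V → Finset C, L = fun f => univ.filter (fun c => ∀ u ∈ f,
    c ∈ P u) := ⟨_, rfl⟩
  have memH : ∀ f, f ∈ H ↔ ∃ u v, G.Adj u v ∧ f = {u, v} := by
    intro f
    rw [hH, mem_filter]
    simp
  have memL : ∀ f c, c ∈ L f ↔ ∀ u ∈ f, c ∈ P u := by
    intro f c
    rw [hL]
    simp
  have hat : ∀ u f, f ∈ at' H u ↔ ∃ v, G.Adj u v ∧ f = {u, v} := by
    intro u f
    rw [mem_at, memH]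
    constructor
    · rintro ⟨⟨x, y, hxy, rfl⟩, hu⟩
      rw [mem_insert, mem_singleton] at hu
      rcases hu with rfl | rfl
      · exact ⟨y, hxy, rfl⟩
      · exact ⟨x, hxy.symm, pair_comm _ _⟩
    · rintro ⟨v, huv, rfl⟩
      exact ⟨⟨u, v, huv, rfl⟩, by simp⟩
  have hatc : ∀ u, (at' H u).card = (univ.filter (fun v => G.Adj u v)).card := by
    intro u
    symm
    refine card_bij (fun v _ => ({u, v} : Finset V)) ?_ ?_ ?_
    · intro v hv
      exact (hat u _).2 ⟨v, (mem_filter.1 hv).2, rfl⟩
    · intro v _ w _ heq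
      exact pair_eq_left heq
    · intro f hf
      obtain ⟨v, hv, rfl⟩ := (hat u f).1 hf
      exact ⟨v, mem_filter.2 ⟨mem_univ _, hv⟩, rfl⟩
  obtain ⟨χ, hχ1, hχ2⟩ := h V C H L P W₀ R₀ (2 * e) hn (by
      push_cast
      linarith) (by
      intro f hf
      obtain ⟨u, v, huv, rfl⟩ := (memH f).1 hf
      exact card_pair huv.ne) (by
      intro f _ u hu c hc
      exact (memL f c).1 hc u hu) (by
      intro f hf
      obtain ⟨u, v, huv, rfl⟩ := (memH f).1 hf
      have h1 : (univ : Finset C) ⊆ L {u, v} ∪ (univ \ P u) ∪ (univ \ P v) := by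
        intro c _
        rw [mem_union, mem_union, memL, mem_sdiff, mem_sdiff]
        by_cases h3 : c ∈ P u
        · by_cases h4 : c ∈ P v
          · left
            left
            intro x hx
            rw [mem_insert, mem_singleton] at hx
            rcases hx with rfl | rfl
            · exact h3
            · exact h4
          · right
            exact ⟨mem_univ _, h4⟩
        · left
          right
          exact ⟨mem_univ _, h3⟩
      have h2 := card_le_card h1
      have h3 := card_union_le (L {u, v} ∪ (univ \ P u)) (univ \ P v)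
      have h4 := card_union_le (L {u, v}) (univ \ P u)
      have h5 : (univ \ P u).card ≤ e := by
        have := hP u
        have h6 := card_sdiff_add_card_eq_card (subset_univ (P u))
        rw [card_univ] at h6
        omega
      have h6 : (univ \ P v).card ≤ e := by
        have := hP v
        have h6 := card_sdiff_add_card_eq_card (subset_univ (P v))
        rw [card_univ] at h6
        omega
      rw [card_univ] at h2
      omega) (by
      intro u c hc
      refine le_trans ?_ ((hmis c).trans (by omega))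
      refine (card_le_card (t := (univ.filter (fun v => c ∉ P v)).image
        (fun v => ({u, v} : Finset V))) ?_).trans card_image_le
      intro f hf
      rw [mem_filter, hat] at hf
      obtain ⟨⟨v, _, rfl⟩, hcf⟩ := hf
      refine mem_image.2 ⟨v, mem_filter.2 ⟨mem_univ _, ?_⟩, rfl⟩
      intro hcv
      apply hcf
      rw [memL]
      intro x hx
      rw [mem_insert, mem_singleton] at hx
      rcases hx with rfl | rfl
      · exact hc
      · exact hcv) (by
      intro u
      rw [hatc]
      exact hdeg u) (by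
      intro u
      have := hP u
      omega) (by omega) hCV hW₀ (by
      intro w hw
      rw [hatc]
      exact hW₀d w hw) hR₀ (by
      intro f hf w hwf hw u huf huw c hc hcR
      rw [memL]
      obtain ⟨x, y, hxy, rfl⟩ := (memH f).1 hf
      have hcw := hfull w hw hcR
      rw [mem_insert, mem_singleton] at hwf huf
      intro z hz
      rw [mem_insert, mem_singleton] at hz
      have : z = w ∨ z = u := by
        rcases hwf with rfl | rfl
        · rcases huf with rfl | rfl
          · exact absurd rfl huw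
          · exact hz
        · rcases huf with rfl | rfl
          · exact hz.symm
          · exact absurd rfl huw
      rcases this with rfl | rfl
      · exact hcw
      · exact hc)
  have hwd : ∀ x y : V, χ ({x, y} : Finset V) = χ ({y, x} : Finset V) := by
    intro x y
    rw [pair_comm]
  refine ⟨Sym2.lift ⟨fun x y => χ ({x, y} : Finset V), hwd⟩, ?_, ?_⟩
  · intro u v huv
    simp only [Sym2.lift_mk]
    have := hχ1 {u, v} ((memH _).2 ⟨u, v, huv, rfl⟩)
    exact (memL _ _).1 this u (by simp)
  · intro u v w huv huw hvw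
    simp only [Sym2.lift_mk]
    apply hχ2 _ ((memH _).2 ⟨u, v, huv, rfl⟩) _ ((memH _).2 ⟨u, w, huw, rfl⟩)
    · intro heq
      exact hvw (pair_eq_left heq)
    · exact ⟨u, by simp⟩

end Pool.Agent.Run7.h320.D
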