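import Pool.Agent.Run7.h320.WList

/-!
# The main phase: list colouring with reserved colours and weights
-/

set_option autoImplicit false

namespace Pool.Agent.Run7.h320.D

open Finset

section
variable {V C T M : Type} [Fintype V] [DecidableEq V] [Fintype C] [DecidableEq C]
  [Fintype T] [DecidableEq T] [Fintype M] [DecidableEq M]

/-- the colour `c` is not allowed at `v` in the main phase -/
def fb (Z : Finset V) (cl : V → T ⊕ M) (kc : C → T ⊕ M) (b : V → M) (v : V) (c : C) : Prop :=
  if v ∈ Z then kc c = Sum.inr (b v) else (∃ i : M, kc c = Sum.inr i) ∨ kc c = cl v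

open Classical in
/-- the lists of the main phase -/
noncomputable def L1 (Z : Finset V) (cl : V → T ⊕ M) (kc : C → T ⊕ M) (b : V → M)
    (L : Finset V → Finset C) (e : Finset V) : Finset C :=
  (L e).filter (fun c => ∀ v ∈ e, ¬ fb Z cl kc b v c)

open Classical in
/-- the weight of the ordinary colours at an edge -/
noncomputable def wn (Z : Finset V) (cl : V → T ⊕ M) (b : V → M) (as ac a0 a1 a2 : ℝ)
    (e : Finset V) : ℝ :=
  if ∀ v ∈ e, v ∈ Z then (if ∀ u ∈ e, ∀ v ∈ e, b u = b v then as else ac) else
    if ∀ v ∈ e, v ∉ Z then a2 else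
      if ∀ v ∈ e, v ∉ Z → ∃ i : M, cl v = Sum.inr i then a0 else a1

open Classical in
/-- the weights -/
noncomputable def wg (Z : Finset V) (cl : V → T ⊕ M) (kc : C → T ⊕ M) (b : V → M)
    (ap as ac a0 a1 a2 : ℝ) (e : Finset V) (c : C) : ℝ :=
  if ∃ i : M, kc c = Sum.inr i then ap else wn Z cl b as ac a0 a1 a2 e

/-- the sum over the edges at `v` -/
theorem sum_at {F : Finset (Finset V)} (h2 : ∀ e ∈ F, e.card = 2) (v : V) (p : Finset V → Prop)
    [DecidablePred p] (f : Finset V → ℝ) :
    ∑ e ∈ (at' F v).filter p, f e =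
      ∑ x ∈ univ.filter (fun x => x ≠ v ∧ ({v, x} : Finset V) ∈ F ∧ p {v, x}), f {v, x} := by
  symm
  refine sum_bij (fun x _ => ({v, x} : Finset V)) ?_ ?_ ?_ ?_
  · intro x hx
    rw [mem_filter] at hx
    rw [mem_filter, mem_at]
    exact ⟨⟨hx.2.2.1, by simp⟩, hx.2.2.2⟩
  · intro x hx y hy h
    rw [mem_filter] at hx hy
    have h1 : x ∈ ({v, y} : Finset V) := by rw [← h]; simp
    rw [mem_insert, mem_singleton] at h1
    exact h1.resolve_left hx.2.1
  · intro e he
    rw [mem_filter, mem_at] at he
    obtain ⟨x, y, hxy, rfl⟩ := card_eq_two.1 (h2 e he.1.1)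
    have hv := he.1.2
    rw [mem_insert, mem_singleton] at hv
    rcases hv with rfl | rfl
    · exact ⟨y, by rw [mem_filter]; exact ⟨mem_univ _, hxy.symm, he.1.1, he.2⟩, rfl⟩
    · refine ⟨x, ?_, pair_comm _ _⟩
      rw [mem_filter, pair_comm]
      exact ⟨mem_univ _, hxy, he.1.1, he.2⟩
  · intro x _
    rfl

omit [Fintype V] [DecidableEq V] [DecidableEq C] [Fintype T] [Fintype M] in
theorem cardR {kc : C → T ⊕ M} {ρ : ℕ}
    (hρ : ∀ i : M, (univ.filter (fun c => kc c = Sum.inr i)).card = ρ) (A : Finset M) :
    (univ.filter (fun c => ∃ i ∈ A, kc c = Sum.inr i)).card = A.card * ρ := by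
  classical
  have h1 : univ.filter (fun c => ∃ i ∈ A, kc c = Sum.inr i) =
      A.biUnion (fun i => univ.filter (fun c => kc c = Sum.inr i)) := by
    ext c
    simp
  rw [h1, card_biUnion, sum_congr rfl (fun i _ => hρ i), sum_const, smul_eq_mul]
  intro i _ j _ hij
  rw [Function.onFun, disjoint_left]
  intro c hc hc'
  rw [mem_filter] at hc hc'
  exact hij (Sum.inr_injective (hc.2.symm.trans hc'.2))

/-- the total weight of an edge -/
theorem tot {Z : Finset V} {cl : V → T ⊕ M} {kc : C → T ⊕ M} {b : V → M} {L : Finset V → Finset C}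
    {ap as ac a0 a1 a2 A ε : ℝ} {ρ s κ err : ℕ} {e : Finset V} (h2 : e.card = 2)
    (hρ : ∀ i : M, (univ.filter (fun c => kc c = Sum.inr i)).card = ρ)
    (hs : ∀ j : T, (univ.filter (fun c => kc c = Sum.inl j)).card ≤ s)
    (hκ : (univ.filter (fun c => ¬ ∃ i : M, kc c = Sum.inr i)).card = κ)
    (herr : Fintype.card C ≤ (L e).card + err)
    (p1 : 0 ≤ ap) (p2 : 0 ≤ as) (p3 : 0 ≤ ac) (p4 : 0 ≤ a0) (p5 : 0 ≤ a1) (p6 : 0 ≤ a2)
    (q1 : ap ≤ A) (q2 : as ≤ A) (q3 : ac ≤ A) (q4 : a0 ≤ A) (q5 : a1 ≤ A) (q6 : a2 ≤ A)
    (t1 : 1 + ε + err * A ≤ κ * as + ((Fintype.card M : ℝ) - 1) * ρ * ap)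
    (t2 : 1 + ε + err * A ≤ κ * ac + ((Fintype.card M : ℝ) - 2) * ρ * ap)
    (t3 : 1 + ε + err * A ≤ κ * a0) (t4 : 1 + ε + err * A ≤ ((κ : ℝ) - s) * a1)
    (t5 : 1 + ε + err * A ≤ ((κ : ℝ) - 2 * s) * a2) :
    1 + ε ≤ ∑ c ∈ L1 Z cl kc b L e, wg Z cl kc b ap as ac a0 a1 a2 e c := by
  classical
  obtain ⟨S, hS⟩ : ∃ S : Finset C, S = univ.filter (fun c => ∀ v ∈ e, ¬ fb Z cl kc b v c) :=
    ⟨_, rfl⟩
  have hA : 0 ≤ A := p1.trans q1
  have hwn0 : 0 ≤ wn Z cl b as ac a0 a1 a2 e := by
    unfold wn
    split_ifs <;> assumption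
  have hwnA : wn Z cl b as ac a0 a1 a2 e ≤ A := by
    unfold wn
    split_ifs <;> assumption
  have hw0 : ∀ c, 0 ≤ wg Z cl kc b ap as ac a0 a1 a2 e c := by
    intro c
    unfold wg
    split_ifs <;> assumption
  have hwA : ∀ c, wg Z cl kc b ap as ac a0 a1 a2 e c ≤ A := by
    intro c
    unfold wg
    split_ifs <;> assumption
  have h1 : ∑ c ∈ S, wg Z cl kc b ap as ac a0 a1 a2 e c ≤
      ∑ c ∈ L1 Z cl kc b L e, wg Z cl kc b ap as ac a0 a1 a2 e c + err * A := by
    have hsub : S ⊆ L1 Z cl kc b L e ∪ (univ \ L e) := by
      intro c hc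
      rw [hS, mem_filter] at hc
      by_cases h : c ∈ L e
      · refine mem_union_left _ ?_
        unfold L1
        rw [mem_filter]
        exact ⟨h, hc.2⟩
      · exact mem_union_right _ (mem_sdiff.2 ⟨mem_univ _, h⟩)
    have hcard : ((univ \ L e).card : ℝ) ≤ err := by
      have h3 := card_sdiff_add_card_eq_card (subset_univ (L e))
      rw [card_univ] at h3
      have : (univ \ L e).card ≤ err := by omega
      exact_mod_cast this
    calc ∑ c ∈ S, wg Z cl kc b ap as ac a0 a1 a2 e c
        ≤ ∑ c ∈ L1 Z cl kc b L e ∪ (univ \ L e), wg Z cl kc b ap as ac a0 a1 a2 e c :=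
          sum_le_sum_of_subset_of_nonneg hsub fun c _ _ => hw0 c
      _ ≤ ∑ c ∈ L1 Z cl kc b L e, wg Z cl kc b ap as ac a0 a1 a2 e c +
          ∑ c ∈ univ \ L e, wg Z cl kc b ap as ac a0 a1 a2 e c := by
          have := sum_union_inter (s₁ := L1 Z cl kc b L e) (s₂ := univ \ L e)
            (f := fun c => wg Z cl kc b ap as ac a0 a1 a2 e c)
          have h4 : 0 ≤ ∑ c ∈ L1 Z cl kc b L e ∩ (univ \ L e),
            wg Z cl kc b ap as ac a0 a1 a2 e c := sum_nonneg fun c _ => hw0 c
          linarith
      _ ≤ _ := by
          have h5 : ∑ c ∈ univ \ L e, wg Z cl kc b ap as ac a0 a1 a2 e c ≤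
              ∑ _c ∈ univ \ L e, A := sum_le_sum fun c _ => hwA c
          rw [sum_const, nsmul_eq_mul] at h5
          have h6 : ((univ \ L e).card : ℝ) * A ≤ err * A := mul_le_mul_of_nonneg_right hcard hA
          linarith
  -- the sum over `S`
  obtain ⟨S₁, hS₁⟩ : ∃ S₁ : Finset C, S₁ = S.filter (fun c => ∃ i : M, kc c = Sum.inr i) :=
    ⟨_, rfl⟩
  obtain ⟨S₂, hS₂⟩ : ∃ S₂ : Finset C, S₂ = S.filter (fun c => ¬ ∃ i : M, kc c = Sum.inr i) :=
    ⟨_, rfl⟩
  have h3 : ∑ c ∈ S, wg Z cl kc b ap as ac a0 a1 a2 e c =
      S₁.card * ap + S₂.card * wn Z cl b as ac a0 a1 a2 e := by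
    rw [← sum_filter_add_sum_filter_not S (fun c => ∃ i : M, kc c = Sum.inr i), ← hS₁, ← hS₂]
    congr 1
    · rw [sum_congr rfl (g := fun _ => ap), sum_const, nsmul_eq_mul]
      intro c hc
      rw [hS₁, mem_filter] at hc
      unfold wg
      rw [if_pos hc.2]
    · rw [sum_congr rfl (g := fun _ => wn Z cl b as ac a0 a1 a2 e), sum_const, nsmul_eq_mul]
      intro c hc
      rw [hS₂, mem_filter] at hc
      unfold wg
      rw [if_neg hc.2]
  obtain ⟨x, y, hxy, he⟩ := card_eq_two.1 h2
  have hN : ∀ A' : Finset T, (∀ v ∈ e, v ∉ Z → ∀ j, cl v = Sum.inl j → j ∈ A') →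
      (κ : ℝ) ≤ S₂.card + A'.card * s := by
    intro A' hA'
    have h4 : univ.filter (fun c => ¬ ∃ i : M, kc c = Sum.inr i) ⊆
        S₂ ∪ A'.biUnion (fun j => univ.filter (fun c => kc c = Sum.inl j)) := by
      intro c hc
      rw [mem_filter] at hc
      by_cases hcS : c ∈ S
      · exact mem_union_left _ (by rw [hS₂, mem_filter]; exact ⟨hcS, hc.2⟩)
      · rw [hS, mem_filter] at hcS
        push Not at hcS
        obtain ⟨v, hv, hfb⟩ := hcS (mem_univ _)
        unfold fb at hfb
        split_ifs at hfb with hvZ
        · exact absurd ⟨_, hfb⟩ hc.2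
        · rcases hfb with hfb | hfb
          · exact absurd hfb hc.2
          · refine mem_union_right _ (mem_biUnion.2 ?_)
            rcases hcl : cl v with j | i
            · refine ⟨j, hA' v hv hvZ j hcl, ?_⟩
              rw [mem_filter, hfb, hcl]
              exact ⟨mem_univ _, rfl⟩
            · exact absurd ⟨i, hfb.trans hcl⟩ hc.2
    have h5 := card_le_card h4
    rw [hκ] at h5
    have h6 := card_union_le S₂ (A'.biUnion (fun j => univ.filter (fun c => kc c = Sum.inl j)))
    have h7 : (A'.biUnion (fun j => univ.filter (fun c => kc c = Sum.inl j))).card ≤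
        A'.card * s := card_biUnion_le_card_mul _ _ _ fun j _ => hs j
    have h8 : κ ≤ S₂.card + A'.card * s := by omega
    exact_mod_cast h8
  have hsum : 1 + ε + err * A ≤ ∑ c ∈ S, wg Z cl kc b ap as ac a0 a1 a2 e c := by
    rw [h3]
    have hap : 0 ≤ (S₁.card : ℝ) * ap := by positivity
    by_cases hxZ : x ∈ Z <;> by_cases hyZ : y ∈ Z
    · -- both in `Z`
      have hall : ∀ v ∈ e, v ∈ Z := by
        intro v hv
        rw [he, mem_insert, mem_singleton] at hv
        rcases hv with rfl | rfl <;> assumption
      have h4 := hN ∅ (fun v hv hvZ => absurd (hall v hv) hvZ)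
      rw [card_empty, Nat.cast_zero, zero_mul, add_zero] at h4
      have h5 : S₁ = univ.filter (fun c => ∃ i ∈ (univ : Finset M) \ {b x, b y},
          kc c = Sum.inr i) := by
        ext c
        rw [hS₁, hS, mem_filter, mem_filter, mem_filter]
        constructor
        · rintro ⟨⟨_, h⟩, i, hi⟩
          refine ⟨mem_univ _, i, ?_, hi⟩
          rw [mem_sdiff, mem_insert, mem_singleton, not_or]
          refine ⟨mem_univ _, ?_, ?_⟩
          · rintro rfl
            have := h x (by rw [he]; simp)
            unfold fb at this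
            rw [if_pos hxZ] at this
            exact this hi
          · rintro rfl
            have := h y (by rw [he]; simp)
            unfold fb at this
            rw [if_pos hyZ] at this
            exact this hi
        · rintro ⟨_, i, hi, hci⟩
          rw [mem_sdiff, mem_insert, mem_singleton, not_or] at hi
          refine ⟨⟨mem_univ _, ?_⟩, i, hci⟩
          intro v hv
          unfold fb
          rw [if_pos (hall v hv), hci]
          rw [he, mem_insert, mem_singleton] at hv
          rcases hv with rfl | rfl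
          · intro h
            exact hi.2.1 (Sum.inr_injective h)
          · intro h
            exact hi.2.2 (Sum.inr_injective h)
      have h6 : (S₁.card : ℝ) = ((univ \ {b x, b y} : Finset M).card : ℝ) * ρ := by
        rw [h5, cardR hρ]
        push_cast
        ring
      have h7 := card_sdiff_add_card_eq_card (subset_univ ({b x, b y} : Finset M))
      rw [card_univ] at h7
      by_cases hb : b x = b y
      · have h8 : wn Z cl b as ac a0 a1 a2 e = as := by
          unfold wn
          rw [if_pos hall, if_pos]
          intro u hu v hv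
          rw [he, mem_insert, mem_singleton] at hu hv
          rcases hu with rfl | rfl <;> rcases hv with rfl | rfl
          · rfl
          · exact hb
          · exact hb.symm
          · rfl
        rw [hb, pair_eq_singleton, card_singleton] at h7
        rw [hb, pair_eq_singleton] at h6
        have h9 : ((univ \ {b y} : Finset M).card : ℝ) = (Fintype.card M : ℝ) - 1 := by
          rw [← h7]
          push_cast
          ring
        rw [h8, h6, h9]
        have h10 : (κ : ℝ) * as ≤ S₂.card * as := mul_le_mul_of_nonneg_right h4 p2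
        linarith
      · have h8 : wn Z cl b as ac a0 a1 a2 e = ac := by
          unfold wn
          rw [if_pos hall, if_neg]
          intro h
          exact hb (h x (by rw [he]; simp) y (by rw [he]; simp))
        rw [card_pair hb] at h7
        have h9 : ((univ \ {b x, b y} : Finset M).card : ℝ) = (Fintype.card M : ℝ) - 2 := by
          rw [← h7]
          push_cast
          ring
        rw [h8, h6, h9]
        have h10 : (κ : ℝ) * ac ≤ S₂.card * ac := mul_le_mul_of_nonneg_right h4 p3
        linarith
    all_goals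
      have hnall : ¬ ∀ v ∈ e, v ∈ Z := by
        intro h
        first
          | exact hxZ (h x (by rw [he]; simp))
          | exact hyZ (h y (by rw [he]; simp))
    · -- x in `Z`, y not
      have hn2 : ¬ ∀ v ∈ e, v ∉ Z := fun h => h x (by rw [he]; simp) hxZ
      rcases hcl : cl y with j | i
      · have h4 := hN {j} (by
          intro v hv hvZ j' hj'
          rw [he, mem_insert, mem_singleton] at hv
          rcases hv with rfl | rfl
          · exact absurd hxZ hvZ
          · rw [hcl] at hj'
            rw [mem_singleton]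
            exact (Sum.inl_injective hj').symm)
        rw [card_singleton, Nat.cast_one, one_mul] at h4
        have h8 : wn Z cl b as ac a0 a1 a2 e = a1 := by
          unfold wn
          rw [if_neg hnall, if_neg hn2, if_neg]
          intro h
          obtain ⟨i, hi⟩ := h y (by rw [he]; simp) hyZ
          rw [hcl] at hi
          exact absurd hi (by simp)
        rw [h8]
        have h10 : ((κ : ℝ) - s) * a1 ≤ S₂.card * a1 :=
          mul_le_mul_of_nonneg_right (by linarith) p5
        linarith
      · have h4 := hN ∅ (by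
          intro v hv hvZ j' hj'
          rw [he, mem_insert, mem_singleton] at hv
          rcases hv with rfl | rfl
          · exact absurd hxZ hvZ
          · rw [hcl] at hj'
            exact absurd hj' (by simp))
        rw [card_empty, Nat.cast_zero, zero_mul, add_zero] at h4
        have h8 : wn Z cl b as ac a0 a1 a2 e = a0 := by
          unfold wn
          rw [if_neg hnall, if_neg hn2, if_pos]
          intro v hv hvZ
          rw [he, mem_insert, mem_singleton] at hv
          rcases hv with rfl | rfl
          · exact absurd hxZ hvZ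
          · exact ⟨i, hcl⟩
        rw [h8]
        have h10 : (κ : ℝ) * a0 ≤ S₂.card * a0 := mul_le_mul_of_nonneg_right h4 p4
        linarith
    · -- y in `Z`, x not
      have hn2 : ¬ ∀ v ∈ e, v ∉ Z := fun h => h y (by rw [he]; simp) hyZ
      rcases hcl : cl x with j | i
      · have h4 := hN {j} (by
          intro v hv hvZ j' hj'
          rw [he, mem_insert, mem_singleton] at hv
          rcases hv with rfl | rfl
          · rw [hcl] at hj'
            rw [mem_singleton]
            exact (Sum.inl_injective hj').symm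
          · exact absurd hyZ hvZ)
        rw [card_singleton, Nat.cast_one, one_mul] at h4
        have h8 : wn Z cl b as ac a0 a1 a2 e = a1 := by
          unfold wn
          rw [if_neg hnall, if_neg hn2, if_neg]
          intro h
          obtain ⟨i, hi⟩ := h x (by rw [he]; simp) hxZ
          rw [hcl] at hi
          exact absurd hi (by simp)
        rw [h8]
        have h10 : ((κ : ℝ) - s) * a1 ≤ S₂.card * a1 :=
          mul_le_mul_of_nonneg_right (by linarith) p5
        linarith
      · have h4 := hN ∅ (by
          intro v hv hvZ j' hj'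
          rw [he, mem_insert, mem_singleton] at hv
          rcases hv with rfl | rfl
          · rw [hcl] at hj'
            exact absurd hj' (by simp)
          · exact absurd hyZ hvZ)
        rw [card_empty, Nat.cast_zero, zero_mul, add_zero] at h4
        have h8 : wn Z cl b as ac a0 a1 a2 e = a0 := by
          unfold wn
          rw [if_neg hnall, if_neg hn2, if_pos]
          intro v hv hvZ
          rw [he, mem_insert, mem_singleton] at hv
          rcases hv with rfl | rfl
          · exact ⟨i, hcl⟩
          · exact absurd hyZ hvZ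
        rw [h8]
        have h10 : (κ : ℝ) * a0 ≤ S₂.card * a0 := mul_le_mul_of_nonneg_right h4 p4
        linarith
    · -- both not in `Z`
      obtain ⟨A', hA'⟩ : ∃ A' : Finset T,
          A' = univ.filter (fun j => cl x = Sum.inl j ∨ cl y = Sum.inl j) := ⟨_, rfl⟩
      have hA'c : A'.card ≤ 2 := by
        have h5 : A' ⊆ (univ.filter (fun j => cl x = Sum.inl j)) ∪
            (univ.filter (fun j => cl y = Sum.inl j)) := by
          intro j hj
          rw [hA', mem_filter] at hj
          rw [mem_union, mem_filter, mem_filter]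
          tauto
        have h6 : ∀ v, (univ.filter (fun j : T => cl v = Sum.inl j)).card ≤ 1 := by
          intro v
          rw [card_le_one]
          intro j hj j' hj'
          rw [mem_filter] at hj hj'
          exact Sum.inl_injective (hj.2.symm.trans hj'.2)
        have h7 := (card_le_card h5).trans (card_union_le _ _)
        have h8 := h6 x
        have h9 := h6 y
        omega
      have h4 := hN A' (by
        intro v hv hvZ j hj
        rw [hA', mem_filter]
        rw [he, mem_insert, mem_singleton] at hv
        rcases hv with rfl | rfl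
        · exact ⟨mem_univ _, Or.inl hj⟩
        · exact ⟨mem_univ _, Or.inr hj⟩)
      have h5 : (A'.card : ℝ) * s ≤ 2 * s := by
        have : (A'.card : ℝ) ≤ 2 := by exact_mod_cast hA'c
        exact mul_le_mul_of_nonneg_right this (by positivity)
      have h8 : wn Z cl b as ac a0 a1 a2 e = a2 := by
        unfold wn
        rw [if_neg hnall, if_pos]
        intro v hv
        rw [he, mem_insert, mem_singleton] at hv
        rcases hv with rfl | rfl <;> assumption
      rw [h8]
      have h10 : ((κ : ℝ) - 2 * s) * a2 ≤ S₂.card * a2 :=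
        mul_le_mul_of_nonneg_right (by linarith) p6
      linarith
  linarith

end

end Pool.Agent.Run7.h320.D
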