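import Pool.Agent.Run7.h320.Star

/-!
# Greedy labelling with capacities
-/

set_option autoImplicit false
set_option linter.unusedSectionVars false

namespace Pool.Agent.Run7.h320.D

open Finset

variable {V C : Type} [DecidableEq V] [DecidableEq C]

/-- few labels are used often -/
theorem full_card (S : Finset V) (f : V → C) (K : ℕ) :
    ((S.image f).filter (fun c => K ≤ (S.filter (fun v => f v = c)).card)).card * K ≤ S.card := by
  classical
  have h1 : S.card = ∑ c ∈ S.image f, (S.filter (fun v => f v = c)).card :=
    card_eq_sum_card_image f S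
  rw [h1]
  calc ((S.image f).filter (fun c => K ≤ (S.filter (fun v => f v = c)).card)).card * K
      = ∑ _c ∈ (S.image f).filter (fun c => K ≤ (S.filter (fun v => f v = c)).card), K := by
        rw [sum_const, smul_eq_mul]
    _ ≤ ∑ c ∈ (S.image f).filter (fun c => K ≤ (S.filter (fun v => f v = c)).card),
        (S.filter (fun v => f v = c)).card := by
        apply sum_le_sum
        intro c hc
        exact (mem_filter.1 hc).2
    _ ≤ _ := sum_le_sum_of_subset (filter_subset _ _)

theorem gcap (nbr : V → Finset V) (hsym : ∀ u v, v ∈ nbr u → u ∈ nbr v)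
    (hirr : ∀ v, v ∉ nbr v) (A : Finset V) (good : V → Finset C) (K : ℕ) (f₀ : V → C)
    (h₀ : ∀ u ∈ A, ∀ v ∈ A, v ∈ nbr u → f₀ u ≠ f₀ v) (W : Finset V) (hd : Disjoint A W)
    (hb : ∀ w ∈ W, (nbr w ∩ (A ∪ W)).card * K + W.card < (good w).card * K) :
    ∀ S ⊆ W, ∃ f : V → C, (∀ v ∈ A, f v = f₀ v) ∧ (∀ w ∈ S, f w ∈ good w) ∧
      (∀ u ∈ A ∪ S, ∀ v ∈ A ∪ S, v ∈ nbr u → f u ≠ f v) ∧
      ∀ c, (S.filter (fun w => f w = c)).card ≤ K := by
  classical
  intro S
  induction S using Finset.induction_on with
  | empty =>
    intro _
    refine ⟨f₀, fun _ _ => rfl, fun w hw => absurd hw (notMem_empty w), ?_, ?_⟩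
    · intro u hu v hv
      rw [union_empty] at hu hv
      exact h₀ u hu v hv
    · intro c
      rw [filter_empty, card_empty]
      exact Nat.zero_le _
  | insert w S hwS ih =>
    intro hS
    have hwW : w ∈ W := hS (mem_insert_self _ _)
    have hSW : S ⊆ W := (subset_insert _ _).trans hS
    have hwA : w ∉ A := fun h => disjoint_left.1 hd h hwW
    obtain ⟨f, f1, f2, f3, f4⟩ := ih hSW
    obtain ⟨X, hX⟩ : ∃ X : Finset C, X = (nbr w ∩ (A ∪ S)).image f ∪
      (S.image f).filter (fun c => K ≤ (S.filter (fun v => f v = c)).card) := ⟨_, rfl⟩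
    have hXc : X.card < (good w).card := by
      have h1 : X.card * K ≤ (nbr w ∩ (A ∪ W)).card * K + W.card := by
        have h2 : X.card ≤ (nbr w ∩ (A ∪ W)).card +
            ((S.image f).filter (fun c => K ≤ (S.filter (fun v => f v = c)).card)).card := by
          rw [hX]
          refine (card_union_le _ _).trans (Nat.add_le_add_right ?_ _)
          refine card_image_le.trans (card_le_card ?_)
          intro x hx
          rw [mem_inter, mem_union] at hx ⊢
          exact ⟨hx.1, hx.2.imp_right (fun h => hSW h)⟩
        have h3 := full_card S f K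
        have h4 := card_le_card hSW
        calc X.card * K ≤ ((nbr w ∩ (A ∪ W)).card +
            ((S.image f).filter (fun c => K ≤ (S.filter (fun v => f v = c)).card)).card) * K :=
              Nat.mul_le_mul_right _ h2
          _ = (nbr w ∩ (A ∪ W)).card * K +
            ((S.image f).filter (fun c => K ≤ (S.filter (fun v => f v = c)).card)).card * K :=
              add_mul _ _ _
          _ ≤ _ := Nat.add_le_add_left (h3.trans h4) _
      exact Nat.lt_of_mul_lt_mul_right (lt_of_le_of_lt h1 (hb w hwW))
    obtain ⟨c, hc, hcX⟩ : ∃ c ∈ good w, c ∉ X := by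
      by_contra hcon
      push Not at hcon
      exact absurd (card_le_card (fun c hc => hcon c hc)) (not_le.2 hXc)
    rw [hX, mem_union, not_or] at hcX
    have hfw : ∀ x, x ≠ w → Function.update f w c x = f x := fun x hx =>
      Function.update_of_ne hx _ _
    have hfww : Function.update f w c w = c := Function.update_self _ _ _
    have hne : ∀ x ∈ A ∪ S, x ≠ w := by
      intro x hx hxw
      rw [hxw] at hx
      rcases mem_union.1 hx with h | h
      · exact hwA h
      · exact hwS h
    have hcn : ∀ x ∈ A ∪ S, x ∈ nbr w → f x ≠ c := by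
      intro x hx hxn hxc
      exact hcX.1 (mem_image.2 ⟨x, mem_inter.2 ⟨hxn, hx⟩, hxc⟩)
    refine ⟨Function.update f w c, ?_, ?_, ?_, ?_⟩
    · intro v hv
      rw [hfw v (fun h => hwA (h ▸ hv))]
      exact f1 v hv
    · intro x hx
      rcases mem_insert.1 hx with rfl | hx
      · rw [hfww]
        exact hc
      · rw [hfw x (fun h => hwS (h ▸ hx))]
        exact f2 x hx
    · intro u hu v hv huv
      have hun : u = w ∨ u ∈ A ∪ S := by
        rw [mem_union, mem_insert] at hu
        rw [mem_union]
        tauto
      have hvn : v = w ∨ v ∈ A ∪ S := by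
        rw [mem_union, mem_insert] at hv
        rw [mem_union]
        tauto
      rcases hun with rfl | hu'
      · rcases hvn with rfl | hv'
        · exact absurd huv (hirr _)
        · rw [hfww, hfw v (hne v hv')]
          exact fun h => hcn v hv' huv h.symm
      · rcases hvn with rfl | hv'
        · rw [hfww, hfw u (hne u hu')]
          exact hcn u hu' (hsym _ _ huv)
        · rw [hfw u (hne u hu'), hfw v (hne v hv')]
          exact f3 u hu' v hv' huv
    · intro c'
      have hsub : (insert w S).filter (fun x => Function.update f w c x = c') ⊆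
          if c' = c then insert w (S.filter (fun x => f x = c)) else
            S.filter (fun x => f x = c') := by
        intro x hx
        rw [mem_filter, mem_insert] at hx
        obtain ⟨hx1, hx2⟩ := hx
        rcases hx1 with rfl | hx1
        · rw [hfww] at hx2
          rw [if_pos hx2.symm]
          exact mem_insert_self _ _
        · rw [hfw x (fun h => hwS (h ▸ hx1))] at hx2
          split_ifs with h
          · rw [h] at hx2
            exact mem_insert_of_mem (mem_filter.2 ⟨hx1, hx2⟩)
          · exact mem_filter.2 ⟨hx1, hx2⟩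
      refine (card_le_card hsub).trans ?_
      split_ifs with h
      · have h3 : (S.filter (fun x => f x = c)).card < K := by
          by_contra hcon
          push Not at hcon
          rcases (S.filter (fun x => f x = c)).eq_empty_or_nonempty with h5 | ⟨x, hx⟩
          · rw [h5, card_empty] at hcon
            have hK : K = 0 := by omega
            have := hb w hwW
            rw [hK, mul_zero, mul_zero] at this
            omega
          · rw [mem_filter] at hx
            apply hcX.2
            rw [mem_filter]
            exact ⟨mem_image.2 ⟨x, hx.1, hx.2⟩, hcon⟩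
        exact (card_insert_le _ _).trans h3
      · exact f4 c'

/-- injective labelling -/
theorem ginj (good : V → Finset C) (f₀ : V → C) (U : Finset V)
    (hb : ∀ w ∈ U, U.card < (good w).card) :
    ∃ f : V → C, (∀ w ∈ U, f w ∈ good w) ∧ (∀ w, w ∉ U → f w = f₀ w) ∧
      ∀ u ∈ U, ∀ v ∈ U, f u = f v → u = v := by
  classical
  obtain ⟨f, -, f2, -, f4⟩ := gcap (fun _ => ∅) (fun _ _ h => absurd h (notMem_empty _))
    (fun _ => notMem_empty _) ∅ good 1 f₀ (fun u hu => absurd hu (notMem_empty _)) U
    (disjoint_empty_left _) (by
      intro w hw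
      rw [empty_inter, card_empty, zero_mul, zero_add, mul_one]
      exact hb w hw) U (Subset.refl _)
  refine ⟨fun w => if w ∈ U then f w else f₀ w, ?_, ?_, ?_⟩
  · intro w hw
    simp only [if_pos hw]
    exact f2 w hw
  · intro w hw
    simp only [if_neg hw]
  · intro u hu v hv huv
    simp only [if_pos hu, if_pos hv] at huv
    have := f4 (f v)
    rw [card_le_one] at this
    exact this u (mem_filter.2 ⟨hu, huv⟩) v (mem_filter.2 ⟨hv, rfl⟩)

end Pool.Agent.Run7.h320.D
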