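import Pool.Agent.Run7.h320.D.Num3

/-!
# All numerical facts of the core theorem
-/

set_option autoImplicit false

namespace Pool.Agent.Run7.h320.D

theorem natF {g h e ω ρ τ : ℕ} (hτ : 64 ≤ τ) (g5 : 16 * (h + e) ≤ g) (g6 : 10000 ≤ g)
    (g7 : 8 * τ * g ≤ ω + 1) (g10 : ρ + h = g * (2 * τ - 1)) :
    g * (τ + τ - 1) = ρ + h ∧ 2 ≤ τ + τ ∧ h + e ≤ g ∧ h + e ≤ g / 2 ∧ g / 2 + e ≤ g ∧
      2 * (g / 16) + 3 * e + 2 ≤ g / 2 ∧ 0 < τ * g ∧ g ≤ ω + 1 - g ∧ τ * g + e ≤ ρ ∧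
      ω + 1 - g + g ≤ ω + 1 ∧ g ≤ ω := by
  have h0 : 512 * g ≤ ω + 1 := by
    refine le_trans ?_ g7
    apply Nat.mul_le_mul_right
    omega
  have h1 : τ + τ - 1 = 2 * τ - 1 := by omega
  have h3 : g * (2 * τ - 1) = τ * g + g * (τ - 1) := by
    obtain ⟨t, ht⟩ : ∃ t, τ = t + 1 := ⟨τ - 1, by omega⟩
    rw [ht]
    have e1 : 2 * (t + 1) - 1 = 2 * t + 1 := by omega
    have e2 : t + 1 - 1 = t := by omega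
    rw [e1, e2]
    ring
  have h4 : g * 1 ≤ g * (τ - 1) := Nat.mul_le_mul_left _ (by omega)
  have h5 : 0 < τ * g := Nat.mul_pos (by omega) (by omega)
  rw [h1, ← g10]
  refine ⟨rfl, by omega, by omega, by omega, by omega, by omega, h5, by omega, by omega, by omega,
    by omega⟩

theorem natG {δ γ n : ℝ} {τ e g h ω ρ N z κ z' s vn : ℕ} (hδ0 : 0 < δ) (hδ1 : δ ≤ 1)
    (hγ0 : 0 < γ) (hγ1 : γ ≤ 1 / 1000) (hτ : 64 ≤ τ) (hτδ : 64 ≤ τ * δ)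
    (hγτ : 32 * (τ : ℝ) ^ 2 * γ = δ) (hn : 100000 ≤ γ ^ 2 * n)
    (he : (e : ℝ) ≤ γ ^ 2 / 10000 * n) (g3 : γ ^ 2 / 100 * n ≤ h)
    (g8 : (ω : ℝ) * (4 * τ) ≤ δ * n) (g11 : (ρ : ℝ) + h = g * (2 * τ - 1))
    (g12 : 16 * ((τ : ℝ) * ρ) ≤ δ * n) (hnd : n = (vn : ℝ)) (hVC : vn ≤ N + e)
    (hCV : N ≤ 2 * vn) (z2 : z + 2 * τ * ω = vn) (k5 : κ + τ * ρ = N) (hz1 : τ * z' ≤ z)
    (hz2 : z ≤ τ * z' + τ) (hs2 : τ * s ≤ κ + τ) (hs1 : 1 ≤ s) :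
    (64 : ℝ) ≤ τ ∧ n / 2 ≤ (κ : ℝ) ∧ n / 4 ≤ (κ : ℝ) - 2 * s ∧ n / 4 ≤ (z : ℝ) - z' ∧
      (τ : ℝ) * ρ ≤ z - z' ∧ (z : ℝ) ≤ τ * z' + τ ∧ (τ : ℝ) * s ≤ κ + τ ∧
      (τ : ℝ) * (ω - g) ≤ κ - 2 ∧
      (1 + γ ^ 2 / 400) * ((z : ℝ) + τ * (ω - g) + 2 + (τ - 1) * (ω - g) + ω) -
        ρ * (τ - 1) + 1 ≤ κ ∧
      (∀ x : ℝ, x ≤ (1 - δ) * n → x * ((1 + γ ^ 2 / 400) / (κ - 2 * s)) ≤ 1) ∧ (z : ℝ) ≤ n ∧
      0 < n := by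
  obtain ⟨hγn, hn3⟩ := aux1 hγ0 hγ1 hn
  have hn0 : 0 < n := by linarith
  have r1 : (z : ℝ) + 2 * τ * ω = n := by
    rw [hnd]
    exact_mod_cast z2
  have r2 : (κ : ℝ) + τ * ρ = (N : ℝ) := by exact_mod_cast k5
  have r3 : (τ : ℝ) * s ≤ κ + τ := by exact_mod_cast hs2
  have r4 : (1 : ℝ) ≤ s := by exact_mod_cast hs1
  have r5 : (τ : ℝ) * z' ≤ z := by exact_mod_cast hz1
  have r6 : (z : ℝ) ≤ τ * z' + τ := by exact_mod_cast hz2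
  have r7 : (64 : ℝ) ≤ τ := by exact_mod_cast hτ
  have r8 : n ≤ (N : ℝ) + e := by
    rw [hnd]
    exact_mod_cast hVC
  have r9 : (N : ℝ) ≤ 2 * n := by
    rw [hnd]
    exact_mod_cast hCV
  have hγ2 : γ ^ 2 ≤ 1 := by
    have : γ * γ ≤ 1 * 1 := mul_le_mul (by linarith) (by linarith) hγ0.le zero_le_one
    linarith
  have r10 : (e : ℝ) ≤ n / 10000 := by
    have : γ ^ 2 * n ≤ 1 * n := mul_le_mul_of_nonneg_right hγ2 hn0.le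
    linarith
  obtain ⟨s1, s2, s3, s4, s5, s6⟩ := lkn1 (e := (e : ℝ)) hδ0 hδ1 r7 hn3 (Nat.cast_nonneg _) r10 r8
    g8 r1 g12 r2 r3 r4 r5 (Nat.cast_nonneg z')
  have s7 := lkn2 hδ0 hτδ r3 r4
  have hρ0 : (0 : ℝ) ≤ ρ := Nat.cast_nonneg _
  have hh0 : (0 : ℝ) ≤ h := Nat.cast_nonneg _
  have hω0 : (0 : ℝ) ≤ ω := Nat.cast_nonneg _
  have hg0 : (0 : ℝ) ≤ g := Nat.cast_nonneg _
  have hτ0 : (0 : ℝ) ≤ τ := Nat.cast_nonneg _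
  have hfin := lkn4 (δ := δ) (e := (e : ℝ)) hγ0 hn he hγ1 r8 r1 g11 r2 g3 hρ0 hh0
  have hγδ : γ ^ 2 ≤ δ / 1000 := by
    have h3 : γ ≤ δ := by
      rw [← hγτ]
      have h5 : (1 : ℝ) ≤ 32 * (τ : ℝ) ^ 2 := by
        have : (64 : ℝ) * 64 ≤ τ * τ := mul_le_mul r7 r7 (by norm_num) hτ0
        linarith
      have : 1 * γ ≤ 32 * (τ : ℝ) ^ 2 * γ := mul_le_mul_of_nonneg_right h5 hγ0.le
      linarith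
    have h4 : γ * γ ≤ 1 / 1000 * δ := mul_le_mul hγ1 h3 hγ0.le (by norm_num)
    linarith
  have hδn : δ * n ≤ 1 * n := mul_le_mul_of_nonneg_right hδ1 hn0.le
  have hτg : 0 ≤ (τ : ℝ) * g := mul_nonneg hτ0 hg0
  have hτω : 0 ≤ (τ : ℝ) * ω := mul_nonneg hτ0 hω0
  have hτρ : 0 ≤ (τ : ℝ) * ρ := mul_nonneg hτ0 hρ0
  refine ⟨r7, s1, s2, s4, s5, r6, r3, by linarith, hfin, ?_, by linarith, hn0⟩
  intro x hx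
  exact lkn3 hδ0 hδ1 hγδ hn hx he s6 (by linarith) s7 (by linarith)

end Pool.Agent.Run7.h320.D
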