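import Pool.Agent.Run7.h320.D.Cls
import Pool.Agent.Run7.h320.D.App
import Pool.Agent.Run7.h320.D.Num4

/-!
# The core theorem: edge colourings of dense graphs from nearly full lists
-/

set_option autoImplicit false
set_option linter.unusedSectionVars false

namespace Pool.Agent.Run7.h320.D

open Finset

/-- the core theorem, for fixed classes -/
theorem core2 {V C : Type} [Fintype V] [DecidableEq V] [Fintype C] [DecidableEq C] [Nonempty V]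
    [Nonempty C] {H : Finset (Finset V)} {L : Finset V → Finset C} {P : V → Finset C}
    {W₀ : Finset V} {R₀ : Finset C} {τ e ω g ρ h z' : ℕ} {Z : Finset V}
    {cl : V → Fin τ ⊕ Fin τ} {kc : C → Fin τ ⊕ Fin τ} {b : V → Fin τ}
    (h2 : ∀ f ∈ H, f.card = 2) (hLP : ∀ f ∈ H, ∀ u ∈ f, L f ⊆ P u)
    (hmis : ∀ u, ∀ c ∈ P u, ((at' H u).filter (fun f => c ∉ L f)).card ≤ e)
    (hdeg : ∀ u, (at' H u).card ≤ (P u).card)
    (hP : ∀ u, Fintype.card C ≤ (P u).card + e)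
    (hVC : Fintype.card V ≤ Fintype.card C + e)
    (hfull : ∀ f ∈ H, ∀ w ∈ f, w ∈ W₀ → ∀ u ∈ f, u ≠ w → ∀ c ∈ P u, c ∈ R₀ → c ∈ L f)
    (z1 : ∀ x, x ∉ Z → x ∈ W₀) (z3 : ∀ i, (univ.filter (fun x => x ∉ Z ∧ cl x = i)).card = ω)
    (z4 : ∀ i, (Z.filter (fun x => b x = i)).card ≤ z' + 1)
    (k1 : ∀ c, (∃ i : Fin τ, kc c = Sum.inr i) → c ∈ R₀)
    (k2 : ∀ i : Fin τ, (univ.filter (fun c => kc c = Sum.inr i)).card = ρ)
    (m1 : g * (τ + τ - 1) = ρ + h) (m2 : 2 ≤ τ + τ) (m3 : h + e ≤ g) (m4 : h + e ≤ g / 2)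
    (m5 : g / 2 + e ≤ g) (m6 : 2 * (g / 16) + 3 * e + 2 ≤ g / 2) (m7 : 0 < τ * g)
    (m8 : g ≤ ω + 1 - g) (m9 : τ * g + e ≤ ρ) (m10 : ω + 1 - g + g ≤ ω + 1) (m11 : g ≤ ω)
    (m12 : Z.card * (h + e) ≤ g / 16 * (g / 2 - 1))
    (m13 : (z' + 1) * g ≤ (ω + 1 - g - g) * (τ * g))
    (hlk : ∀ F ⊆ H, (∀ u ∈ Z, ∀ i, (univ.filter (fun x => x ∉ Z ∧ cl x = i ∧
      ({u, x} : Finset V) ∈ F)).card ≤ if i = Sum.inr (b u) then ω else ω - g) →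
      ∃ φ, Pr F (L1 Z cl kc b L) φ) :
    ∃ χ, Pr H L χ := by
  refine core1 (T := Fin τ) (M := Fin τ) (H := H) (L := L) (P := P) (Z := Z) (cl := cl) (kc := kc)
    (b := b) (e := e) (ω := ω) (g := g) (a := ω + 1 - g) (l := τ * g) (k := g / 2) (q := g / 16)
    (ρ := ρ) (h := h) (z := z' + 1) h2 hLP hmis hdeg hP ?_ z3 k2 z4 hVC ?_ ?_ m3 m4 m5 m12 m6 m13
    m7 m8 m9 m10 m11 hlk
  · intro f hf w hwf hw u huf huw c hc hci
    exact hfull f hf w hwf (z1 w hw) u huf huw c hc (k1 c hci)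
  · rw [Fintype.card_fin]
    exact m1
  · rw [Fintype.card_fin]
    exact m2

/-- the core theorem -/
theorem core (δ : ℝ) (hδ0 : 0 < δ) (hδ1 : δ ≤ 1) : ∃ ε : ℝ, 0 < ε ∧ ∃ n₀ : ℕ,
    ∀ (V C : Type) [Fintype V] [DecidableEq V] [Fintype C] [DecidableEq C]
      (H : Finset (Finset V)) (L : Finset V → Finset C) (P : V → Finset C) (W₀ : Finset V)
      (R₀ : Finset C) (e : ℕ), n₀ ≤ Fintype.card V → (e : ℝ) ≤ ε * Fintype.card V →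
      (∀ f ∈ H, f.card = 2) → (∀ f ∈ H, ∀ u ∈ f, L f ⊆ P u) →
      (∀ f ∈ H, Fintype.card C ≤ (L f).card + e) →
      (∀ u, ∀ c ∈ P u, ((at' H u).filter (fun f => c ∉ L f)).card ≤ e) →
      (∀ u, (at' H u).card ≤ (P u).card) →
      (∀ u, Fintype.card C ≤ (P u).card + e) →
      Fintype.card V ≤ Fintype.card C + e → Fintype.card C ≤ 2 * Fintype.card V →
      δ * Fintype.card V ≤ W₀.card →
      (∀ w ∈ W₀, ((at' H w).card : ℝ) ≤ (1 - δ) * Fintype.card V) →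
      δ * Fintype.card V ≤ R₀.card →
      (∀ f ∈ H, ∀ w ∈ f, w ∈ W₀ → ∀ u ∈ f, u ≠ w → ∀ c ∈ P u, c ∈ R₀ → c ∈ L f) →
      ∃ χ, Pr H L χ := by
  obtain ⟨τ, γ, hγ0, hγ1, hτ, hτδ, hγτ⟩ := nums δ hδ0 hδ1
  obtain ⟨D₀, hD₀⟩ := lkapp γ hγ0 hγ1
  refine ⟨γ ^ 2 / 10000, by positivity, max D₀ (⌈100000 / γ ^ 2⌉₊), ?_⟩
  intro V C _ _ _ _ H L P W₀ R₀ e hn he h2 hLP hLN hmis hdeg hP hVC hCV hW₀ hW₀d hR₀ hfull
  obtain ⟨n, hnd⟩ : ∃ n : ℝ, n = (Fintype.card V : ℝ) := ⟨_, rfl⟩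
  have hn1 : D₀ ≤ Fintype.card V := (le_max_left _ _).trans hn
  have hγn2 : 100000 ≤ γ ^ 2 * n := by
    have hn2 : 100000 / γ ^ 2 ≤ n := by
      rw [hnd]
      exact (Nat.le_ceil _).trans (by exact_mod_cast (le_max_right _ _).trans hn)
    rw [div_le_iff₀ (by positivity)] at hn2
    linarith
  clear hn
  rw [← hnd] at he hW₀ hW₀d hR₀
  obtain ⟨g, h, ω, ρ, g1, g2, g3, g4, g5, g6, g7, g8, g9, g10, g11, g12⟩ :=
    nums2 hδ0 hγ0 hγ1 hτ hγτ hγn2 he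
  obtain ⟨hγn, hn3⟩ := aux1 hγ0 hγ1 hγn2
  have hn0 : 0 < n := by linarith
  have hτpos : 0 < τ := lt_of_lt_of_le (by norm_num) hτ
  obtain ⟨Z, cl, b, z1, z2, z3, z4⟩ := vcls W₀ τ ω hτpos (by
    have hδn : 0 ≤ δ * n := mul_nonneg hδ0.le hn0.le
    have h3 : (2 * (τ : ℝ) * ω) ≤ W₀.card := by
      clear g1 g2 g3 g4 g5 g6 g7 g9 g10 g11 g12
      linarith
    exact_mod_cast h3)
  obtain ⟨kc, κ, k1, k2, k3, k4, k5⟩ := kcls R₀ τ ρ hτpos (by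
    have hδn : 0 ≤ δ * n := mul_nonneg hδ0.le hn0.le
    have h3 : ((τ : ℝ) * ρ) ≤ R₀.card := by
      clear g1 g2 g3 g4 g5 g6 g7 g9 g10 g11 g8
      linarith
    exact_mod_cast h3)
  obtain ⟨z', hz'⟩ : ∃ z' : ℕ, z' = Z.card / τ := ⟨_, rfl⟩
  obtain ⟨s, hs⟩ : ∃ s : ℕ, s = κ / τ + 1 := ⟨_, rfl⟩
  rw [← hs] at k3
  rw [← hz'] at z4
  have hz1 : τ * z' ≤ Z.card := by
    rw [hz']
    exact Nat.mul_div_le _ _
  have hz2 : Z.card ≤ τ * z' + τ := by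
    have h3 := Nat.div_add_mod Z.card τ
    rw [← hz'] at h3
    exact h3.symm.le.trans (Nat.add_le_add_left (Nat.mod_lt Z.card hτpos).le _)
  have hs2 : τ * s ≤ κ + τ := by
    rw [hs, Nat.mul_add, mul_one]
    exact Nat.add_le_add_right (Nat.mul_div_le _ _) _
  have hs1 : 1 ≤ s := by
    rw [hs]
    exact Nat.le_add_left _ _
  obtain ⟨r1, r2, r3, r4, r5, r6, r7, r8, r9, r10, r11, r12⟩ := natG hδ0 hδ1 hγ0 hγ1 hτ hτδ hγτ
    hγn2 he g3 g8 g11 g12 hnd hVC hCV z2 k5 hz1 hz2 hs2 hs1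
  obtain ⟨m1, m2, m3, m4, m5, m6, m7, m8, m9, m10, m11⟩ := natF hτ g5 g6 g7 g10
  have hVne : Nonempty V := by
    rw [← Fintype.card_pos_iff]
    have : (0 : ℝ) < (Fintype.card V : ℝ) := by rw [← hnd]; exact hn0
    exact_mod_cast this
  have hCne : Nonempty C := by
    rw [← Fintype.card_pos_iff]
    have h3 : (0 : ℝ) < (κ : ℝ) := lt_of_lt_of_le (by positivity) r2
    have h4 : 0 < κ := by exact_mod_cast h3
    rw [← k5]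
    exact Nat.add_pos_left h4 _
  refine core2 (e := e) h2 hLP hmis hdeg hP hVC hfull z1 z3 (fun i => (z4 i).2) k1 k2 m1 m2 m3 m4
    m5 m6 m7 m8 m9 m10 m11 (nums4 hγ0 hγ1 hγn2 he g2 g4 r11)
    (nums6 hτ hτδ g6 g9 g7 r11 hz1 g8 hδ0) ?_
  clear g1 g2 g3 g4 g5 g6 g7 g8 g9 g10 g11 g12 m1 m2 m3 m4 m5 m6 m7 m8 m9 m10
  intro F hF hcls
  refine hD₀ V C τ F L Z cl kc b ρ s κ e z' ω g n hn1 hnd hn0 (fun f hf => h2 f (hF hf)) hCV k2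
    k3 k4 (fun f hf => hLN f (hF hf)) (fun i => (z4 i).1) m11 hcls r1
    r2 r3 r4 r5 he r6 r7 r8 r9 ?_
  intro w hw
  apply r10
  refine le_trans ?_ (hW₀d w (z1 w hw))
  have : (at' F w).card ≤ (at' H w).card := by
    apply card_le_card
    intro f hf
    rw [mem_at] at hf ⊢
    exact ⟨hF hf.1, hf.2⟩
  exact_mod_cast this

end Pool.Agent.Run7.h320.D
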