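import Mathlib

/-!
# Numerical estimates
-/

set_option autoImplicit false

namespace Pool.Agent.Run7.h320.D

/-- the load of the ordinary colours -/
theorem num_l2 {z z' τ ω g ρ κ s e₁ : ℝ} (hκ : 0 < κ) (hs0 : 0 < κ - s) (hs : τ * s ≤ κ + τ)
    (hτ : 2 ≤ τ) (hzτ : z ≤ τ * z' + τ) (hzz0 : 0 < z - z') (hzz : τ * ρ ≤ z - z') (hρ : 0 ≤ ρ)
    (hωg : 0 ≤ ω - g) (hω : τ * (ω - g) ≤ κ - 2) (he₁ : 0 ≤ e₁)
    (hfin : (1 + e₁) * (z + τ * (ω - g) + 2 + (τ - 1) * (ω - g) + ω) - ρ * (τ - 1) + 1 ≤ κ) :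
    z * ((1 + e₁ - (τ - 2) * ρ * (1 / (z - z'))) / κ) -
      z' * ((1 + e₁ - (τ - 2) * ρ * (1 / (z - z'))) / κ -
        (1 + e₁ - (τ - 1) * ρ * (1 / (z - z'))) / κ) +
      (τ - 1) * (ω - g) * ((1 + e₁) / (κ - s)) + ((τ - 1) * (ω - g) + ω) * ((1 + e₁) / κ) ≤ 1 := by
  have h1 : z * ((1 + e₁ - (τ - 2) * ρ * (1 / (z - z'))) / κ) -
      z' * ((1 + e₁ - (τ - 2) * ρ * (1 / (z - z'))) / κ -
        (1 + e₁ - (τ - 1) * ρ * (1 / (z - z'))) / κ) =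
      (z * (1 + e₁) - ρ * ((τ - 2) * z + z') / (z - z')) / κ := by
    field_simp
    ring
  have h2 : ρ * (τ - 1) - 1 ≤ ρ * ((τ - 2) * z + z') / (z - z') := by
    rw [le_div_iff₀ hzz0]
    nlinarith [mul_le_mul_of_nonneg_left hzτ hρ]
  have h3 : (τ - 1) * (ω - g) * ((1 + e₁) / (κ - s)) ≤ (1 + e₁) * (τ * (ω - g) + 2) / κ := by
    rw [mul_div_assoc', div_le_div_iff₀ hs0 hκ]
    have h4 : (τ - 1) * (ω - g) * κ ≤ (τ * (ω - g) + 2) * (κ - s) := by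
      have h5 : 0 ≤ τ * (ω - g) + 2 := by positivity
      have h6 : (τ * (ω - g) + 2) * (τ * s) ≤ (τ * (ω - g) + 2) * (κ + τ) :=
        mul_le_mul_of_nonneg_left hs h5
      have h7 : τ * ((τ - 1) * (ω - g) * κ) ≤ τ * ((τ * (ω - g) + 2) * (κ - s)) := by
        nlinarith [mul_le_mul_of_nonneg_left hω (by linarith : (0 : ℝ) ≤ τ),
          mul_nonneg (by linarith : (0 : ℝ) ≤ τ - 2) hκ.le]
      exact le_of_mul_le_mul_left h7 (by linarith)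
    have h8 : 0 ≤ 1 + e₁ := by linarith
    nlinarith [mul_le_mul_of_nonneg_left h4 h8]
  rw [h1]
  have h9 : (z * (1 + e₁) - ρ * ((τ - 2) * z + z') / (z - z')) / κ ≤
      (z * (1 + e₁) - (ρ * (τ - 1) - 1)) / κ := by
    apply div_le_div_of_nonneg_right _ hκ.le
    linarith
  have h10 : ((τ - 1) * (ω - g) + ω) * ((1 + e₁) / κ) =
      ((τ - 1) * (ω - g) + ω) * (1 + e₁) / κ := by
    rw [mul_div_assoc]
  rw [h10]
  have h11 : (z * (1 + e₁) - (ρ * (τ - 1) - 1)) / κ + (1 + e₁) * (τ * (ω - g) + 2) / κ +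
      ((τ - 1) * (ω - g) + ω) * (1 + e₁) / κ ≤ 1 := by
    rw [← add_div, ← add_div, div_le_one hκ]
    nlinarith
  linarith

end Pool.Agent.Run7.h320.D
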