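import Pool.Agent.Run7.h320.D.Num

/-!
# The parameters
-/

set_option autoImplicit false

namespace Pool.Agent.Run7.h320.D

theorem nums (δ : ℝ) (hδ0 : 0 < δ) (hδ1 : δ ≤ 1) : ∃ (τ : ℕ) (γ : ℝ), 0 < γ ∧ γ ≤ 1 / 1000 ∧
    64 ≤ τ ∧ 64 ≤ τ * δ ∧ 32 * (τ : ℝ) ^ 2 * γ = δ := by
  obtain ⟨τ, hτd⟩ : ∃ τ : ℕ, τ = ⌈64 / δ⌉₊ := ⟨_, rfl⟩
  have hτ1 : 64 / δ ≤ (τ : ℝ) := by
    rw [hτd]
    exact Nat.le_ceil _
  have hτδ : 64 ≤ τ * δ := by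
    rw [div_le_iff₀ hδ0] at hτ1
    exact hτ1
  have hτ64 : (64 : ℝ) ≤ τ := by nlinarith
  have hτ64' : 64 ≤ τ := by exact_mod_cast hτ64
  have hτ0 : (0 : ℝ) < τ := by linarith
  refine ⟨τ, δ / (32 * (τ : ℝ) ^ 2), by positivity, ?_, hτ64', hτδ, by field_simp⟩
  rw [div_le_div_iff₀ (by positivity) (by norm_num)]
  nlinarith [mul_le_mul hτ64 hτ64 (by norm_num) hτ0.le]

theorem aux1 {γ n : ℝ} (hγ0 : 0 < γ) (hγ1 : γ ≤ 1 / 1000) (h : 100000 ≤ γ ^ 2 * n) :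
    100000 ≤ γ * n ∧ 100000 ≤ n := by
  have h1 : 0 < n := by
    by_contra hcon
    push Not at hcon
    nlinarith [mul_nonneg (sq_nonneg γ) (by linarith : (0 : ℝ) ≤ -n)]
  have h2 : γ ^ 2 * n ≤ γ * n := by
    apply mul_le_mul_of_nonneg_right _ h1.le
    nlinarith
  have h3 : γ * n ≤ 1 * n := by
    apply mul_le_mul_of_nonneg_right _ h1.le
    linarith
  exact ⟨by linarith, by linarith⟩

theorem aux2 {γ n h e g : ℝ} (hγ0 : 0 < γ) (hγ1 : γ ≤ 1 / 1000) (hn : 100000 ≤ γ * n)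
    (hh : h < γ ^ 2 / 100 * n + 1) (he : e ≤ γ ^ 2 / 10000 * n) (hg : γ * n < g + 1) :
    16 * (h + e) ≤ g := by
  have h1 : γ ^ 2 * n ≤ 1 / 1000 * (γ * n) := by
    have : γ ^ 2 * n = γ * (γ * n) := by ring
    rw [this]
    exact mul_le_mul_of_nonneg_right hγ1 (by linarith)
  linarith

theorem aux3 {δ τ γ n g ω : ℝ} (hτ0 : 0 < τ) (hg : g ≤ γ * n) (hγ : 32 * τ ^ 2 * γ = δ)
    (hω : δ * n < (ω + 1) * (4 * τ)) : 8 * τ * g ≤ ω + 1 := by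
  have h1 : 32 * τ ^ 2 * g ≤ δ * n := by
    rw [← hγ]
    have : 32 * τ ^ 2 * g ≤ 32 * τ ^ 2 * (γ * n) := mul_le_mul_of_nonneg_left hg (by positivity)
    linarith
  have h2 : (8 * τ * g) * (4 * τ) < (ω + 1) * (4 * τ) := by
    have : (8 * τ * g) * (4 * τ) = 32 * τ ^ 2 * g := by ring
    linarith
  exact (lt_of_mul_lt_mul_right h2 (by positivity)).le

theorem aux4 {δ τ γ n g ρ h : ℝ} (hτ0 : 0 < τ) (hg0 : 0 ≤ g) (hh0 : 0 ≤ h) (hg : g ≤ γ * n)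
    (hγ : 32 * τ ^ 2 * γ = δ) (hρ : ρ + h = g * (2 * τ - 1)) : 16 * (τ * ρ) ≤ δ * n := by
  have h1 : ρ ≤ 2 * τ * g := by nlinarith
  have h2 : τ * ρ ≤ τ * (2 * τ * g) := mul_le_mul_of_nonneg_left h1 hτ0.le
  have h3 : τ ^ 2 * g ≤ τ ^ 2 * (γ * n) := mul_le_mul_of_nonneg_left hg (by positivity)
  rw [← hγ]
  nlinarith

/-- the natural numbers -/
theorem nums2 {δ γ n : ℝ} {τ e : ℕ} (hδ0 : 0 < δ) (hγ0 : 0 < γ) (hγ1 : γ ≤ 1 / 1000)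
    (hτ : 64 ≤ τ) (hγ : 32 * (τ : ℝ) ^ 2 * γ = δ) (hn : 100000 ≤ γ ^ 2 * n)
    (he : (e : ℝ) ≤ γ ^ 2 / 10000 * n) : ∃ g h ω ρ : ℕ, (g : ℝ) ≤ γ * n ∧ γ * n < g + 1 ∧
      γ ^ 2 / 100 * n ≤ h ∧ (h : ℝ) < γ ^ 2 / 100 * n + 1 ∧ 16 * (h + e) ≤ g ∧ 10000 ≤ g ∧
      8 * τ * g ≤ ω + 1 ∧ (ω : ℝ) * (4 * τ) ≤ δ * n ∧ δ * n < (ω + 1) * (4 * τ) ∧
      ρ + h = g * (2 * τ - 1) ∧ (ρ : ℝ) + h = g * (2 * τ - 1) ∧ 16 * ((τ : ℝ) * ρ) ≤ δ * n := by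
  obtain ⟨hγn, hn3⟩ := aux1 hγ0 hγ1 hn
  have hτ64 : (64 : ℝ) ≤ τ := by exact_mod_cast hτ
  have hτ0 : (0 : ℝ) < τ := by linarith
  obtain ⟨g, hg⟩ : ∃ g : ℕ, g = ⌊γ * n⌋₊ := ⟨_, rfl⟩
  have hg1 : (g : ℝ) ≤ γ * n := by
    rw [hg]
    exact Nat.floor_le (by linarith)
  have hg2 : γ * n < g + 1 := by
    rw [hg]
    exact Nat.lt_floor_add_one _
  have hg3' : 10000 ≤ g := by
    have : (10000 : ℝ) ≤ g := by linarith
    exact_mod_cast this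
  obtain ⟨h, hh⟩ : ∃ h : ℕ, h = ⌈γ ^ 2 / 100 * n⌉₊ := ⟨_, rfl⟩
  have hh1 : γ ^ 2 / 100 * n ≤ h := by
    rw [hh]
    exact Nat.le_ceil _
  have hh2 : (h : ℝ) < γ ^ 2 / 100 * n + 1 := by
    rw [hh]
    exact Nat.ceil_lt_add_one (by linarith)
  have hhe : 16 * ((h : ℝ) + e) ≤ g := aux2 hγ0 hγ1 hγn hh2 he hg2
  have hhe' : 16 * (h + e) ≤ g := by exact_mod_cast hhe
  obtain ⟨ω, hω⟩ : ∃ ω : ℕ, ω = ⌊δ * n / (4 * τ)⌋₊ := ⟨_, rfl⟩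
  have hω1 : (ω : ℝ) * (4 * τ) ≤ δ * n := by
    rw [← le_div_iff₀ (by positivity), hω]
    exact Nat.floor_le (by positivity)
  have hω2 : δ * n < (ω + 1) * (4 * τ) := by
    rw [← div_lt_iff₀ (by positivity), hω]
    exact Nat.lt_floor_add_one _
  have hgω : 8 * (τ : ℝ) * g ≤ ω + 1 := aux3 hτ0 hg1 hγ hω2
  have hgω' : 8 * τ * g ≤ ω + 1 := by exact_mod_cast hgω
  obtain ⟨ρ, hρd⟩ : ∃ ρ : ℕ, ρ + h = g * (2 * τ - 1) := by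
    refine ⟨g * (2 * τ - 1) - h, Nat.sub_add_cancel ?_⟩
    have h3 : g * 1 ≤ g * (2 * τ - 1) := Nat.mul_le_mul_left _ (by omega)
    omega
  have hρR : (ρ : ℝ) + h = g * (2 * τ - 1) := by
    have h3 : ((ρ + h : ℕ) : ℝ) = ((g * (2 * τ - 1) : ℕ) : ℝ) := by rw [hρd]
    have h4 : ((2 * τ - 1 : ℕ) : ℝ) = 2 * τ - 1 := by
      rw [Nat.cast_sub (by omega)]
      push_cast
      ring
    push_cast [h4] at h3
    exact h3
  exact ⟨g, h, ω, ρ, hg1, hg2, hh1, hh2, hhe', hg3', hgω', hω1, hω2, hρd, hρR,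
    aux4 hτ0 (Nat.cast_nonneg _) (Nat.cast_nonneg _) hg1 hγ hρR⟩

theorem nums4 {γ n : ℝ} {g h e z : ℕ} (hγ0 : 0 < γ) (hγ1 : γ ≤ 1 / 1000)
    (hn : 100000 ≤ γ ^ 2 * n) (he : (e : ℝ) ≤ γ ^ 2 / 10000 * n) (hg : γ * n < g + 1)
    (hh : (h : ℝ) < γ ^ 2 / 100 * n + 1) (hz : (z : ℝ) ≤ n) :
    z * (h + e) ≤ g / 16 * (g / 2 - 1) := by
  obtain ⟨hγn, hn3⟩ := aux1 hγ0 hγ1 hn
  have h3 : (γ * n / 16 - 2 : ℝ) ≤ ((g / 16 : ℕ) : ℝ) := by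
    have h4 : g < 16 * (g / 16) + 16 := by omega
    have h5 : (g : ℝ) < 16 * ((g / 16 : ℕ) : ℝ) + 16 := by exact_mod_cast h4
    linarith
  have h4 : (γ * n / 2 - 3 : ℝ) ≤ ((g / 2 - 1 : ℕ) : ℝ) := by
    have h5 : g < 2 * (g / 2) + 2 := by omega
    have h6 : g < 2 * (g / 2 - 1) + 4 := by omega
    have h7 : (g : ℝ) < 2 * ((g / 2 - 1 : ℕ) : ℝ) + 4 := by exact_mod_cast h6
    linarith
  have h5 : (z : ℝ) * (h + e) ≤ ((g / 16 : ℕ) : ℝ) * ((g / 2 - 1 : ℕ) : ℝ) := by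
    have h6 : (z : ℝ) * (h + e) ≤ n * (γ ^ 2 / 100 * n + 1 + γ ^ 2 / 10000 * n) := by
      apply mul_le_mul hz _ (by positivity) (by linarith)
      linarith
    have h7 : (γ * n / 16 - 2) * (γ * n / 2 - 3) ≤
        ((g / 16 : ℕ) : ℝ) * ((g / 2 - 1 : ℕ) : ℝ) := by
      apply mul_le_mul h3 h4 (by linarith) (Nat.cast_nonneg _)
    have h8 : n * (γ ^ 2 / 100 * n + 1 + γ ^ 2 / 10000 * n) ≤
        (γ * n / 16 - 2) * (γ * n / 2 - 3) := by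
      have h9 : 100000 * n ≤ γ ^ 2 * n * n := mul_le_mul_of_nonneg_right hn (by linarith)
      have h10 : γ * n ≤ n := by nlinarith
      have e1 : n * (γ ^ 2 / 100 * n + 1 + γ ^ 2 / 10000 * n) =
        (101 / 10000) * (γ ^ 2 * n * n) + n := by ring
      have e2 : (γ * n / 16 - 2) * (γ * n / 2 - 3) = (1 / 32) * (γ ^ 2 * n * n) -
        (19 / 16) * (γ * n) + 6 := by ring
      rw [e1, e2]
      linarith
    linarith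
  exact_mod_cast h5

theorem nums6 {δ n : ℝ} {g ω τ z z' : ℕ} (hτ : 64 ≤ τ) (hτδ : 64 ≤ τ * δ)
    (hg : 10000 ≤ g) (hω : δ * n < (ω + 1) * (4 * τ)) (hgω : 8 * τ * g ≤ ω + 1)
    (hz : (z : ℝ) ≤ n) (hz' : τ * z' ≤ z) (hω1 : (ω : ℝ) * (4 * τ) ≤ δ * n) (hδ0 : 0 < δ) :
    (z' + 1) * g ≤ (ω + 1 - g - g) * (τ * g) := by
  have h0 : 512 * g ≤ ω + 1 := by
    refine le_trans ?_ hgω
    apply Nat.mul_le_mul_right
    omega
  have hτ64 : (64 : ℝ) ≤ τ := by exact_mod_cast hτ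
  have h3 : ω + 1 - g - g = ω + 1 - 2 * g := by omega
  rw [h3]
  have h4 : z' + 1 ≤ (ω + 1 - 2 * g) * τ := by
    have h5 : ((ω + 1 - 2 * g : ℕ) : ℝ) = ω + 1 - 2 * g := by
      rw [Nat.cast_sub (by omega)]
      push_cast
      ring
    have h6 : ((z' + 1 : ℕ) : ℝ) ≤ (((ω + 1 - 2 * g) * τ : ℕ) : ℝ) := by
      rw [Nat.cast_mul, h5]
      push_cast
      have h7 : (2 : ℝ) * g ≤ (ω + 1) / 4 := by
        have : (512 : ℝ) * g ≤ ω + 1 := by exact_mod_cast h0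
        have : (0 : ℝ) ≤ g := Nat.cast_nonneg _
        linarith
      have h8 : δ * n / 8 ≤ (ω + 1 - 2 * (g : ℝ)) * τ := by
        have h9 : (ω + 1) / 2 * (τ : ℝ) ≤ (ω + 1 - 2 * (g : ℝ)) * τ := by
          apply mul_le_mul_of_nonneg_right _ (by linarith)
          have : (0 : ℝ) ≤ ω := Nat.cast_nonneg _
          linarith
        linarith
      have hz'0 : (0 : ℝ) ≤ z' := Nat.cast_nonneg _
      have h9 : (z' : ℝ) ≤ δ * n / 64 := by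
        have h12 : (τ : ℝ) * z' ≤ z := by exact_mod_cast hz'
        have h10 : (τ * δ) * (z' : ℝ) ≤ δ * n := by
          have : δ * (τ * z') ≤ δ * n := mul_le_mul_of_nonneg_left (h12.trans hz) hδ0.le
          linarith
        have h11 : 64 * (z' : ℝ) ≤ (τ * δ) * z' := mul_le_mul_of_nonneg_right hτδ hz'0
        linarith
      have h12 : 64 ≤ δ * n := by
        refine le_trans ?_ hω1
        have h13 : (8 * 64 * 10000 : ℝ) ≤ ω + 1 := by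
          have : 8 * 64 * 10000 ≤ ω + 1 := by
            refine le_trans ?_ h0
            omega
          exact_mod_cast this
        have : (1 : ℝ) * (4 * 64) ≤ ω * (4 * τ) := by
          apply mul_le_mul (by linarith) (by linarith) (by norm_num) (by linarith)
        linarith
      linarith
    exact_mod_cast h6
  calc (z' + 1) * g ≤ ((ω + 1 - 2 * g) * τ) * g := Nat.mul_le_mul_right _ h4
    _ = (ω + 1 - 2 * g) * (τ * g) := by ring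

end Pool.Agent.Run7.h320.D
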