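import Pool.Agent.Run7.h320.D.Gr
import Pool.Agent.Run7.h320.D.Lab

/-!
# Total labelings of dense graphs
-/

set_option autoImplicit false
set_option linter.unusedSectionVars false

namespace Pool.Agent.Run7.h320.D

open Finset

/-- the size of a window -/
theorem win_card {N : ℕ} (p : ℕ) (hp : 1 ≤ p) (a : ℕ) :
    (univ.filter (fun c : Fin N => c.val < a + p ∧ a < c.val + p)).card ≤ 2 * p - 1 := by
  have h1 : (univ.filter (fun c : Fin N => c.val < a + p ∧ a < c.val + p)).card ≤
      (Finset.Ioo ((a : ℤ) - p) (a + p)).card := by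
    refine card_le_card_of_injOn (fun c => (c.val : ℤ)) ?_ ?_
    · intro c hc
      rw [mem_coe, mem_filter] at hc
      show (c.val : ℤ) ∈ Finset.Ioo ((a : ℤ) - p) (a + p)
      rw [Finset.mem_Ioo]
      omega
    · intro c _ c' _ h
      have : (c.val : ℤ) = c'.val := h
      exact Fin.ext (by exact_mod_cast this)
  rw [Int.card_Ioo] at h1
  omega

/-- the number of vertices the label of which is in a window -/
theorem win_cnt {V : Type} [Fintype V] [DecidableEq V] {N : ℕ} (p : ℕ) (hp : 1 ≤ p)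
    (f : V → Fin N) (K : ℕ) (hK : ∀ c, (univ.filter (fun v => f v = c)).card ≤ K) (a : ℕ) :
    (univ.filter (fun v => a < (f v).val + p ∧ (f v).val < a + p)).card ≤ (2 * p - 1) * K := by
  classical
  have h1 : (univ.filter (fun v => a < (f v).val + p ∧ (f v).val < a + p)) ⊆
      (univ.filter (fun c : Fin N => c.val < a + p ∧ a < c.val + p)).biUnion
        (fun c => univ.filter (fun v => f v = c)) := by
    intro v hv
    rw [mem_filter] at hv
    rw [mem_biUnion]
    exact ⟨f v, mem_filter.2 ⟨mem_univ _, hv.2.2, hv.2.1⟩, mem_filter.2 ⟨mem_univ _, rfl⟩⟩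
  refine (card_le_card h1).trans (card_biUnion_le.trans ?_)
  refine (sum_le_card_nsmul _ _ K (fun c _ => hK c)).trans ?_
  rw [smul_eq_mul]
  exact Nat.mul_le_mul_right _ (win_card p hp a)

theorem tl (δ : ℝ) (hδ0 : 0 < δ) (hδ1 : δ ≤ 1) : ∃ ε : ℝ, 0 < ε ∧ ∃ n₀ : ℕ,
    ∀ (V : Type) [Fintype V] [DecidableEq V] (G : SimpleGraph V) [DecidableRel G.Adj]
      (D p : ℕ) (W₀ : Finset V), n₀ ≤ Fintype.card V → 1 ≤ p → (p : ℝ) ≤ ε * Fintype.card V →
      (∀ v, (univ.filter (fun w => G.Adj v w)).card ≤ D) →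
      (1 - ε) * Fintype.card V ≤ D → D ≤ Fintype.card V → δ * Fintype.card V ≤ W₀.card →
      (∀ w ∈ W₀, ((univ.filter (fun v => G.Adj w v)).card : ℝ) ≤ (1 - δ) * Fintype.card V) →
      ∃ (f : V → Fin (D + 2 * p - 1)) (χ : Sym2 V → Fin (D + 2 * p - 1)),
        (∀ u v, G.Adj u v → f u ≠ f v) ∧
        (∀ u v w, G.Adj u v → G.Adj u w → v ≠ w → χ s(u, v) ≠ χ s(u, w)) ∧
        (∀ u v, G.Adj u v → (χ s(u, v)).val + p ≤ (f u).val ∨
          (f u).val + p ≤ (χ s(u, v)).val) := by
  classical
  obtain ⟨ε₀, hε₀, n₀, hcore⟩ := coreG (δ / 8) (by linarith) (by linarith)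
  obtain ⟨K, hKd⟩ : ∃ K : ℕ, K = ⌈8 / δ⌉₊ := ⟨_, rfl⟩
  have hK8 : 8 ≤ K * δ := by
    have h3 : 8 / δ ≤ (K : ℝ) := by
      rw [hKd]
      exact Nat.le_ceil _
    rwa [div_le_iff₀ hδ0] at h3
  have hK1 : 1 ≤ K := by
    rw [Nat.one_le_iff_ne_zero]
    intro h
    rw [h, Nat.cast_zero, zero_mul] at hK8
    linarith
  have hK0 : (0 : ℝ) ≤ K := Nat.cast_nonneg _
  refine ⟨min (ε₀ / (2 * K + 3)) (δ / 8), lt_min (by positivity) (by positivity),
    max n₀ (max K 8), ?_⟩
  intro V _ _ G _ D p W₀ hn hp hpn hdeg hDn hDV hW₀ hW₀d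
  obtain ⟨ε, hεd⟩ : ∃ ε : ℝ, ε = min (ε₀ / (2 * K + 3)) (δ / 8) := ⟨_, rfl⟩
  obtain ⟨n, hnd⟩ : ∃ n : ℝ, n = (Fintype.card V : ℝ) := ⟨_, rfl⟩
  have hε1 : ε * (2 * K + 3) ≤ ε₀ := by
    rw [← le_div_iff₀ (by positivity), hεd]
    exact min_le_left _ _
  have hε2 : ε ≤ δ / 8 := by
    rw [hεd]
    exact min_le_right _ _
  rw [← hεd] at hpn hDn
  rw [← hnd] at hpn hDn hW₀ hW₀d
  have hnK : (K : ℝ) ≤ n := by
    rw [hnd]
    exact_mod_cast (le_max_left _ _).trans ((le_max_right _ _).trans hn)
  have hn8 : (8 : ℝ) ≤ n := by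
    rw [hnd]
    exact_mod_cast (le_max_right _ _).trans ((le_max_right _ _).trans hn)
  have hn0 : 0 < n := by linarith
  have hεn : ε * n ≤ δ / 8 * n := mul_le_mul_of_nonneg_right hε2 hn0.le
  have hδn : δ * n ≤ 1 * n := mul_le_mul_of_nonneg_right hδ1 hn0.le
  have hδn0 : 0 < δ * n := by positivity
  have hDnR : (D : ℝ) ≤ n := by
    rw [hnd]
    exact_mod_cast hDV
  have hpR : (1 : ℝ) ≤ p := by exact_mod_cast hp
  obtain ⟨N, hN⟩ : ∃ N : ℕ, N = D + 2 * p - 1 := ⟨_, rfl⟩
  rw [← hN]
  have hN1 : N + 1 = D + 2 * p := by omega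
  have hNR : (N : ℝ) + 1 = D + 2 * p := by exact_mod_cast hN1
  have hNpos : 0 < N := by omega
  have : NeZero N := ⟨hNpos.ne'⟩
  obtain ⟨r, hrd⟩ : ∃ r : ℕ, r = ⌈δ / 8 * n⌉₊ := ⟨_, rfl⟩
  have hr1 : δ / 8 * n ≤ r := by
    rw [hrd]
    exact Nat.le_ceil _
  have hr2 : (r : ℝ) < δ / 8 * n + 1 := by
    rw [hrd]
    exact Nat.ceil_lt_add_one (by positivity)
  -- the labels of the vertices outside `W₀`
  have hAc : (univ \ W₀).card < N := by
    have h3 := card_sdiff_add_card_eq_card (subset_univ W₀)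
    rw [card_univ] at h3
    have h4 : (((univ \ W₀).card : ℕ) : ℝ) + W₀.card = n := by
      rw [hnd]
      exact_mod_cast h3
    have h5 : ((univ \ W₀).card : ℝ) < N := by linarith
    exact_mod_cast h5
  obtain ⟨f₀, -, -, hf₀⟩ := ginj (C := Fin N) (fun _ : V => univ) (fun _ => 0) (univ \ W₀) (by
    intro w _
    rw [card_univ, Fintype.card_fin]
    exact hAc)
  -- the labels of the vertices in `W₀`
  obtain ⟨good, hgood⟩ : ∃ good : Finset (Fin N), good = univ.filter (fun c => r + p ≤ c.val) :=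
    ⟨_, rfl⟩
  have hgc : N ≤ good.card + (r + p) := by
    have h3 : (univ : Finset (Fin N)) ⊆ good ∪ univ.filter (fun c => c.val < r + p) := by
      intro c _
      rw [mem_union, hgood, mem_filter, mem_filter]
      rcases le_or_gt (r + p) c.val with h | h
      · exact Or.inl ⟨mem_univ _, h⟩
      · exact Or.inr ⟨mem_univ _, h⟩
    have h4 := (card_le_card h3).trans (card_union_le _ _)
    rw [card_univ, Fintype.card_fin] at h4
    have h5 : (univ.filter (fun c : Fin N => c.val < r + p)).card ≤ r + p := by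
      refine le_trans (card_le_card_of_injOn (t := range (r + p)) (fun c => c.val) ?_ ?_)
        (le_of_eq (card_range _))
      · intro c hc
        rw [mem_coe, mem_filter] at hc
        rw [mem_coe, mem_range]
        exact hc.2
      · intro c _ c' _ h
        exact Fin.ext h
    omega
  have hgcR : (D : ℝ) - r ≤ good.card := by
    have : (N : ℝ) ≤ good.card + (r + p) := by exact_mod_cast hgc
    linarith
  have hdis : Disjoint (univ \ W₀) W₀ := sdiff_disjoint
  have hAW : (univ \ W₀) ∪ W₀ = univ := sdiff_union_of_subset (subset_univ _)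
  obtain ⟨f, hfA, hfW, hfp, hfc⟩ := gcap (fun v => univ.filter (fun w => G.Adj v w))
    (fun u v h => mem_filter.2 ⟨mem_univ _, (mem_filter.1 h).2.symm⟩)
    (fun v h => G.loopless.irrefl v (mem_filter.1 h).2) (univ \ W₀) (fun _ => good) K f₀ (by
      intro u hu v hv huv heq
      have := hf₀ u hu v hv heq
      rw [mem_filter] at huv
      exact huv.2.ne this) W₀ hdis (by
      intro w hw
      rw [hAW, inter_univ]
      have h3 := hW₀d w hw
      have h4 : (W₀.card : ℝ) ≤ n := by
        rw [hnd]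
        exact_mod_cast card_le_univ W₀
      have h5 : ((univ.filter (fun v => G.Adj w v)).card : ℝ) * K + W₀.card <
          (good.card : ℝ) * K := by
        have h6 : ((univ.filter (fun v => G.Adj w v)).card : ℝ) * K ≤ (1 - δ) * n * K :=
          mul_le_mul_of_nonneg_right h3 hK0
        have h7 : ((1 - δ / 4) * n - 1) * K ≤ (good.card : ℝ) * K := by
          apply mul_le_mul_of_nonneg_right _ hK0
          linarith
        have h8 : 8 * n ≤ (K * δ) * n := mul_le_mul_of_nonneg_right hK8 hn0.le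
        linarith
      exact_mod_cast h5) W₀ (Subset.refl _)
  rw [hAW] at hfp
  have hfK : ∀ c, (univ.filter (fun v => f v = c)).card ≤ K + 1 := by
    intro c
    have h3 : univ.filter (fun v => f v = c) ⊆ W₀.filter (fun v => f v = c) ∪
        (univ \ W₀).filter (fun v => f₀ v = c) := by
      intro v hv
      rw [mem_filter] at hv
      rw [mem_union, mem_filter, mem_filter]
      by_cases hvW : v ∈ W₀
      · exact Or.inl ⟨hvW, hv.2⟩
      · have h4 : v ∈ univ \ W₀ := mem_sdiff.2 ⟨mem_univ _, hvW⟩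
        exact Or.inr ⟨h4, by rw [← hfA v h4]; exact hv.2⟩
    refine (card_le_card h3).trans ((card_union_le _ _).trans (add_le_add (hfc c) ?_))
    rw [card_le_one]
    intro x hx y hy
    rw [mem_filter] at hx hy
    exact hf₀ x hx.1 y hy.1 (hx.2.trans hy.2.symm)
  -- the lists of the edges
  obtain ⟨P, hP⟩ : ∃ P : V → Finset (Fin N), P = fun v =>
    univ \ univ.filter (fun c : Fin N => c.val < (f v).val + p ∧ (f v).val < c.val + p) := ⟨_, rfl⟩
  have memP : ∀ v c, c ∈ P v ↔ (c.val + p ≤ (f v).val ∨ (f v).val + p ≤ c.val) := by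
    intro v c
    rw [hP]
    simp only [mem_sdiff, mem_filter, mem_univ, true_and]
    omega
  have hPc : ∀ v, D ≤ (P v).card := by
    intro v
    have h3 := win_card (N := N) p hp (f v).val
    have h4 : (P v).card + (univ.filter (fun c : Fin N => c.val < (f v).val + p ∧
        (f v).val < c.val + p)).card = N := by
      rw [hP]
      have := card_sdiff_add_card_eq_card (subset_univ (univ.filter (fun c : Fin N =>
        c.val < (f v).val + p ∧ (f v).val < c.val + p)))
      rw [card_univ, Fintype.card_fin] at this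
      exact this
    omega
  obtain ⟨e, he⟩ : ∃ e : ℕ, e = (2 * p - 1) * (K + 1) + (Fintype.card V - D) := ⟨_, rfl⟩
  have h2p : 2 * p - 1 ≤ (2 * p - 1) * (K + 1) := Nat.le_mul_of_pos_right _ (Nat.succ_pos _)
  obtain ⟨χ, hχ1, hχ2⟩ := hcore V (Fin N) G P W₀ (univ.filter (fun c => c.val < r)) e
    ((le_max_left _ _).trans hn) (by
      rw [he]
      have h3 : ((Fintype.card V - D : ℕ) : ℝ) = n - D := by
        rw [Nat.cast_sub hDV, hnd]
      have h4 : ((2 * p - 1 : ℕ) : ℝ) ≤ 2 * p := by
        have : 2 * p - 1 ≤ 2 * p := by omega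
        exact_mod_cast this
      rw [Nat.cast_add, Nat.cast_mul, h3]
      push_cast
      rw [← hnd]
      have h5 : ((2 * p - 1 : ℕ) : ℝ) * (K + 1) ≤ 2 * p * (K + 1) :=
        mul_le_mul_of_nonneg_right h4 (by linarith)
      have h6 : (p : ℝ) * (K + 1) ≤ ε * n * (K + 1) :=
        mul_le_mul_of_nonneg_right hpn (by linarith)
      have h7 : ε * (2 * K + 3) * n ≤ ε₀ * n := mul_le_mul_of_nonneg_right hε1 hn0.le
      push_cast at h5
      linarith) (by
      intro c
      rw [he]
      refine le_trans ?_ ((win_cnt p hp f (K + 1) hfK c.val).trans (Nat.le_add_right _ _))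
      apply card_le_card
      intro v hv
      rw [mem_filter, memP] at hv
      rw [mem_filter]
      refine ⟨mem_univ _, ?_, ?_⟩ <;> omega) (fun u => (hdeg u).trans (hPc u)) (by
      intro u
      rw [Fintype.card_fin]
      have := hPc u
      omega) (by
      rw [Fintype.card_fin]
      omega) (by
      rw [Fintype.card_fin]
      have : (N : ℝ) ≤ 2 * n := by linarith
      rw [hnd] at this
      exact_mod_cast this) (by
      rw [← hnd]
      linarith) (by
      intro w hw
      rw [← hnd]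
      have := hW₀d w hw
      linarith) (by
      rw [← hnd]
      have hrN : r ≤ N := by
        have : (r : ℝ) ≤ N := by linarith
        exact_mod_cast this
      have h3 : r ≤ (univ.filter (fun c : Fin N => c.val < r)).card := by
        refine le_trans (le_of_eq (card_range r).symm) ?_
        refine card_le_card_of_injOn (fun c => if h : c < N then (⟨c, h⟩ : Fin N) else 0) ?_ ?_
        · intro c hc
          rw [mem_coe, mem_range] at hc
          simp only [dif_pos (show c < N by omega)]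
          rw [mem_coe, mem_filter]
          exact ⟨mem_univ _, hc⟩
        · intro c hc c' hc' h
          rw [mem_coe, mem_range] at hc hc'
          simp only [dif_pos (show c < N by omega), dif_pos (show c' < N by omega),
            Fin.mk.injEq] at h
          exact h
      have h4 : (r : ℝ) ≤ ((univ.filter (fun c : Fin N => c.val < r)).card : ℝ) := by
        exact_mod_cast h3
      linarith) (by
      intro w hw c hc
      rw [mem_filter] at hc
      rw [memP]
      have h3 := hfW w hw
      rw [hgood, mem_filter] at h3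
      omega)
  refine ⟨f, χ, ?_, hχ2, ?_⟩
  · intro u v huv
    exact hfp u (mem_univ _) v (mem_univ _) (mem_filter.2 ⟨mem_univ _, huv⟩)
  · intro u v huv
    exact (memP u _).1 (hχ1 u v huv)

end Pool.Agent.Run7.h320.D
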